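import Pool.Agent.T6.H5.MX.PB

/-! # The covariances of the ranges of primes -/

set_option autoImplicit false

namespace Pool.Agent.T6.H5.MX

open Filter Topology MeasureTheory Set
open Pool.Agent.R320.JL (be)

noncomputable section

/-- the covariances of a range -/
def cv (lam T x y d : ℝ) : ℝ :=
  ∑ p ∈ Pm T x y, be (Real.log T / lam) p ^ 2 * Real.cos (2 * Real.pi * d * (Real.log p / Real.log T))

lemma cv_zero (lam T x y : ℝ) : cv lam T x y 0 = ∑ p ∈ Pm T x y, be (Real.log T / lam) p ^ 2 := by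
  unfold cv
  refine Finset.sum_congr rfl fun p _ => ?_
  simp

lemma cv_zero_nonneg (lam T x y : ℝ) : 0 ≤ cv lam T x y 0 := by
  rw [cv_zero]
  exact Finset.sum_nonneg fun _ _ => sq_nonneg _

lemma cv_abs (lam T x y d : ℝ) : |cv lam T x y d| ≤ cv lam T x y 0 := by
  rw [cv_zero]
  unfold cv
  refine (Finset.abs_sum_le_sum_abs _ _).trans (Finset.sum_le_sum fun p _ => ?_)
  rw [abs_mul, abs_of_nonneg (sq_nonneg _)]
  have := Real.abs_cos_le_one (2 * Real.pi * d * (Real.log p / Real.log T))
  nlinarith [sq_nonneg (be (Real.log T / lam) p)]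

lemma int_cos {x y d : ℝ} (hx : 0 < x) (hxy : x ≤ y) (hd : 0 < d) :
    |∫ u in x..y, Real.cos (2 * Real.pi * d * u) / u| ≤ 1 / (Real.pi * d * x) := by
  have hpi := Real.pi_pos
  obtain ⟨a, ha⟩ : ∃ a : ℝ, a = 2 * Real.pi * d := ⟨_, rfl⟩
  have ha0 : 0 < a := by rw [ha]; positivity
  have hy : 0 < y := by linarith
  rw [← ha]
  have hne : ∀ u ∈ uIcc x y, u ≠ 0 := by
    intro u hu
    rw [uIcc_of_le hxy] at hu
    have := hu.1
    linarith
  have hcos : ContinuousOn (fun u : ℝ => Real.cos (a * u) / u) (uIcc x y) :=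
    ContinuousOn.div (by fun_prop) continuousOn_id hne
  have hsin : ContinuousOn (fun u : ℝ => Real.sin (a * u) / (a * u ^ 2)) (uIcc x y) :=
    ContinuousOn.div (by fun_prop) (by fun_prop) fun u hu => by
      have := hne u hu
      positivity
  have hd1 : ∀ u ∈ uIcc x y, HasDerivAt (fun u : ℝ => Real.sin (a * u) / (a * u))
      (Real.cos (a * u) / u - Real.sin (a * u) / (a * u ^ 2)) u := by
    intro u hu
    have hu0 := hne u hu
    have h1 : HasDerivAt (fun u : ℝ => a * u) a u := by
      simpa using (hasDerivAt_id u).const_mul a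
    have h2 : HasDerivAt (fun u : ℝ => Real.sin (a * u) / (a * u))
        ((Real.cos (a * u) * a * (a * u) - Real.sin (a * u) * a) / (a * u) ^ 2) u :=
      h1.sin.div h1 (by positivity)
    refine h2.congr_deriv ?_
    field_simp
  have h1 := intervalIntegral.integral_eq_sub_of_hasDerivAt hd1 ((hcos.sub hsin).intervalIntegrable)
  rw [intervalIntegral.integral_sub hcos.intervalIntegrable hsin.intervalIntegrable] at h1
  have hd2 : ∀ u ∈ uIcc x y, HasDerivAt (fun u : ℝ => -(1 / (a * u))) (1 / (a * u ^ 2)) u := by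
    intro u hu
    have hu0 := hne u hu
    have h1 : HasDerivAt (fun u : ℝ => a * u) a u := by
      simpa using (hasDerivAt_id u).const_mul a
    have h2 : HasDerivAt (fun u : ℝ => -(1 / (a * u))) (-((0 * (a * u) - 1 * a) / (a * u) ^ 2)) u :=
      ((hasDerivAt_const u (1 : ℝ)).div h1 (by positivity)).neg
    refine h2.congr_deriv ?_
    field_simp
    ring
  have hinv : ContinuousOn (fun u : ℝ => 1 / (a * u ^ 2)) (uIcc x y) :=
    ContinuousOn.div (by fun_prop) (by fun_prop) fun u hu => by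
      have := hne u hu
      positivity
  have h2 := intervalIntegral.integral_eq_sub_of_hasDerivAt hd2 hinv.intervalIntegrable
  have h3 : |∫ u in x..y, Real.sin (a * u) / (a * u ^ 2)| ≤ ∫ u in x..y, 1 / (a * u ^ 2) := by
    refine (intervalIntegral.abs_integral_le_integral_abs hxy).trans ?_
    refine intervalIntegral.integral_mono_on hxy hsin.abs.intervalIntegrable hinv.intervalIntegrable
      fun u hu => ?_
    have hu0 : 0 < u := lt_of_lt_of_le hx hu.1
    rw [abs_div, abs_of_pos (by positivity : 0 < a * u ^ 2)]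
    apply div_le_div_of_nonneg_right (Real.abs_sin_le_one _) (by positivity)
  rw [h2] at h3
  have h4 : |Real.sin (a * y) / (a * y)| ≤ 1 / (a * y) := by
    rw [abs_div, abs_of_pos (by positivity : 0 < a * y)]
    exact div_le_div_of_nonneg_right (Real.abs_sin_le_one _) (by positivity)
  have h5 : |Real.sin (a * x) / (a * x)| ≤ 1 / (a * x) := by
    rw [abs_div, abs_of_pos (by positivity : 0 < a * x)]
    exact div_le_div_of_nonneg_right (Real.abs_sin_le_one _) (by positivity)
  have h6 : 1 / (Real.pi * d * x) = 2 * (1 / (a * x)) := by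
    rw [ha]
    field_simp
  rw [h6]
  rw [abs_le] at h3 h4 h5 ⊢
  constructor <;> linarith

/-- the covariances, to leading order -/
lemma cv_near {x y lam : ℝ} (hx : 0 < x) (hxy : x ≤ y) (hlam : 1 ≤ lam) (hly : lam * y ≤ 1 / 2) (d : ℝ)
    {δ : ℝ} (hδ : 0 < δ) : ∀ᶠ T : ℝ in atTop,
    |cv lam T x y d - 1 / Real.pi ^ 2 * ∫ u in x..y, Real.cos (2 * Real.pi * d * u) / u| ≤
      1 / Real.pi ^ 2 * (32 * (lam * y * (Real.log y - Real.log x))) + δ := by
  have hpi := Real.pi_pos
  have hlam0 : 0 < lam := by linarith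
  have hone := sum_one hx hxy
  have hcos := prime_int hx hxy (fun u => Real.cos (2 * Real.pi * d * u))
    (Continuous.continuousOn (by fun_prop))
  have hlog := Real.tendsto_log_atTop
  have hlamL : Tendsto (fun T : ℝ => lam / Real.log T) atTop (𝓝 0) := hlog.const_div_atTop _
  have hTx : Tendsto (fun T : ℝ => T ^ (-x)) atTop (𝓝 0) := tendsto_rpow_neg_atTop hx
  have hA : Tendsto (fun T : ℝ => 1 / Real.pi ^ 2 * (32 * ((lam / Real.log T + lam * y + T ^ (-x)) *
      ∑ p ∈ Pm T x y, (1 : ℝ) / p))) atTop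
      (𝓝 (1 / Real.pi ^ 2 * (32 * ((0 + lam * y + 0) * (Real.log y - Real.log x))))) :=
    ((((hlamL.add_const (lam * y)).add hTx).mul hone).const_mul 32).const_mul _
  rw [zero_add, add_zero] at hA
  have h1 := hA.eventually (gt_mem_nhds (show 1 / Real.pi ^ 2 * (32 * (lam * y * (Real.log y - Real.log x))) <
    1 / Real.pi ^ 2 * (32 * (lam * y * (Real.log y - Real.log x))) + δ / 2 by linarith))
  have h2 := (hcos.const_mul (1 / Real.pi ^ 2)).eventually (Metric.ball_mem_nhds _ (half_pos hδ))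
  filter_upwards [h1, h2, hlog.eventually_ge_atTop lam, eventually_gt_atTop 1] with T g1 g2 g3 hT
  have hT0 : 0 < T := by linarith
  have hL0 : 0 < Real.log T := by linarith
  have hl1 : 1 ≤ Real.log T / lam := by rw [le_div_iff₀ hlam0]; linarith
  rw [Real.dist_eq] at g2
  have h3 : |cv lam T x y d - 1 / Real.pi ^ 2 * ∑ p ∈ Pm T x y,
      Real.cos (2 * Real.pi * d * (Real.log p / Real.log T)) / p| ≤
      1 / Real.pi ^ 2 * (32 * ((lam / Real.log T + lam * y + T ^ (-x)) *
      ∑ p ∈ Pm T x y, (1 : ℝ) / p)) := by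
    unfold cv
    rw [Finset.mul_sum, ← Finset.sum_sub_distrib]
    refine (Finset.abs_sum_le_sum_abs _ _).trans ?_
    have e1 : 1 / Real.pi ^ 2 * (32 * ((lam / Real.log T + lam * y + T ^ (-x)) *
      ∑ p ∈ Pm T x y, (1 : ℝ) / p)) = ∑ p ∈ Pm T x y, 1 / Real.pi ^ 2 * (1 / p) *
        (32 * (lam / Real.log T + lam * y + T ^ (-x))) := by
      rw [← Finset.sum_mul, ← Finset.mul_sum]
      ring
    rw [e1]
    refine Finset.sum_le_sum fun p hp => ?_
    obtain ⟨a1, a2, a3, a4, a5⟩ := mem_Pm hT hp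
    have hp0 : (0 : ℝ) < p := by exact_mod_cast a1.pos
    have hlp : Real.log p ≤ y * Real.log T := by rwa [div_le_iff₀ hL0] at a3
    have h4 : Real.log p ≤ Real.log T / lam / 2 := by
      have : y ≤ 1 / (2 * lam) := by
        rw [le_div_iff₀ (by positivity)]
        linarith
      calc Real.log p ≤ y * Real.log T := hlp
        _ ≤ 1 / (2 * lam) * Real.log T := by gcongr
        _ = _ := by field_simp
    have h5 := be_sq_near hl1 a1 h4
    have e2 : be (Real.log T / lam) p ^ 2 * Real.cos (2 * Real.pi * d * (Real.log p / Real.log T)) -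
        1 / Real.pi ^ 2 * (Real.cos (2 * Real.pi * d * (Real.log p / Real.log T)) / p) =
        (be (Real.log T / lam) p ^ 2 - 1 / Real.pi ^ 2 * (1 / p)) *
          Real.cos (2 * Real.pi * d * (Real.log p / Real.log T)) := by ring
    rw [e2, abs_mul]
    have h6 := Real.abs_cos_le_one (2 * Real.pi * d * (Real.log p / Real.log T))
    have h7 : (1 + Real.log p) / (Real.log T / lam) + 1 / p ≤ lam / Real.log T + lam * y + T ^ (-x) := by
      have h8 : (1 + Real.log p) / (Real.log T / lam) ≤ lam / Real.log T + lam * y := by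
        rw [div_div_eq_mul_div, div_le_iff₀ hL0]
        have : (lam / Real.log T + lam * y) * Real.log T = lam + lam * (y * Real.log T) := by
          field_simp
        rw [this]
        nlinarith
      have h9 : 1 / (p : ℝ) ≤ T ^ (-x) := by
        rw [Real.rpow_neg hT0.le, ← one_div]
        exact one_div_le_one_div_of_le (by positivity) a4.le
      linarith
    have h10 : 0 ≤ 1 / Real.pi ^ 2 * (1 / (p : ℝ)) := by positivity
    calc _ ≤ |be (Real.log T / lam) p ^ 2 - 1 / Real.pi ^ 2 * (1 / p)| * 1 :=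
          mul_le_mul_of_nonneg_left h6 (abs_nonneg _)
      _ = |be (Real.log T / lam) p ^ 2 - 1 / Real.pi ^ 2 * (1 / p)| := mul_one _
      _ ≤ 1 / Real.pi ^ 2 * (1 / p) * (32 * ((1 + Real.log p) / (Real.log T / lam) + 1 / p)) := h5
      _ ≤ _ := by gcongr
  have h11 := abs_add_le (cv lam T x y d - 1 / Real.pi ^ 2 * ∑ p ∈ Pm T x y,
      Real.cos (2 * Real.pi * d * (Real.log p / Real.log T)) / p)
    (1 / Real.pi ^ 2 * ∑ p ∈ Pm T x y, Real.cos (2 * Real.pi * d * (Real.log p / Real.log T)) / p -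
      1 / Real.pi ^ 2 * ∫ u in x..y, Real.cos (2 * Real.pi * d * u) / u)
  have e3 : (cv lam T x y d - 1 / Real.pi ^ 2 * ∑ p ∈ Pm T x y,
      Real.cos (2 * Real.pi * d * (Real.log p / Real.log T)) / p) +
    (1 / Real.pi ^ 2 * ∑ p ∈ Pm T x y, Real.cos (2 * Real.pi * d * (Real.log p / Real.log T)) / p -
      1 / Real.pi ^ 2 * ∫ u in x..y, Real.cos (2 * Real.pi * d * u) / u) =
    cv lam T x y d - 1 / Real.pi ^ 2 * ∫ u in x..y, Real.cos (2 * Real.pi * d * u) / u := by ring
  rw [e3] at h11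
  linarith

/-- the variance of a range -/
lemma cv_var {x y lam : ℝ} (hx : 0 < x) (hxy : x ≤ y) (hlam : 1 ≤ lam) (hly : lam * y ≤ 1 / 2)
    {δ : ℝ} (hδ : 0 < δ) : ∀ᶠ T : ℝ in atTop,
    |cv lam T x y 0 - 1 / Real.pi ^ 2 * (Real.log y - Real.log x)| ≤
      1 / Real.pi ^ 2 * (32 * (lam * y * (Real.log y - Real.log x))) + δ := by
  have h := cv_near hx hxy hlam hly 0 hδ
  have e : ∫ u in x..y, Real.cos (2 * Real.pi * 0 * u) / u = Real.log y - Real.log x := by
    rw [← int_one_div hx hxy]
    refine intervalIntegral.integral_congr fun u _ => ?_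
    simp
  rw [e] at h
  exact h

/-- the variance of a range, from above, with any weight -/
lemma cv_up {x y lam : ℝ} (hx : 0 < x) (hxy : x ≤ y) (hlam : 0 < lam)
    {δ : ℝ} (hδ : 0 < δ) : ∀ᶠ T : ℝ in atTop,
    cv lam T x y 0 ≤ 1 / Real.pi ^ 2 * (Real.log y - Real.log x) + δ := by
  have hone := (sum_one hx hxy).const_mul (1 / Real.pi ^ 2)
  have h1 := hone.eventually (gt_mem_nhds (show 1 / Real.pi ^ 2 * (Real.log y - Real.log x) <
    1 / Real.pi ^ 2 * (Real.log y - Real.log x) + δ by linarith))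
  filter_upwards [h1, eventually_gt_atTop 1] with T g1 hT
  refine le_trans ?_ g1.le
  rw [cv_zero, Finset.mul_sum]
  refine Finset.sum_le_sum fun p hp => ?_
  have hL0 : 0 < Real.log T := Real.log_pos hT
  exact be_sq_le (by positivity) (mem_Pm hT hp).1

/-- the covariances decay -/
lemma cv_far {x y lam : ℝ} (hx : 0 < x) (hxy : x ≤ y) (hlam : 1 ≤ lam) (hly : lam * y ≤ 1 / 2) {d : ℝ}
    (hd : 0 < d) {δ : ℝ} (hδ : 0 < δ) : ∀ᶠ T : ℝ in atTop,
    |cv lam T x y d| ≤ 1 / (d * x) + 4 * (lam * y * (Real.log y - Real.log x)) + δ := by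
  have hpi := Real.pi_gt_three
  filter_upwards [cv_near hx hxy hlam hly d hδ] with T hT
  have h1 := int_cos hx hxy hd
  have h2 : 0 ≤ lam * y * (Real.log y - Real.log x) := by
    have := Real.log_le_log hx hxy
    have hy : 0 < y := by linarith
    have : 0 ≤ Real.log y - Real.log x := by linarith
    positivity
  have h3 : 1 / Real.pi ^ 2 ≤ 1 / 8 := by
    apply one_div_le_one_div_of_le (by norm_num)
    nlinarith
  have h4 : |1 / Real.pi ^ 2 * ∫ u in x..y, Real.cos (2 * Real.pi * d * u) / u| ≤ 1 / (d * x) := by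
    rw [abs_mul, abs_of_pos (by positivity)]
    have h5 : 1 / (Real.pi * d * x) ≤ 1 / (d * x) := by
      apply one_div_le_one_div_of_le (by positivity)
      nlinarith [mul_pos hd hx]
    calc _ ≤ 1 * (1 / (d * x)) := by
          apply mul_le_mul (by linarith) (h1.trans h5) (abs_nonneg _) (by norm_num)
      _ = _ := one_mul _
  have h6 : 1 / Real.pi ^ 2 * (32 * (lam * y * (Real.log y - Real.log x))) ≤
      4 * (lam * y * (Real.log y - Real.log x)) := by nlinarith
  have h7 := abs_sub_abs_le_abs_sub (cv lam T x y d)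
    (1 / Real.pi ^ 2 * ∫ u in x..y, Real.cos (2 * Real.pi * d * u) / u)
  linarith

end

end Pool.Agent.T6.H5.MX
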