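import Pool.Agent.T6.H5.MX.GI

/-! # Products of Gaussian bumps in terms of characteristic functions -/

set_option autoImplicit false

namespace Pool.Agent.T6.H5.MX

open MeasureTheory ProbabilityTheory Complex Set

noncomputable section

/-- the standard Gaussian measure on pairs -/
def Gp : Measure (ℝ × ℝ) := Gm.prod Gm

instance : IsProbabilityMeasure Gp := by unfold Gp; infer_instance

/-- the standard Gaussian measure on families of pairs -/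
def Gn (n : ℕ) : Measure (Fin n → ℝ × ℝ) := Measure.pi fun _ => Gp

instance (n : ℕ) : IsProbabilityMeasure (Gn n) := by unfold Gn; infer_instance

lemma four {n : ℕ} (y y' : Fin n → ℝ) :
    ((∏ k, (Real.exp (-(y k) ^ 2 / 2) * Real.exp (-(y' k) ^ 2 / 2)) : ℝ) : ℂ) =
      ∫ ζ : Fin n → ℝ × ℝ, cexp (I * (∑ k, (y k * (ζ k).1 + y' k * (ζ k).2) : ℝ)) ∂(Gn n) := by
  have h1 : ∀ ζ : Fin n → ℝ × ℝ, cexp (I * (∑ k, (y k * (ζ k).1 + y' k * (ζ k).2) : ℝ)) =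
      ∏ k, (cexp (I * (y k * (ζ k).1 : ℝ)) * cexp (I * (y' k * (ζ k).2 : ℝ))) := by
    intro ζ
    simp_rw [← Complex.exp_add]
    rw [← Complex.exp_sum]
    congr 1
    push_cast
    rw [Finset.mul_sum]
    exact Finset.sum_congr rfl fun k _ => by ring
  simp_rw [h1]
  unfold Gn
  rw [integral_fintype_prod_eq_prod (f := fun k (z : ℝ × ℝ) => cexp (I * (y k * z.1 : ℝ)) *
    cexp (I * (y' k * z.2 : ℝ)))]
  push_cast
  refine Finset.prod_congr rfl fun k _ => ?_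
  unfold Gp
  have h2 := integral_prod_mul (μ := Gm) (ν := Gm) (fun x : ℝ => cexp (I * (y k * x : ℝ)))
    (fun x : ℝ => cexp (I * (y' k * x : ℝ)))
  rw [← ex1, ← ex1] at h2
  push_cast at h2 ⊢
  rw [h2]

lemma swp {n : ℕ} (Y Y' : Fin n → ℝ → ℝ) (hY : ∀ k, Continuous (Y k)) (hY' : ∀ k, Continuous (Y' k))
    (v v' A B : ℝ) :
    ((∫ t in A..B, ∏ k, (Real.exp (-(Y k t - v) ^ 2 / 2) * Real.exp (-(Y' k t - v') ^ 2 / 2)) : ℝ) : ℂ) =
      ∫ ζ : Fin n → ℝ × ℝ, cexp (-(I * (∑ k, (v * (ζ k).1 + v' * (ζ k).2) : ℝ))) *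
        (∫ t in A..B, cexp (I * (∑ k, (Y k t * (ζ k).1 + Y' k t * (ζ k).2) : ℝ))) ∂(Gn n) := by
  rw [← intervalIntegral.integral_ofReal]
  have h1 : ∀ t : ℝ, ((∏ k, (Real.exp (-(Y k t - v) ^ 2 / 2) *
      Real.exp (-(Y' k t - v') ^ 2 / 2)) : ℝ) : ℂ) =
      ∫ ζ : Fin n → ℝ × ℝ, cexp (-(I * (∑ k, (v * (ζ k).1 + v' * (ζ k).2) : ℝ))) *
        cexp (I * (∑ k, (Y k t * (ζ k).1 + Y' k t * (ζ k).2) : ℝ)) ∂(Gn n) := by
    intro t
    rw [four (fun k => Y k t - v) (fun k => Y' k t - v')]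
    refine integral_congr_ae (Filter.Eventually.of_forall fun ζ => ?_)
    show cexp _ = cexp _ * cexp _
    rw [← Complex.exp_add]
    congr 1
    have e : (∑ k, ((Y k t - v) * (ζ k).1 + (Y' k t - v') * (ζ k).2) : ℝ) =
        (∑ k, (Y k t * (ζ k).1 + Y' k t * (ζ k).2) : ℝ) - ∑ k, (v * (ζ k).1 + v' * (ζ k).2) := by
      rw [← Finset.sum_sub_distrib]
      exact Finset.sum_congr rfl fun k _ => by ring
    rw [e]
    push_cast
    ring
  simp_rw [h1]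
  rw [MeasureTheory.intervalIntegral_integral_swap]
  · refine integral_congr_ae (Filter.Eventually.of_forall fun ζ => ?_)
    exact intervalIntegral.integral_const_mul _ _
  · have : IsFiniteMeasure (volume.restrict (Set.uIoc A B)) := by
      unfold Set.uIoc
      infer_instance
    refine Integrable.of_bound (C := 1) (Continuous.aestronglyMeasurable ?_)
      (Filter.Eventually.of_forall fun z => ?_)
    · unfold Function.uncurry
      fun_prop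
    · unfold Function.uncurry
      have e1 : -(I * ((∑ k, (v * (z.2 k).1 + v' * (z.2 k).2) : ℝ) : ℂ)) =
          I * ((-(∑ k, (v * (z.2 k).1 + v' * (z.2 k).2)) : ℝ) : ℂ) := by
        push_cast; ring
      rw [norm_mul, e1, norm_cI, norm_cI, one_mul]

lemma Gm_tail {R : ℝ} (hR : 0 ≤ R) : Gm.real {x | R < |x|} ≤ 2 * Real.exp (-R ^ 2 / 2) := by
  have h1 := measure_ge_le_exp_mul_mgf (μ := Gm) (X := fun x : ℝ => x) R hR
    (by unfold Gm; exact integrable_exp_mul_gaussianReal R)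
  have h2 := measure_le_le_exp_mul_mgf (μ := Gm) (X := fun x : ℝ => x) (t := -R) (-R) (by linarith)
    (by unfold Gm; exact integrable_exp_mul_gaussianReal (-R))
  have h3 : mgf (fun x : ℝ => x) Gm R = Real.exp (R ^ 2 / 2) := by
    unfold Gm
    rw [mgf_fun_id_gaussianReal]
    simp
  have h4 : mgf (fun x : ℝ => x) Gm (-R) = Real.exp (R ^ 2 / 2) := by
    unfold Gm
    rw [mgf_fun_id_gaussianReal]
    simp
  rw [h3, ← Real.exp_add] at h1
  rw [h4, ← Real.exp_add] at h2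
  have e1 : -R * R + R ^ 2 / 2 = -R ^ 2 / 2 := by ring
  have e2 : -(-R) * -R + R ^ 2 / 2 = -R ^ 2 / 2 := by ring
  rw [e1] at h1
  rw [e2] at h2
  have h5 : {x : ℝ | R < |x|} ⊆ {x : ℝ | R ≤ x} ∪ {x : ℝ | x ≤ -R} := by
    intro x hx
    have hx' : R < |x| := hx
    rcases lt_abs.1 hx' with h | h
    · exact Or.inl h.le
    · exact Or.inr (by show x ≤ -R; linarith)
  calc Gm.real {x | R < |x|} ≤ Gm.real ({x : ℝ | R ≤ x} ∪ {x : ℝ | x ≤ -R}) := measureReal_mono h5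
    _ ≤ Gm.real {x : ℝ | R ≤ x} + Gm.real {x : ℝ | x ≤ -R} := measureReal_union_le _ _
    _ ≤ _ := by linarith

lemma Gn_tail (n : ℕ) {R : ℝ} (hR : 0 ≤ R) :
    (Gn n).real {ζ | ¬ ∀ k, |(ζ k).1| ≤ R ∧ |(ζ k).2| ≤ R} ≤ n * (4 * Real.exp (-R ^ 2 / 2)) := by
  have hsub : {ζ : Fin n → ℝ × ℝ | ¬ ∀ k, |(ζ k).1| ≤ R ∧ |(ζ k).2| ≤ R} ⊆
      ⋃ k : Fin n, ({ζ | R < |(ζ k).1|} ∪ {ζ | R < |(ζ k).2|}) := by
    intro ζ hζ
    rw [mem_ofPred_eq] at hζ
    push Not at hζ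
    obtain ⟨k, hk⟩ := hζ
    rw [mem_iUnion]
    refine ⟨k, ?_⟩
    by_cases h : |(ζ k).1| ≤ R
    · exact Or.inr (hk h)
    · exact Or.inl (not_le.1 h)
  have hm : MeasurableSet {x : ℝ | R < |x|} := measurableSet_lt measurable_const (by fun_prop)
  have h1 : ∀ k : Fin n, (Gn n).real {ζ : Fin n → ℝ × ℝ | R < |(ζ k).1|} = Gm.real {x | R < |x|} := by
    intro k
    have h2 := (measurePreserving_fst (μ := Gm) (ν := Gm)).comp
      (measurePreserving_eval (fun _ : Fin n => Gp) k)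
    exact h2.measureReal_preimage hm.nullMeasurableSet
  have h1' : ∀ k : Fin n, (Gn n).real {ζ : Fin n → ℝ × ℝ | R < |(ζ k).2|} = Gm.real {x | R < |x|} := by
    intro k
    have h2 := (measurePreserving_snd (μ := Gm) (ν := Gm)).comp
      (measurePreserving_eval (fun _ : Fin n => Gp) k)
    exact h2.measureReal_preimage hm.nullMeasurableSet
  calc _ ≤ (Gn n).real (⋃ k : Fin n, ({ζ | R < |(ζ k).1|} ∪ {ζ | R < |(ζ k).2|})) := measureReal_mono hsub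
    _ ≤ ∑ k : Fin n, (Gn n).real ({ζ | R < |(ζ k).1|} ∪ {ζ | R < |(ζ k).2|}) :=
        measureReal_iUnion_fintype_le _
    _ ≤ ∑ _k : Fin n, (4 * Real.exp (-R ^ 2 / 2)) := by
        refine Finset.sum_le_sum fun k _ => ?_
        refine (measureReal_union_le _ _).trans ?_
        rw [h1, h1']
        have := Gm_tail hR
        linarith
    _ = _ := by rw [Finset.sum_const, Finset.card_univ, Fintype.card_fin, nsmul_eq_mul]

lemma gen {n : ℕ} (Y Y' : Fin n → ℝ → ℝ) (hY : ∀ k, Continuous (Y k)) (hY' : ∀ k, Continuous (Y' k))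
    (v v' A B : ℝ) (hAB : A ≤ B) (Q : (Fin n → ℝ × ℝ) → ℝ) (hQc : Continuous Q) (hQ0 : ∀ ζ, 0 ≤ Q ζ)
    (R e1 : ℝ) (hR : 0 ≤ R) (he1 : 0 ≤ e1)
    (hcf : ∀ ζ : Fin n → ℝ × ℝ, (∀ k, |(ζ k).1| ≤ R ∧ |(ζ k).2| ≤ R) →
      ‖(∫ t in A..B, cexp (I * (∑ k, (Y k t * (ζ k).1 + Y' k t * (ζ k).2) : ℝ))) -
        (((B - A) * Real.exp (-Q ζ) : ℝ) : ℂ)‖ ≤ e1) :
    ‖((∫ t in A..B, ∏ k, (Real.exp (-(Y k t - v) ^ 2 / 2) * Real.exp (-(Y' k t - v') ^ 2 / 2)) : ℝ) : ℂ) -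
      ((B - A : ℝ) : ℂ) * ∫ ζ : Fin n → ℝ × ℝ, cexp (-(I * (∑ k, (v * (ζ k).1 + v' * (ζ k).2) : ℝ))) *
        ((Real.exp (-Q ζ) : ℝ) : ℂ) ∂(Gn n)‖ ≤ e1 + 2 * (B - A) * (n * (4 * Real.exp (-R ^ 2 / 2))) := by
  have hBA : 0 ≤ B - A := by linarith
  rw [swp Y Y' hY hY' v v' A B, ← integral_const_mul]
  obtain ⟨c, hc⟩ : ∃ c : (Fin n → ℝ × ℝ) → ℂ, c = fun ζ =>
    cexp (-(I * (∑ k, (v * (ζ k).1 + v' * (ζ k).2) : ℝ))) := ⟨_, rfl⟩
  obtain ⟨P, hP⟩ : ∃ P : (Fin n → ℝ × ℝ) → ℂ, P = fun ζ =>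
    ∫ t in A..B, cexp (I * (∑ k, (Y k t * (ζ k).1 + Y' k t * (ζ k).2) : ℝ)) := ⟨_, rfl⟩
  have hcn : ∀ ζ, ‖c ζ‖ = 1 := by
    intro ζ
    rw [hc]
    have e1 : -(I * ((∑ k, (v * (ζ k).1 + v' * (ζ k).2) : ℝ) : ℂ)) =
        I * ((-(∑ k, (v * (ζ k).1 + v' * (ζ k).2)) : ℝ) : ℂ) := by
      push_cast; ring
    show ‖cexp (-(I * ((∑ k, (v * (ζ k).1 + v' * (ζ k).2) : ℝ) : ℂ)))‖ = 1
    rw [e1, norm_cI]
  have hcc : Continuous c := by rw [hc]; fun_prop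
  have hPc : Continuous P := by
    rw [hP]
    apply intervalIntegral.continuous_parametric_intervalIntegral_of_continuous' 
    unfold Function.uncurry
    fun_prop
  have hPn : ∀ ζ, ‖P ζ‖ ≤ B - A := by
    intro ζ
    rw [hP]
    refine (intervalIntegral.norm_integral_le_of_norm_le_const (C := 1) fun t _ => ?_).trans ?_
    · rw [norm_cI]
    · rw [one_mul, abs_of_nonneg hBA]
  have hEn : ∀ ζ, ‖((Real.exp (-Q ζ) : ℝ) : ℂ)‖ ≤ 1 := by
    intro ζ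
    rw [Complex.norm_real, Real.norm_of_nonneg (Real.exp_pos _).le, Real.exp_le_one_iff]
    linarith [hQ0 ζ]
  have i1 : Integrable (fun ζ => c ζ * P ζ) (Gn n) := by
    refine Integrable.of_bound (C := B - A) (hcc.mul hPc).aestronglyMeasurable
      (Filter.Eventually.of_forall fun ζ => ?_)
    rw [norm_mul, hcn, one_mul]
    exact hPn ζ
  have i2 : Integrable (fun ζ => ((B - A : ℝ) : ℂ) * (c ζ * ((Real.exp (-Q ζ) : ℝ) : ℂ))) (Gn n) := by
    refine Integrable.of_bound (C := B - A) (Continuous.aestronglyMeasurable (by fun_prop))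
      (Filter.Eventually.of_forall fun ζ => ?_)
    rw [norm_mul, norm_mul, hcn, one_mul, Complex.norm_real, Real.norm_of_nonneg hBA]
    have := mul_le_mul_of_nonneg_left (hEn ζ) hBA
    linarith
  have e0 : (∫ ζ : Fin n → ℝ × ℝ, cexp (-(I * (∑ k, (v * (ζ k).1 + v' * (ζ k).2) : ℝ))) *
        (∫ t in A..B, cexp (I * (∑ k, (Y k t * (ζ k).1 + Y' k t * (ζ k).2) : ℝ))) ∂(Gn n)) -
      ∫ ζ : Fin n → ℝ × ℝ, ((B - A : ℝ) : ℂ) *
        (cexp (-(I * (∑ k, (v * (ζ k).1 + v' * (ζ k).2) : ℝ))) * ((Real.exp (-Q ζ) : ℝ) : ℂ)) ∂(Gn n) =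
      ∫ ζ, c ζ * (P ζ - (((B - A) * Real.exp (-Q ζ) : ℝ) : ℂ)) ∂(Gn n) := by
    have h1 := integral_sub i1 i2
    have h2 : ∀ ζ, c ζ * (P ζ - (((B - A) * Real.exp (-Q ζ) : ℝ) : ℂ)) =
        c ζ * P ζ - ((B - A : ℝ) : ℂ) * (c ζ * ((Real.exp (-Q ζ) : ℝ) : ℂ)) := by
      intro ζ
      rw [Complex.ofReal_mul]
      ring
    simp_rw [h2]
    rw [h1, hc, hP]
  rw [e0]
  obtain ⟨Bd, hBd⟩ : ∃ Bd : Set (Fin n → ℝ × ℝ), Bd = {ζ | ¬ ∀ k, |(ζ k).1| ≤ R ∧ |(ζ k).2| ≤ R} := ⟨_, rfl⟩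
  have hBm : MeasurableSet Bd := by
    rw [hBd]
    have h3 : {ζ : Fin n → ℝ × ℝ | ¬ ∀ k, |(ζ k).1| ≤ R ∧ |(ζ k).2| ≤ R} =
        (⋂ k, ({ζ : Fin n → ℝ × ℝ | |(ζ k).1| ≤ R} ∩ {ζ | |(ζ k).2| ≤ R}))ᶜ := by
      ext ζ
      simp only [mem_ofPred_eq, mem_compl_iff, mem_iInter, mem_inter_iff]
    rw [h3]
    refine (MeasurableSet.iInter fun k => MeasurableSet.inter ?_ ?_).compl
    · exact measurableSet_le (by fun_prop) measurable_const
    · exact measurableSet_le (by fun_prop) measurable_const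
  have h4 : ∀ ζ, ‖c ζ * (P ζ - (((B - A) * Real.exp (-Q ζ) : ℝ) : ℂ))‖ ≤
      e1 + Bd.indicator (fun _ => 2 * (B - A)) ζ := by
    intro ζ
    rw [norm_mul, hcn, one_mul]
    by_cases h : ζ ∈ Bd
    · rw [indicator_of_mem h]
      refine (norm_sub_le _ _).trans ?_
      have h5 := hPn ζ
      have h6 : ‖(((B - A) * Real.exp (-Q ζ) : ℝ) : ℂ)‖ ≤ B - A := by
        rw [Complex.ofReal_mul, norm_mul, Complex.norm_real, Real.norm_of_nonneg hBA]
        have := mul_le_mul_of_nonneg_left (hEn ζ) hBA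
        linarith
      linarith
    · rw [indicator_of_notMem h, add_zero]
      have h7 : ∀ k, |(ζ k).1| ≤ R ∧ |(ζ k).2| ≤ R := by
        rw [hBd, mem_ofPred_eq, not_not] at h
        exact h
      have := hcf ζ h7
      rw [hP]
      exact this
  refine (norm_integral_le_of_norm_le ?_ (Filter.Eventually.of_forall h4)).trans ?_
  · exact (integrable_const _).add ((integrable_const _).indicator hBm)
  · rw [integral_add (integrable_const _) ((integrable_const _).indicator hBm), integral_const,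
      integral_indicator hBm, setIntegral_const]
    have h8 := Gn_tail n hR
    rw [← hBd] at h8
    simp only [probReal_univ, smul_eq_mul, one_mul]
    have := mul_le_mul_of_nonneg_left h8 (by linarith : 0 ≤ 2 * (B - A))
    linarith

/-- the integral of a product -/
lemma prd {n : ℕ} (v v' : ℝ) (q : Fin n → ℝ × ℝ → ℝ) :
    ∫ ζ : Fin n → ℝ × ℝ, cexp (-(I * (∑ k, (v * (ζ k).1 + v' * (ζ k).2) : ℝ))) *
        ((Real.exp (-(∑ k, q k (ζ k))) : ℝ) : ℂ) ∂(Gn n) =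
      ∏ k, ∫ z : ℝ × ℝ, cexp (-(I * (v * z.1 + v' * z.2 : ℝ))) * ((Real.exp (-q k z) : ℝ) : ℂ) ∂Gp := by
  unfold Gn
  rw [← integral_fintype_prod_eq_prod (f := fun k (z : ℝ × ℝ) => cexp (-(I * (v * z.1 + v' * z.2 : ℝ))) *
    ((Real.exp (-q k z) : ℝ) : ℂ))]
  refine integral_congr_ae (Filter.Eventually.of_forall fun ζ => ?_)
  show cexp _ * _ = ∏ k, (cexp (-(I * (v * (ζ k).1 + v' * (ζ k).2 : ℝ))) *
    ((Real.exp (-q k (ζ k)) : ℝ) : ℂ))
  rw [Finset.prod_mul_distrib, ← Complex.exp_sum, ← Complex.ofReal_prod, ← Real.exp_sum]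
  congr 2
  · push_cast
    rw [Finset.mul_sum, ← Finset.sum_neg_distrib]
  · rw [Finset.sum_neg_distrib]

end

end Pool.Agent.T6.H5.MX
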