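import Mathlib

/-! # Gaussian integrals -/

set_option autoImplicit false

namespace Pool.Agent.T6.H5.MX

open MeasureTheory ProbabilityTheory Complex Set

noncomputable section

/-- the standard Gaussian measure -/
def Gm : Measure ℝ := gaussianReal 0 1

instance : IsProbabilityMeasure Gm := by unfold Gm; infer_instance

lemma gi1 {s : ℝ} (hs : 0 ≤ s) (a : ℂ) :
    ∫ x : ℝ, cexp (a * x - s * x ^ 2 / 2) ∂Gm =
      (((Real.sqrt (1 + s))⁻¹ : ℝ) : ℂ) * cexp (a ^ 2 / (2 * (1 + s))) := by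
  unfold Gm
  have hpi := Real.pi_pos
  rw [integral_gaussianReal_eq_integral_smul one_ne_zero]
  have h1 : ∀ x : ℝ, gaussianPDFReal 0 1 x • cexp (a * x - s * x ^ 2 / 2) =
      ((Real.sqrt (2 * Real.pi))⁻¹ : ℝ) * cexp ((-((1 + s) / 2) : ℂ) * x ^ 2 + a * x + 0) := by
    intro x
    unfold gaussianPDFReal
    rw [Complex.real_smul]
    push_cast
    rw [mul_assoc, ← Complex.exp_add]
    simp only [mul_one, sub_zero]
    congr 2
    ring
  simp_rw [h1]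
  rw [integral_const_mul, integral_cexp_quadratic (by
    have : ((-((1 + s) / 2) : ℂ)).re = -((1 + s) / 2) := by
      simp
    rw [this]
    linarith)]
  have h2 : (Real.pi / -(-((1 + s) / 2) : ℂ)) ^ (1 / 2 : ℂ) =
      ((Real.sqrt (2 * Real.pi) * (Real.sqrt (1 + s))⁻¹ : ℝ) : ℂ) := by
    have e1 : (Real.pi / -(-((1 + s) / 2) : ℂ)) = ((2 * Real.pi / (1 + s) : ℝ) : ℂ) := by
      push_cast
      rw [neg_neg]
      field_simp
    rw [e1, show (1 / 2 : ℂ) = ((1 / 2 : ℝ) : ℂ) by push_cast; rfl,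
      ← Complex.ofReal_cpow (by positivity), ← Real.sqrt_eq_rpow, Real.sqrt_div (by positivity)]
    rw [div_eq_mul_inv]
  rw [h2]
  have h3 : (0 : ℂ) - a ^ 2 / (4 * -((1 + s) / 2)) = a ^ 2 / (2 * (1 + s)) := by
    have h4 : (1 + (s : ℂ)) ≠ 0 := by
      have : (1 + (s : ℂ)) = ((1 + s : ℝ) : ℂ) := by push_cast; rfl
      rw [this]
      exact_mod_cast (by linarith : (1 + s : ℝ) ≠ 0)
    field_simp
    ring
  rw [h3, ← mul_assoc, ← Complex.ofReal_mul, ← mul_assoc,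
    inv_mul_cancel₀ (Real.sqrt_ne_zero'.2 (by positivity)), one_mul]

/-- the Gaussian is a characteristic function -/
lemma ex1 (x : ℝ) : ((Real.exp (-x ^ 2 / 2) : ℝ) : ℂ) = ∫ u : ℝ, cexp (I * (x * u : ℝ)) ∂Gm := by
  have h := gi1 le_rfl (I * x)
  simp only [Complex.ofReal_zero, zero_mul, zero_div, sub_zero, add_zero, Real.sqrt_one, inv_one,
    Complex.ofReal_one, one_mul, mul_one] at h
  have e1 : ∀ u : ℝ, I * ((x * u : ℝ) : ℂ) = I * x * u := fun u => by push_cast; ring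
  simp_rw [e1]
  rw [h, mul_pow, Complex.I_sq]
  push_cast
  congr 1
  ring

lemma norm_cI (x : ℝ) : ‖cexp (I * (x : ℂ))‖ = 1 := Complex.norm_exp_I_mul_ofReal x

/-- the first Gaussian integral -/
def g1 (s v : ℝ) : ℝ := (Real.sqrt (1 + s))⁻¹ * Real.exp (-(v ^ 2 / (2 * (1 + s))))

/-- the second Gaussian integral -/
def g2 (s ρ v : ℝ) : ℝ := (Real.sqrt ((1 + s) ^ 2 - ρ ^ 2))⁻¹ * Real.exp (-(v ^ 2 / (1 + s + ρ)))

lemma g1_pos {s : ℝ} (hs : 0 ≤ s) (v : ℝ) : 0 < g1 s v := by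
  unfold g1
  have : 0 < Real.sqrt (1 + s) := Real.sqrt_pos.2 (by linarith)
  positivity

lemma gi1v {s : ℝ} (hs : 0 ≤ s) (v : ℝ) :
    ∫ x : ℝ, cexp (-(I * (v * x : ℝ))) * ((Real.exp (-(s * x ^ 2 / 2)) : ℝ) : ℂ) ∂Gm = (g1 s v : ℂ) := by
  have h := gi1 hs (-(I * v))
  have e1 : ∀ x : ℝ, cexp (-(I * (v * x : ℝ))) * ((Real.exp (-(s * x ^ 2 / 2)) : ℝ) : ℂ) =
      cexp (-(I * v) * x - s * x ^ 2 / 2) := fun x => by
    push_cast
    rw [← Complex.exp_add]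
    congr 1
    ring
  simp_rw [e1]
  rw [h]
  unfold g1
  push_cast
  congr 2
  rw [neg_sq, mul_pow, Complex.I_sq]
  ring

lemma gi2 {s ρ : ℝ} (hs : 0 ≤ s) (hρ : |ρ| ≤ s) (v : ℝ) :
    ∫ z : ℝ × ℝ, cexp (-(I * (v * z.1 + v * z.2 : ℝ))) *
      ((Real.exp (-((s * z.1 ^ 2 + s * z.2 ^ 2 + 2 * ρ * (z.1 * z.2)) / 2)) : ℝ) : ℂ) ∂(Gm.prod Gm) =
      (g2 s ρ v : ℂ) := by
  have hs1 : 0 < 1 + s := by linarith
  have hρ1 := abs_le.1 hρ
  have hρ2 : ρ ^ 2 ≤ s ^ 2 := sq_le_sq' (by linarith) hρ1.2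
  have hpsd : ∀ x y : ℝ, 0 ≤ s * x ^ 2 + s * y ^ 2 + 2 * ρ * (x * y) := by
    intro x y
    have h1 : 0 ≤ s * (|x| - |y|) ^ 2 := by positivity
    have h2 : -(2 * ρ * (x * y)) ≤ 2 * s * (|x| * |y|) := by
      have h3 : |ρ * (x * y)| ≤ s * (|x| * |y|) := by
        rw [abs_mul, abs_mul]
        gcongr
      have := (abs_le.1 h3).1
      linarith
    have e : s * (|x| - |y|) ^ 2 = s * x ^ 2 + s * y ^ 2 - 2 * s * (|x| * |y|) := by
      have a1 := sq_abs x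
      have a2 := sq_abs y
      nlinarith
    linarith
  have hint : Integrable (fun z : ℝ × ℝ => cexp (-(I * (v * z.1 + v * z.2 : ℝ))) *
      ((Real.exp (-((s * z.1 ^ 2 + s * z.2 ^ 2 + 2 * ρ * (z.1 * z.2)) / 2)) : ℝ) : ℂ)) (Gm.prod Gm) := by
    refine Integrable.of_bound (C := 1) (Continuous.aestronglyMeasurable (by fun_prop))
      (Filter.Eventually.of_forall fun z => ?_)
    rw [norm_mul, Complex.norm_real, Real.norm_of_nonneg (Real.exp_pos _).le]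
    have e1 : -(I * ((v * z.1 + v * z.2 : ℝ) : ℂ)) = I * ((-(v * z.1 + v * z.2) : ℝ) : ℂ) := by
      push_cast; ring
    rw [e1, norm_cI, one_mul, Real.exp_le_one_iff]
    have := hpsd z.1 z.2
    linarith
  rw [integral_prod _ hint]
  have hc : (1 + (s : ℂ)) ≠ 0 := by
    have : (1 + (s : ℂ)) = ((1 + s : ℝ) : ℂ) := by push_cast; rfl
    rw [this]
    exact_mod_cast hs1.ne'
  have h1 : ∀ x : ℝ, ∫ y : ℝ, cexp (-(I * (v * x + v * y : ℝ))) *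
      ((Real.exp (-((s * x ^ 2 + s * y ^ 2 + 2 * ρ * (x * y)) / 2)) : ℝ) : ℂ) ∂Gm =
      (((Real.sqrt (1 + s))⁻¹ : ℝ) : ℂ) * (cexp (-(v : ℂ) ^ 2 / (2 * (1 + s))) *
        cexp (-(I * (v * (1 - ρ / (1 + s)))) * x - ((s - ρ ^ 2 / (1 + s) : ℝ) : ℂ) * x ^ 2 / 2)) := by
    intro x
    have e1 : ∀ y : ℝ, cexp (-(I * (v * x + v * y : ℝ))) *
        ((Real.exp (-((s * x ^ 2 + s * y ^ 2 + 2 * ρ * (x * y)) / 2)) : ℝ) : ℂ) =
        cexp (-(I * v * x) - s * x ^ 2 / 2) * cexp ((-(I * v) - ρ * x) * y - s * y ^ 2 / 2) := fun y => by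
      push_cast
      rw [← Complex.exp_add, ← Complex.exp_add]
      congr 1
      ring
    simp_rw [e1]
    rw [integral_const_mul, gi1 hs, mul_left_comm, ← Complex.exp_add, ← Complex.exp_add]
    congr 2
    push_cast
    field_simp
    ring_nf
    rw [Complex.I_sq]
    ring
  simp_rw [h1]
  have hs2 : 0 ≤ s - ρ ^ 2 / (1 + s) := by
    have : ρ ^ 2 / (1 + s) ≤ s := by
      rw [div_le_iff₀ hs1]
      nlinarith
    linarith
  rw [integral_const_mul, integral_const_mul, gi1 hs2]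
  unfold g2
  have hd : 0 < (1 + s) ^ 2 - ρ ^ 2 := by nlinarith
  have e3 : 1 + (s - ρ ^ 2 / (1 + s)) = ((1 + s) ^ 2 - ρ ^ 2) / (1 + s) := by
    field_simp
    ring
  have hρs : 0 < 1 + s + ρ := by linarith
  have e2 : (Real.sqrt (1 + s))⁻¹ * (Real.sqrt (1 + (s - ρ ^ 2 / (1 + s))))⁻¹ =
      (Real.sqrt ((1 + s) ^ 2 - ρ ^ 2))⁻¹ := by
    rw [← mul_inv, ← Real.sqrt_mul (by linarith), e3]
    congr 2
    field_simp
  rw [mul_left_comm (cexp _), ← mul_assoc, ← Complex.ofReal_mul, e2, ← Complex.exp_add]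
  push_cast
  congr 1
  congr 1
  have hd' : ((1 + (s : ℂ)) ^ 2 - ρ ^ 2) ≠ 0 := by
    have : ((1 + (s : ℂ)) ^ 2 - ρ ^ 2) = (((1 + s) ^ 2 - ρ ^ 2 : ℝ) : ℂ) := by push_cast; rfl
    rw [this]
    exact_mod_cast hd.ne'
  have hρs' : (1 + (s : ℂ) + ρ) ≠ 0 := by
    have : (1 + (s : ℂ) + ρ) = ((1 + s + ρ : ℝ) : ℂ) := by push_cast; rfl
    rw [this]
    exact_mod_cast hρs.ne'
  have e4 : (1 : ℂ) + (s - ρ ^ 2 / (1 + s)) = ((1 + s) ^ 2 - ρ ^ 2) / (1 + s) := by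
    field_simp
    ring
  rw [e4]
  rw [neg_sq, mul_pow, Complex.I_sq]
  have e5 : (1 + (s : ℂ)) ^ 2 - ρ ^ 2 = (1 + s + ρ) * (1 + s - ρ) := by ring
  have hρs2 : (1 + (s : ℂ) - ρ) ≠ 0 := by
    intro h0
    rw [e5, h0, mul_zero] at hd'
    exact hd' rfl
  rw [e5]
  field_simp
  ring

end

end Pool.Agent.T6.H5.MX
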