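import Pool.Agent.T6.H5.MX.CO
import Pool.Agent.T6.H5.MX.GF

/-! # The characteristic function of the level polynomials at two shifts -/

set_option autoImplicit false

namespace Pool.Agent.T6.H5.MX

open Complex Filter Topology MeasureTheory Set
open Pool.Agent.Y743.CL (VS VS_nonneg Pr mem_Pr XK)
open Pool.Agent.R320.JL

noncomputable section

/-- the summand of level `k` -/
def zk (σ e l : ℝ) (h h' : ℝ) (z : ℝ × ℝ) (p : ℕ) : ℂ :=
  (be l p : ℂ) * (-(I * σ)) * ((z.1 : ℂ) * cexp (-(I * (h * Real.log p : ℝ))) +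
    (e * z.2 : ℝ) * cexp (-(I * (h' * Real.log p : ℝ))))

/-- the coefficients of a combination of the level polynomials at two shifts -/
def zz (σ e l T : ℝ) (ys : ℕ → ℝ) {n : ℕ} (h h' : ℝ) (ζ : Fin n → ℝ × ℝ) (p : ℕ) : ℂ :=
  ∑ k : Fin n, if p ∈ Pm T (ys k) (ys (k + 1)) then zk σ e l h h' (ζ k) p else 0

lemma Pm_sub {T x y w : ℝ} (hT : 1 ≤ T) (hyw : y ≤ w) : Pm T x y ⊆ Pr (XK w T) := by
  intro p hp
  have h2 : ⌊T ^ y⌋₊ ≤ ⌊T ^ w⌋₊ := Nat.floor_le_floor (Real.rpow_le_rpow_of_exponent_le hT hyw)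
  rw [Pm_Pr, Finset.mem_filter, mem_Pr] at hp
  rw [mem_Pr]
  unfold XK at hp ⊢
  exact ⟨hp.1.1, hp.1.2.trans h2⟩

lemma Pm_disj {T : ℝ} (hT : 1 ≤ T) {ys : ℕ → ℝ} (hys : Monotone ys) {i j : ℕ} (hij : i < j) {p : ℕ}
    (hi : p ∈ Pm T (ys i) (ys (i + 1))) : p ∉ Pm T (ys j) (ys (j + 1)) := by
  intro hj
  unfold Pm at hi hj
  rw [Finset.mem_filter, Finset.mem_Ioc] at hi hj
  have h1 : ⌊T ^ ys (i + 1)⌋₊ ≤ ⌊T ^ ys j⌋₊ :=
    Nat.floor_le_floor (Real.rpow_le_rpow_of_exponent_le hT (hys (by omega)))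
  omega

lemma Pm_uniq {T : ℝ} (hT : 1 ≤ T) {ys : ℕ → ℝ} (hys : Monotone ys) {n : ℕ} {i j : Fin n} {p : ℕ}
    (hi : p ∈ Pm T (ys i) (ys (i + 1))) (hj : p ∈ Pm T (ys j) (ys (j + 1))) : i = j := by
  rcases lt_trichotomy (i : ℕ) j with h | h | h
  · exact absurd hj (Pm_disj hT hys h hi)
  · exact Fin.ext h
  · exact absurd hi (Pm_disj hT hys h hj)

lemma sum_swap {T : ℝ} (hT : 1 ≤ T) {ys : ℕ → ℝ} (hys : Monotone ys) {n : ℕ} {M : Type*} [AddCommMonoid M]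
    (f : Fin n → ℕ → M) :
    ∑ p ∈ Pr (XK (ys n) T), ∑ k : Fin n, (if p ∈ Pm T (ys k) (ys (k + 1)) then f k p else 0) =
      ∑ k : Fin n, ∑ p ∈ Pm T (ys k) (ys (k + 1)), f k p := by
  rw [Finset.sum_comm]
  refine Finset.sum_congr rfl fun k _ => ?_
  rw [← Finset.sum_filter]
  refine Finset.sum_congr ?_ fun _ _ => rfl
  ext p
  rw [Finset.mem_filter]
  constructor
  · exact fun h => h.2
  · exact fun h => ⟨Pm_sub hT (hys (by have := k.2; omega)) h, h⟩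

/-- the linear form of the levels -/
lemma zz_re {σ e l T : ℝ} (hT : 1 ≤ T) {ys : ℕ → ℝ} (hys : Monotone ys) {n : ℕ} (h h' : ℝ)
    (ζ : Fin n → ℝ × ℝ) (t : ℝ) :
    (PP (zz σ e l T ys h h' ζ) (XK (ys n) T) t).re =
      ∑ k : Fin n, (σ * (BB l T (ys k) (ys (k + 1)) (t + h)).im * (ζ k).1 +
        e * (σ * (BB l T (ys k) (ys (k + 1)) (t + h')).im) * (ζ k).2) := by
  have h1 : PP (zz σ e l T ys h h' ζ) (XK (ys n) T) t =
      ∑ k : Fin n, ∑ p ∈ Pm T (ys k) (ys (k + 1)), zk σ e l h h' (ζ k) p * (p : ℂ) ^ (-(t : ℂ) * I) := by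
    rw [← sum_swap hT hys (fun k p => zk σ e l h h' (ζ k) p * (p : ℂ) ^ (-(t : ℂ) * I))]
    unfold PP zz
    refine Finset.sum_congr rfl fun p _ => ?_
    rw [Finset.sum_mul]
    refine Finset.sum_congr rfl fun k _ => ?_
    split_ifs <;> simp
  have h2 : ∀ k : Fin n, ∑ p ∈ Pm T (ys k) (ys (k + 1)), zk σ e l h h' (ζ k) p *
      (p : ℂ) ^ (-(t : ℂ) * I) = -(I * σ) * (((ζ k).1 : ℂ) * BB l T (ys k) (ys (k + 1)) (t + h) +
        (e * (ζ k).2 : ℝ) * BB l T (ys k) (ys (k + 1)) (t + h')) := by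
    intro k
    unfold BB
    rw [Finset.mul_sum, Finset.mul_sum, ← Finset.sum_add_distrib, Finset.mul_sum]
    refine Finset.sum_congr rfl fun p hp => ?_
    have hp0 : p ≠ 0 := by
      unfold Pm at hp
      rw [Finset.mem_filter] at hp
      exact hp.2.ne_zero
    rw [cpow_ex hp0, cpow_ex hp0, cpow_ex hp0]
    unfold zk
    have e1 : ∀ g : ℝ, Complex.exp (-(I * ((t + g) * Real.log p : ℝ))) =
        Complex.exp (-(I * (g * Real.log p : ℝ))) * Complex.exp (-(I * (t * Real.log p : ℝ))) := by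
      intro g
      rw [← Complex.exp_add]; congr 1; push_cast; ring
    rw [e1, e1]
    ring
  rw [h1, Complex.re_sum]
  refine Finset.sum_congr rfl fun k _ => ?_
  rw [h2]
  simp only [Complex.mul_re, Complex.neg_re, Complex.neg_im, Complex.mul_im, Complex.I_re, Complex.I_im,
    Complex.ofReal_re, Complex.ofReal_im, Complex.add_re, Complex.add_im]
  ring

lemma zk_norm {σ : ℝ} (hσ : σ ^ 2 = 1) (e l : ℝ) (h h' : ℝ) (z : ℝ × ℝ) (p : ℕ) :
    ‖zk σ e l h h' z p‖ ^ 2 = be l p ^ 2 * (z.1 ^ 2 + e ^ 2 * z.2 ^ 2 +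
      2 * e * (z.1 * z.2) * Real.cos ((h' - h) * Real.log p)) := by
  unfold zk
  have e1 : ∀ x : ℝ, cexp (-(I * (x : ℂ))) = ((Real.cos x : ℝ) : ℂ) - ((Real.sin x : ℝ) : ℂ) * I := by
    intro x
    have : -(I * (x : ℂ)) = ((-x : ℝ) : ℂ) * I := by push_cast; ring
    rw [this, Complex.exp_mul_I, ← Complex.ofReal_cos, ← Complex.ofReal_sin, Real.cos_neg, Real.sin_neg]
    push_cast
    ring
  have h1 : ‖-(I * (σ : ℂ))‖ ^ 2 = 1 := by
    rw [norm_neg, norm_mul, Complex.norm_I, one_mul, Complex.norm_real, Real.norm_eq_abs, sq_abs, hσ]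
  rw [norm_mul, norm_mul, mul_pow, mul_pow, h1, mul_one, Complex.norm_real, Real.norm_eq_abs, sq_abs]
  congr 1
  rw [e1, e1, ← Complex.normSq_eq_norm_sq, Complex.normSq_apply, sub_mul, Real.cos_sub]
  obtain ⟨a, ha⟩ : ∃ a : ℝ, a = h * Real.log p := ⟨_, rfl⟩
  obtain ⟨b, hb⟩ : ∃ b : ℝ, b = h' * Real.log p := ⟨_, rfl⟩
  rw [← ha, ← hb]
  simp only [Complex.mul_re, Complex.mul_im, Complex.I_re, Complex.I_im,
    Complex.ofReal_re, Complex.ofReal_im, Complex.add_re, Complex.add_im, Complex.sub_re, Complex.sub_im]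
  have h2 := Real.sin_sq_add_cos_sq a
  have h3 := Real.sin_sq_add_cos_sq b
  linear_combination z.1 ^ 2 * h2 + e ^ 2 * z.2 ^ 2 * h3

/-- the variance of the linear form -/
lemma zz_VS {σ e T : ℝ} (hσ : σ ^ 2 = 1) (hT : 1 ≤ T) (lam : ℝ) {ys : ℕ → ℝ} (hys : Monotone ys) {n : ℕ}
    (a b : ℝ) (ζ : Fin n → ℝ × ℝ) :
    VS (nz (zz σ e (Real.log T / lam) T ys (2 * Real.pi * a / Real.log T) (2 * Real.pi * b / Real.log T) ζ))
      (XK (ys n) T) =
      ∑ k : Fin n, (cv lam T (ys k) (ys (k + 1)) 0 * ((ζ k).1 ^ 2 + e ^ 2 * (ζ k).2 ^ 2) +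
        2 * e * ((ζ k).1 * (ζ k).2) * cv lam T (ys k) (ys (k + 1)) (b - a)) := by
  obtain ⟨l, hl⟩ : ∃ l : ℝ, l = Real.log T / lam := ⟨_, rfl⟩
  obtain ⟨h, hh⟩ : ∃ h : ℝ, h = 2 * Real.pi * a / Real.log T := ⟨_, rfl⟩
  obtain ⟨h', hh'⟩ : ∃ h' : ℝ, h' = 2 * Real.pi * b / Real.log T := ⟨_, rfl⟩
  rw [← hl, ← hh, ← hh']
  have h1 : ∀ p, nz (zz σ e l T ys h h' ζ) p ^ 2 = ∑ k : Fin n,
      (if p ∈ Pm T (ys k) (ys (k + 1)) then ‖zk σ e l h h' (ζ k) p‖ ^ 2 else 0) := by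
    intro p
    unfold nz zz
    by_cases hp : ∃ k : Fin n, p ∈ Pm T (ys k) (ys (k + 1))
    · obtain ⟨k, hk⟩ := hp
      rw [Finset.sum_eq_single k, Finset.sum_eq_single k, if_pos hk, if_pos hk]
      · intro j _ hj
        exact if_neg fun hpj => hj (Pm_uniq hT hys hpj hk)
      · intro hk'
        exact absurd (Finset.mem_univ k) hk'
      · intro j _ hj
        exact if_neg fun hpj => hj (Pm_uniq hT hys hpj hk)
      · intro hk'
        exact absurd (Finset.mem_univ k) hk'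
    · push Not at hp
      rw [Finset.sum_eq_zero fun k _ => if_neg (hp k), Finset.sum_eq_zero fun k _ => if_neg (hp k)]
      simp
  unfold VS
  rw [Finset.sum_congr rfl fun p _ => h1 p, sum_swap hT hys (fun k p => ‖zk σ e l h h' (ζ k) p‖ ^ 2)]
  refine Finset.sum_congr rfl fun k _ => ?_
  rw [cv_zero]
  unfold cv
  rw [← hl, Finset.sum_mul, Finset.mul_sum, ← Finset.sum_add_distrib]
  refine Finset.sum_congr rfl fun p _ => ?_
  rw [zk_norm hσ]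
  have e2 : (h' - h) * Real.log p = 2 * Real.pi * (b - a) * (Real.log p / Real.log T) := by
    rw [hh, hh']
    ring
  rw [e2]
  ring

/-- the bound of the coefficients -/
lemma zz_bd {σ e T : ℝ} (hσ : σ ^ 2 = 1) (he0 : 0 ≤ e) (he : e ≤ 1) (hT : 1 < T) {lam : ℝ} (hlam : 0 < lam)
    {ys : ℕ → ℝ} (hys : Monotone ys) {n : ℕ} (h h' : ℝ) (ζ : Fin n → ℝ × ℝ) {R : ℝ}
    (hR : ∀ k, |(ζ k).1| ≤ R ∧ |(ζ k).2| ≤ R) (p : ℕ) :
    ‖zz σ e (Real.log T / lam) T ys h h' ζ p‖ ^ 2 ≤ 4 * R ^ 2 * T ^ (-ys 0) := by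
  have hL0 : 0 < Real.log T := Real.log_pos hT
  have hT0 : 0 < T := by linarith
  obtain ⟨l, hl⟩ : ∃ l : ℝ, l = Real.log T / lam := ⟨_, rfl⟩
  rw [← hl]
  have hl0 : 0 < l := by rw [hl]; positivity
  by_cases hp : ∃ k : Fin n, p ∈ Pm T (ys k) (ys (k + 1))
  · obtain ⟨k, hk⟩ := hp
    have h1 : zz σ e l T ys h h' ζ p = zk σ e l h h' (ζ k) p := by
      unfold zz
      rw [Finset.sum_eq_single k, if_pos hk]
      · intro j _ hj
        exact if_neg fun hpj => hj (Pm_uniq hT.le hys hpj hk)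
      · intro hk'
        exact absurd (Finset.mem_univ k) hk'
    rw [h1, zk_norm hσ]
    obtain ⟨a1, a2, a3, a4, a5⟩ := mem_Pm hT hk
    have hp0 : (0 : ℝ) < p := by exact_mod_cast a1.pos
    have h2 := be_sq_le hl0 a1
    have h3 : be l p ^ 2 ≤ T ^ (-ys 0) := by
      refine h2.trans ?_
      have h4 : 1 / (p : ℝ) ≤ T ^ (-ys 0) := by
        have h5 : T ^ (ys 0) ≤ p :=
          (Real.rpow_le_rpow_of_exponent_le hT.le (hys (Nat.zero_le _))).trans a4.le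
        rw [Real.rpow_neg hT0.le, ← one_div]
        exact one_div_le_one_div_of_le (by positivity) h5
      have h6 : 1 / Real.pi ^ 2 ≤ 1 := by
        rw [div_le_one (by positivity)]
        nlinarith [Real.pi_gt_three]
      have h7 : 0 ≤ 1 / (p : ℝ) := by positivity
      nlinarith
    obtain ⟨b1, b2⟩ := hR k
    have hR0 : 0 ≤ R := (abs_nonneg _).trans b1
    have h8 : (ζ k).1 ^ 2 + e ^ 2 * (ζ k).2 ^ 2 +
        2 * e * ((ζ k).1 * (ζ k).2) * Real.cos ((h' - h) * Real.log p) ≤ 4 * R ^ 2 := by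
      have c1 : (ζ k).1 ^ 2 ≤ R ^ 2 := sq_le_sq' (by linarith [(abs_le.1 b1).1]) (abs_le.1 b1).2
      have c2 : (ζ k).2 ^ 2 ≤ R ^ 2 := sq_le_sq' (by linarith [(abs_le.1 b2).1]) (abs_le.1 b2).2
      have c3 : |2 * e * ((ζ k).1 * (ζ k).2) * Real.cos ((h' - h) * Real.log p)| ≤ 2 * 1 * (R * R) * 1 := by
        rw [abs_mul, abs_mul, abs_mul, abs_of_pos (by norm_num : (0 : ℝ) < 2), abs_of_nonneg he0]
        have c4 := Real.abs_cos_le_one ((h' - h) * Real.log p)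
        rw [abs_mul]
        gcongr
      have c5 := (abs_le.1 c3).2
      have c6 : e ^ 2 * (ζ k).2 ^ 2 ≤ 1 * R ^ 2 := by
        apply mul_le_mul _ c2 (sq_nonneg _) (by norm_num)
        nlinarith
      nlinarith
    have h9 : 0 ≤ (ζ k).1 ^ 2 + e ^ 2 * (ζ k).2 ^ 2 +
        2 * e * ((ζ k).1 * (ζ k).2) * Real.cos ((h' - h) * Real.log p) := by
      have c4 := Real.abs_cos_le_one ((h' - h) * Real.log p)
      obtain ⟨c, hc⟩ : ∃ c : ℝ, c = Real.cos ((h' - h) * Real.log p) := ⟨_, rfl⟩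
      rw [← hc] at c4 ⊢
      have c7 : c ^ 2 ≤ 1 := by
        rw [sq_le_one_iff_abs_le_one]; exact c4
      nlinarith [sq_nonneg ((ζ k).1 + e * c * (ζ k).2), mul_nonneg (sq_nonneg (e * (ζ k).2))
        (by linarith : 0 ≤ 1 - c ^ 2)]
    calc _ ≤ T ^ (-ys 0) * (4 * R ^ 2) := mul_le_mul h3 h8 h9 (by positivity)
      _ = _ := by ring
  · push Not at hp
    have h1 : zz σ e l T ys h h' ζ p = 0 := by
      unfold zz
      exact Finset.sum_eq_zero fun k _ => if_neg (hp k)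
    rw [h1, norm_zero, zero_pow two_ne_zero]
    positivity

/-- the exponent of the characteristic function -/
def qk (lam T : ℝ) (ys : ℕ → ℝ) (e d : ℝ) (k : ℕ) (z : ℝ × ℝ) : ℝ :=
  ((cv lam T (ys k) (ys (k + 1)) 0 / 2) * z.1 ^ 2 + e ^ 2 * ((cv lam T (ys k) (ys (k + 1)) 0 / 2) * z.2 ^ 2) +
    2 * (e * (cv lam T (ys k) (ys (k + 1)) d / 2)) * (z.1 * z.2)) / 2

/-- **the characteristic function of the levels at two shifts** -/
lemma cfz {ys : ℕ → ℝ} (hys : Monotone ys) (hy0 : 0 < ys 0) {n : ℕ} (M : ℕ) (hM : 4 * (M : ℝ) * ys n ≤ 1)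
    (K R : ℝ) (hK : 0 ≤ K) (hKM : K ≤ M / 2) (hR0 : 0 ≤ R) {δ : ℝ} (hδ : 0 < δ) :
    ∃ T0 : ℝ, 10 ≤ T0 ∧ ∀ T : ℝ, T0 ≤ T → ∀ lam : ℝ, 0 < lam → ∀ σ e : ℝ, σ ^ 2 = 1 → 0 ≤ e → e ≤ 1 →
    ∀ a b : ℝ, 4 * R ^ 2 * ∑ k : Fin n, cv lam T (ys k) (ys (k + 1)) 0 ≤ K →
    ∀ ζ : Fin n → ℝ × ℝ, (∀ k, |(ζ k).1| ≤ R ∧ |(ζ k).2| ≤ R) → ∀ A B : ℝ, A ≤ B → B - A ≤ T →
    ‖(∫ t in A..B, cexp (I * (∑ k : Fin n,
        (σ * (BB (Real.log T / lam) T (ys k) (ys (k + 1)) (t + 2 * Real.pi * a / Real.log T)).im * (ζ k).1 +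
        e * (σ * (BB (Real.log T / lam) T (ys k) (ys (k + 1)) (t + 2 * Real.pi * b / Real.log T)).im) *
          (ζ k).2) : ℝ))) -
      (((B - A) * Real.exp (-(∑ k : Fin n, qk lam T ys e (b - a) k (ζ k))) : ℝ) : ℂ)‖ ≤
      T * (3 * (K ^ M / M.factorial) + δ) := by
  have hev : ∀ᶠ T : ℝ in atTop, M * (M ^ 2 * (4 * R ^ 2 * T ^ (-ys 0)) * (1 + K) ^ M) +
      8 * ((Real.sqrt T * (1 + Real.log T)) / T) * ((2 * M + 1) * (1 + K) ^ (2 * M)) ≤ δ := by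
    have h1 : Tendsto (fun T : ℝ => T ^ (-ys 0)) atTop (𝓝 0) := tendsto_rpow_neg_atTop hy0
    have h2 : Tendsto (fun T : ℝ => (Real.sqrt T * (1 + Real.log T)) / T) atTop (𝓝 0) := by
      have h3 : (fun T : ℝ => Real.sqrt T * (1 + Real.log T)) =o[atTop] fun T : ℝ => T := by
        have h4 : (fun T : ℝ => Real.log T) =o[atTop] fun T : ℝ => T ^ (1 / 2 : ℝ) :=
          isLittleO_log_rpow_atTop (by norm_num)
        have h5 : (fun _ : ℝ => (1 : ℝ)) =o[atTop] fun T : ℝ => T ^ (1 / 2 : ℝ) := by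
          rw [Asymptotics.isLittleO_const_left]
          right
          exact tendsto_norm_atTop_atTop.comp (tendsto_rpow_atTop (by norm_num))
        have h6 := (Asymptotics.isBigO_refl (fun T : ℝ => Real.sqrt T) atTop).mul_isLittleO (h5.add h4)
        refine h6.trans_eventuallyEq ?_
        filter_upwards [eventually_gt_atTop 0] with T hT
        rw [← Real.sqrt_eq_rpow, Real.mul_self_sqrt hT.le]
      exact h3.tendsto_div_nhds_zero
    have h3 : Tendsto (fun T : ℝ => M * (M ^ 2 * (4 * R ^ 2 * T ^ (-ys 0)) * (1 + K) ^ M) +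
      8 * ((Real.sqrt T * (1 + Real.log T)) / T) * ((2 * M + 1) * (1 + K) ^ (2 * M))) atTop
      (𝓝 (M * (M ^ 2 * (4 * R ^ 2 * 0) * (1 + K) ^ M) + 8 * 0 * ((2 * M + 1) * (1 + K) ^ (2 * M)))) :=
      ((((h1.const_mul (4 * R ^ 2)).const_mul ((M : ℝ) ^ 2)).mul_const ((1 + K) ^ M)).const_mul (M : ℝ)).add
        ((h2.const_mul 8).mul_const _)
    simp only [mul_zero, zero_mul, add_zero] at h3
    exact (h3.eventually (gt_mem_nhds hδ)).mono fun T hT => hT.le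
  obtain ⟨T1, hT1⟩ := hev.exists_forall_of_atTop
  refine ⟨max T1 10, le_max_right _ _, fun T hT lam hlam σ e hσ he0 he1 a b hVK ζ hζ A B hAB hBA => ?_⟩
  have g1 := hT1 T ((le_max_left _ _).trans hT)
  have hT10 : 10 ≤ T := (le_max_right _ _).trans hT
  have hT0 : 0 < T := by linarith
  have hT1' : 1 ≤ T := by linarith
  obtain ⟨h, hh⟩ : ∃ h : ℝ, h = 2 * Real.pi * a / Real.log T := ⟨_, rfl⟩
  obtain ⟨h', hh'⟩ : ∃ h' : ℝ, h' = 2 * Real.pi * b / Real.log T := ⟨_, rfl⟩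
  obtain ⟨z, hz⟩ : ∃ z : ℕ → ℂ, z = zz σ e (Real.log T / lam) T ys h h' ζ := ⟨_, rfl⟩
  have hVS := zz_VS (e := e) hσ hT1' lam hys a b ζ
  rw [← hh, ← hh', ← hz] at hVS
  have hbd : ∀ p, ‖z p‖ ^ 2 ≤ 4 * R ^ 2 * T ^ (-ys 0) := by
    intro p
    rw [hz]
    exact zz_bd hσ he0 he1 (by linarith) hlam hys h h' ζ hζ p
  have hX1 : 1 ≤ XK (ys n) T := by
    unfold XK
    apply Nat.le_floor
    rw [Nat.cast_one]
    exact Real.one_le_rpow hT1' (hy0.le.trans (hys (Nat.zero_le _)))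
  have hXT : ((XK (ys n) T ^ (2 * M) : ℕ) : ℝ) ≤ Real.sqrt T := by
    have h1 : (XK (ys n) T : ℝ) ≤ T ^ ys n := Nat.floor_le (by positivity)
    push_cast
    calc (XK (ys n) T : ℝ) ^ (2 * M) ≤ (T ^ ys n) ^ (2 * M) := pow_le_pow_left₀ (Nat.cast_nonneg _) h1 _
      _ = T ^ (2 * (M : ℝ) * ys n) := by
          rw [← Real.rpow_natCast, ← Real.rpow_mul hT0.le]
          congr 1
          push_cast
          ring
      _ ≤ T ^ (1 / 2 : ℝ) := Real.rpow_le_rpow_of_exponent_le hT1' (by linarith)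
      _ = Real.sqrt T := by rw [Real.sqrt_eq_rpow]
  have hVSK : VS (nz z) (XK (ys n) T) ≤ K * 1 ^ 2 := by
    rw [hVS]
    refine le_trans ?_ (le_trans hVK (le_of_eq (by ring)))
    rw [Finset.mul_sum]
    refine Finset.sum_le_sum fun k _ => ?_
    have c0 := cv_zero_nonneg lam T (ys k) (ys (k + 1))
    have c1 := cv_abs lam T (ys k) (ys (k + 1)) (b - a)
    obtain ⟨b1, b2⟩ := hζ k
    have d1 : (ζ k).1 ^ 2 ≤ R ^ 2 := sq_le_sq' (by linarith [(abs_le.1 b1).1]) (abs_le.1 b1).2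
    have d2 : (ζ k).2 ^ 2 ≤ R ^ 2 := sq_le_sq' (by linarith [(abs_le.1 b2).1]) (abs_le.1 b2).2
    have d3 : |2 * e * ((ζ k).1 * (ζ k).2) * cv lam T (ys k) (ys (k + 1)) (b - a)| ≤
        2 * 1 * (R * R) * cv lam T (ys k) (ys (k + 1)) 0 := by
      rw [abs_mul, abs_mul, abs_mul, abs_of_pos (by norm_num : (0 : ℝ) < 2), abs_of_nonneg he0, abs_mul]
      gcongr
    have d4 := (abs_le.1 d3).2
    have d5 : (ζ k).1 ^ 2 + e ^ 2 * (ζ k).2 ^ 2 ≤ 2 * R ^ 2 := by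
      have : e ^ 2 * (ζ k).2 ^ 2 ≤ 1 * R ^ 2 := by
        apply mul_le_mul _ d2 (sq_nonneg _) (by norm_num)
        nlinarith
      linarith
    have d6 := mul_le_mul_of_nonneg_left d5 c0
    linarith
  have hcf := cf_fin z (XK (ys n) T) hX1 T A B 1 K (4 * R ^ 2 * T ^ (-ys 0)) hT1' hAB hBA one_pos hK
    (by positivity) hbd hVSK M hXT hKM
  have e1 : ∀ t : ℝ, (PP z (XK (ys n) T) t).re / 1 = ∑ k : Fin n,
        (σ * (BB (Real.log T / lam) T (ys k) (ys (k + 1)) (t + h)).im * (ζ k).1 +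
        e * (σ * (BB (Real.log T / lam) T (ys k) (ys (k + 1)) (t + h')).im) * (ζ k).2) := by
    intro t
    rw [div_one, hz]
    exact zz_re hT1' hys h h' ζ t
  have e2 : VS (nz z) (XK (ys n) T) / (4 * 1 ^ 2) = ∑ k : Fin n, qk lam T ys e (b - a) k (ζ k) := by
    rw [hVS, Finset.sum_div]
    refine Finset.sum_congr rfl fun k _ => ?_
    unfold qk
    ring
  simp_rw [e1, e2] at hcf
  rw [← hh, ← hh']
  refine hcf.trans ?_
  have h3 : T * (M * (M ^ 2 * (4 * R ^ 2 * T ^ (-ys 0)) * (1 + K) ^ M / 1 ^ 2)) +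
      8 * (Real.sqrt T * (1 + Real.log T)) * ((2 * M + 1) * (1 + K) ^ (2 * M)) ≤ T * δ := by
    have h4 := mul_le_mul_of_nonneg_left g1 hT0.le
    refine le_trans (le_of_eq ?_) h4
    field_simp
  have e3 : T * (3 * (K ^ M / M.factorial) + δ) = T * (K ^ M / M.factorial * 3) + T * δ := by ring
  rw [e3]
  linarith

end

end Pool.Agent.T6.H5.MX
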