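import Pool.Agent.T6.H5.MX.LA

/-! # The moments of the sum of the bumps -/

set_option autoImplicit false

namespace Pool.Agent.T6.H5.MX

open Complex Filter Topology MeasureTheory Set

noncomputable section

/-- the level polynomials, shifted -/
def Yk (σ lam T : ℝ) (ys : ℕ → ℝ) (a : ℝ) (k : ℕ) (t : ℝ) : ℝ :=
  σ * (BB (Real.log T / lam) T (ys k) (ys (k + 1)) (t + 2 * Real.pi * a / Real.log T)).im

lemma Yk_cont (σ lam T : ℝ) (ys : ℕ → ℝ) (a : ℝ) (k : ℕ) : Continuous (Yk σ lam T ys a k) := by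
  unfold Yk
  have h := BB_cont (Real.log T / lam) T (ys k) (ys (k + 1))
  exact continuous_const.mul (Complex.continuous_im.comp (h.comp (by fun_prop)))

/-- the product of the bumps -/
def Fa (σ lam T : ℝ) (ys : ℕ → ℝ) (n : ℕ) (v a t : ℝ) : ℝ :=
  ∏ k : Fin n, Real.exp (-(Yk σ lam T ys a k t - v) ^ 2 / 2)

lemma Fa_cont (σ lam T : ℝ) (ys : ℕ → ℝ) (n : ℕ) (v a : ℝ) : Continuous (Fa σ lam T ys n v a) := by
  unfold Fa
  refine continuous_finsetProd _ fun k _ => ?_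
  have h := Yk_cont σ lam T ys a k
  fun_prop

lemma Fa_nonneg (σ lam T : ℝ) (ys : ℕ → ℝ) (n : ℕ) (v a t : ℝ) : 0 ≤ Fa σ lam T ys n v a t :=
  Finset.prod_nonneg fun _ _ => (Real.exp_pos _).le

lemma Fa_le_one (σ lam T : ℝ) (ys : ℕ → ℝ) (n : ℕ) (v a t : ℝ) : Fa σ lam T ys n v a t ≤ 1 := by
  refine Finset.prod_le_one (fun _ _ => (Real.exp_pos _).le) fun k _ => ?_
  rw [Real.exp_le_one_iff]
  nlinarith [sq_nonneg (Yk σ lam T ys a k t - v)]

/-- the standard deviations of the levels -/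
def sk (lam T : ℝ) (ys : ℕ → ℝ) (k : ℕ) : ℝ := cv lam T (ys k) (ys (k + 1)) 0 / 2

/-- the covariances of the levels -/
def rk (lam T : ℝ) (ys : ℕ → ℝ) (d : ℝ) (k : ℕ) : ℝ := cv lam T (ys k) (ys (k + 1)) d / 2

lemma sk_nonneg (lam T : ℝ) (ys : ℕ → ℝ) (k : ℕ) : 0 ≤ sk lam T ys k := by
  unfold sk
  have := cv_zero_nonneg lam T (ys k) (ys (k + 1))
  linarith

lemma rk_abs (lam T : ℝ) (ys : ℕ → ℝ) (d : ℝ) (k : ℕ) : |rk lam T ys d k| ≤ sk lam T ys k := by
  unfold rk sk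
  rw [abs_div, abs_of_pos (by norm_num : (0 : ℝ) < 2)]
  have := cv_abs lam T (ys k) (ys (k + 1)) d
  linarith

/-- the error -/
def er (K : ℝ) (M n : ℕ) (R δ : ℝ) : ℝ := 3 * (K ^ M / M.factorial) + δ + 8 * n * Real.exp (-R ^ 2 / 2)

lemma er_nonneg {K δ : ℝ} (hK : 0 ≤ K) (hδ : 0 ≤ δ) (M n : ℕ) (R : ℝ) : 0 ≤ er K M n R δ := by
  unfold er
  positivity

lemma genE {ys : ℕ → ℝ} (hys : Monotone ys) (hy0 : 0 < ys 0) {n : ℕ} (M : ℕ) (hM : 4 * (M : ℝ) * ys n ≤ 1)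
    (K R : ℝ) (hK : 0 ≤ K) (hKM : K ≤ M / 2) (hR0 : 0 ≤ R) {δ : ℝ} (hδ : 0 < δ) :
    ∃ T0 : ℝ, 10 ≤ T0 ∧ ∀ T : ℝ, T0 ≤ T → ∀ lam : ℝ, 0 < lam → ∀ σ e : ℝ, σ ^ 2 = 1 → 0 ≤ e → e ≤ 1 →
    ∀ a b : ℝ, 4 * R ^ 2 * ∑ k : Fin n, cv lam T (ys k) (ys (k + 1)) 0 ≤ K →
    ∀ v v' A B : ℝ, A ≤ B → B - A ≤ T →
    ‖((∫ t in A..B, ∏ k : Fin n, (Real.exp (-(Yk σ lam T ys a k t - v) ^ 2 / 2) *
        Real.exp (-(e * Yk σ lam T ys b k t - v') ^ 2 / 2)) : ℝ) : ℂ) -
      ((B - A : ℝ) : ℂ) * ∏ k : Fin n, ∫ z : ℝ × ℝ, cexp (-(I * (v * z.1 + v' * z.2 : ℝ))) *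
        ((Real.exp (-qk lam T ys e (b - a) k z) : ℝ) : ℂ) ∂Gp‖ ≤ T * er K M n R δ := by
  obtain ⟨T0, hT0, h⟩ := cfz hys hy0 M hM K R hK hKM hR0 hδ
  refine ⟨T0, hT0, fun T hT lam hlam σ e hσ he0 he1 a b hKc v v' A B hAB hBA => ?_⟩
  have hT10 : 10 ≤ T := hT0.trans hT
  have hcf := fun ζ hζ => h T hT lam hlam σ e hσ he0 he1 a b hKc ζ hζ A B hAB hBA
  have hQc : Continuous fun ζ : Fin n → ℝ × ℝ => ∑ k : Fin n, qk lam T ys e (b - a) k (ζ k) := by
    unfold qk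
    fun_prop
  have hQ0 : ∀ ζ : Fin n → ℝ × ℝ, 0 ≤ ∑ k : Fin n, qk lam T ys e (b - a) k (ζ k) := by
    intro ζ
    refine Finset.sum_nonneg fun k _ => ?_
    unfold qk
    have c0 := sk_nonneg lam T ys k
    have c1 := rk_abs lam T ys (b - a) k
    unfold sk at c0 c1
    unfold rk at c1
    obtain ⟨s, hs⟩ : ∃ s : ℝ, s = cv lam T (ys k) (ys (k + 1)) 0 / 2 := ⟨_, rfl⟩
    obtain ⟨ρ, hρ⟩ : ∃ ρ : ℝ, ρ = cv lam T (ys k) (ys (k + 1)) (b - a) / 2 := ⟨_, rfl⟩
    rw [← hs] at c0 c1 ⊢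
    rw [← hρ] at c1 ⊢
    obtain ⟨x, hx⟩ : ∃ x : ℝ, x = (ζ k).1 := ⟨_, rfl⟩
    obtain ⟨y, hy⟩ : ∃ y : ℝ, y = e * (ζ k).2 := ⟨_, rfl⟩
    have e1 : (s * (ζ k).1 ^ 2 + e ^ 2 * (s * (ζ k).2 ^ 2) + 2 * (e * ρ) * ((ζ k).1 * (ζ k).2)) / 2 =
        (s * x ^ 2 + s * y ^ 2 + 2 * ρ * (x * y)) / 2 := by rw [hx, hy]; ring
    rw [e1]
    have h2 : -(2 * ρ * (x * y)) ≤ 2 * s * (|x| * |y|) := by
      have h3 : |ρ * (x * y)| ≤ s * (|x| * |y|) := by
        rw [abs_mul, abs_mul]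
        gcongr
      have := (abs_le.1 h3).1
      linarith
    have h1 : 0 ≤ s * (|x| - |y|) ^ 2 := by positivity
    have e2 : s * (|x| - |y|) ^ 2 = s * x ^ 2 + s * y ^ 2 - 2 * s * (|x| * |y|) := by
      have a1 := sq_abs x
      have a2 := sq_abs y
      nlinarith
    linarith
  have hE1 : 0 ≤ T * (3 * (K ^ M / M.factorial) + δ) := by positivity
  have hg := gen (fun k : Fin n => Yk σ lam T ys a k) (fun k : Fin n => fun t => e * Yk σ lam T ys b k t)
    (fun k => Yk_cont σ lam T ys a k) (fun k => continuous_const.mul (Yk_cont σ lam T ys b k))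
    v v' A B hAB _ hQc hQ0 R _ hR0 hE1 hcf
  rw [prd] at hg
  refine hg.trans ?_
  unfold er
  have h4 : 2 * (B - A) * (n * (4 * Real.exp (-R ^ 2 / 2))) ≤ 2 * T * (n * (4 * Real.exp (-R ^ 2 / 2))) := by
    gcongr
  calc _ ≤ T * (3 * (K ^ M / M.factorial) + δ) + 2 * T * (n * (4 * Real.exp (-R ^ 2 / 2))) := by linarith
    _ = _ := by ring

/-- the first and the second moments -/
lemma mom12 {ys : ℕ → ℝ} (hys : Monotone ys) (hy0 : 0 < ys 0) {n : ℕ} (M : ℕ) (hM : 4 * (M : ℝ) * ys n ≤ 1)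
    (K R : ℝ) (hK : 0 ≤ K) (hKM : K ≤ M / 2) (hR0 : 0 ≤ R) {δ : ℝ} (hδ : 0 < δ) :
    ∃ T0 : ℝ, 10 ≤ T0 ∧ ∀ T : ℝ, T0 ≤ T → ∀ lam : ℝ, 0 < lam → ∀ σ : ℝ, σ ^ 2 = 1 →
    4 * R ^ 2 * ∑ k : Fin n, cv lam T (ys k) (ys (k + 1)) 0 ≤ K →
    ∀ v A B : ℝ, A ≤ B → B - A ≤ T →
    (∀ a : ℝ, |(∫ t in A..B, Fa σ lam T ys n v a t) - (B - A) * ∏ k : Fin n, g1 (sk lam T ys k) v| ≤
      T * er K M n R δ) ∧
    ∀ a b : ℝ, (∫ t in A..B, Fa σ lam T ys n v a t * Fa σ lam T ys n v b t) ≤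
      (B - A) * ∏ k : Fin n, g2 (sk lam T ys k) (rk lam T ys (b - a) k) v + T * er K M n R δ := by
  obtain ⟨T0, hT0, h⟩ := genE hys hy0 M hM K R hK hKM hR0 hδ
  refine ⟨T0, hT0, fun T hT lam hlam σ hσ hKc v A B hAB hBA => ⟨fun a => ?_, fun a b => ?_⟩⟩
  · have h1 := h T hT lam hlam σ 0 hσ le_rfl zero_le_one a a hKc v 0 A B hAB hBA
    have e1 : ∀ t, ∏ k : Fin n, (Real.exp (-(Yk σ lam T ys a k t - v) ^ 2 / 2) *
        Real.exp (-(0 * Yk σ lam T ys a k t - 0) ^ 2 / 2)) = Fa σ lam T ys n v a t := by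
      intro t
      unfold Fa
      refine Finset.prod_congr rfl fun k _ => ?_
      simp
    have e2 : ∀ k : Fin n, ∫ z : ℝ × ℝ, cexp (-(I * (v * z.1 + 0 * z.2 : ℝ))) *
        ((Real.exp (-qk lam T ys 0 (a - a) k z) : ℝ) : ℂ) ∂Gp = (g1 (sk lam T ys k) v : ℂ) := by
      intro k
      have h2 := integral_prod_mul (μ := Gm) (ν := Gm) (fun x : ℝ => cexp (-(I * (v * x : ℝ))) *
        ((Real.exp (-(sk lam T ys k * x ^ 2 / 2)) : ℝ) : ℂ)) (fun _ : ℝ => (1 : ℂ))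
      rw [gi1v (sk_nonneg lam T ys k) v, integral_const] at h2
      simp only [probReal_univ, one_smul, mul_one] at h2
      rw [← h2]
      unfold Gp
      refine integral_congr_ae (Filter.Eventually.of_forall fun z => ?_)
      show cexp _ * _ = cexp _ * _
      unfold qk sk
      congr 3
      · congr 2
        ring
      · congr 2
        ring
    simp_rw [e1, e2] at h1
    rw [← Complex.ofReal_prod, ← Complex.ofReal_mul, ← Complex.ofReal_sub, Complex.norm_real,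
      Real.norm_eq_abs] at h1
    exact h1
  · have h1 := h T hT lam hlam σ 1 hσ zero_le_one le_rfl a b hKc v v A B hAB hBA
    have e1 : ∀ t, ∏ k : Fin n, (Real.exp (-(Yk σ lam T ys a k t - v) ^ 2 / 2) *
        Real.exp (-(1 * Yk σ lam T ys b k t - v) ^ 2 / 2)) =
        Fa σ lam T ys n v a t * Fa σ lam T ys n v b t := by
      intro t
      unfold Fa
      rw [← Finset.prod_mul_distrib]
      refine Finset.prod_congr rfl fun k _ => ?_
      rw [one_mul]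
    have e2 : ∀ k : Fin n, ∫ z : ℝ × ℝ, cexp (-(I * (v * z.1 + v * z.2 : ℝ))) *
        ((Real.exp (-qk lam T ys 1 (b - a) k z) : ℝ) : ℂ) ∂Gp =
        (g2 (sk lam T ys k) (rk lam T ys (b - a) k) v : ℂ) := by
      intro k
      rw [← gi2 (sk_nonneg lam T ys k) (rk_abs lam T ys (b - a) k) v]
      unfold Gp
      refine integral_congr_ae (Filter.Eventually.of_forall fun z => ?_)
      show cexp _ * _ = cexp _ * _
      unfold qk sk rk
      congr 3
      ring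
    simp_rw [e1, e2] at h1
    rw [← Complex.ofReal_prod, ← Complex.ofReal_mul, ← Complex.ofReal_sub, Complex.norm_real,
      Real.norm_eq_abs] at h1
    have := (abs_le.1 h1).2
    linarith

/-- Chebyshev's inequality for the sum of the bumps -/
lemma cheb {J : ℕ} (hJ : 1 ≤ J) (F : ℕ → ℝ → ℝ) (hFc : ∀ a, Continuous (F a)) (hF0 : ∀ a t, 0 ≤ F a t)
    (hF1 : ∀ a t, F a t ≤ 1) {T G e η A : ℝ} (hT : 0 < T) (hG0 : 0 < G) (hG1 : G ≤ 1) (he : 0 ≤ e)
    (h1 : ∀ a, |(∫ t in A..(A + T), F a t) - T * G| ≤ T * e)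
    (h2 : ∑ a ∈ Finset.range J, ∑ b ∈ (Finset.range J).erase a, ∫ t in A..(A + T), F a t * F b t ≤
      T * ((1 + η) * (J * G) ^ 2) + T * (J ^ 2 * e)) :
    volume.real {t | t ∈ Icc A (A + T) ∧ ∑ a ∈ Finset.range J, F a t ≤ J * G / 2} ≤
      4 * T * (1 / (J * G) + η + 4 * e / G ^ 2) := by
  have hJr : (1 : ℝ) ≤ J := by exact_mod_cast hJ
  have hAT : A ≤ A + T := by linarith
  obtain ⟨N, hN⟩ : ∃ N : ℝ → ℝ, N = fun t => ∑ a ∈ Finset.range J, F a t := ⟨_, rfl⟩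
  have hNc : Continuous N := by rw [hN]; fun_prop
  have hi : ∀ a, IntervalIntegrable (F a) volume A (A + T) := fun a => (hFc a).intervalIntegrable _ _
  have hi2 : ∀ a b, IntervalIntegrable (fun t => F a t * F b t) volume A (A + T) := fun a b =>
    ((hFc a).mul (hFc b)).intervalIntegrable _ _
  have hI2 : ∫ t in A..(A + T), (N t) ^ 2 = ∑ a ∈ Finset.range J, ∑ b ∈ Finset.range J,
      ∫ t in A..(A + T), F a t * F b t := by
    have e1 : ∀ t, N t ^ 2 = ∑ a ∈ Finset.range J, ∑ b ∈ Finset.range J, F a t * F b t := by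
      intro t
      rw [hN, sq, Finset.sum_mul_sum]
    simp_rw [e1]
    rw [intervalIntegral.integral_finsetSum]
    · refine Finset.sum_congr rfl fun a _ => ?_
      rw [intervalIntegral.integral_finsetSum]
      exact fun b _ => hi2 a b
    · intro a _
      exact Continuous.intervalIntegrable (continuous_finsetSum _ fun b _ => (hFc a).mul (hFc b)) _ _
  have hI1 : ∫ t in A..(A + T), N t = ∑ a ∈ Finset.range J, ∫ t in A..(A + T), F a t := by
    rw [hN]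
    exact intervalIntegral.integral_finsetSum fun a _ => hi a
  have hdiag : ∀ a ∈ Finset.range J, ∑ b ∈ Finset.range J, ∫ t in A..(A + T), F a t * F b t ≤
      T * G + T * e + ∑ b ∈ (Finset.range J).erase a, ∫ t in A..(A + T), F a t * F b t := by
    intro a ha
    rw [← Finset.add_sum_erase _ _ ha]
    have h3 : ∫ t in A..(A + T), F a t * F a t ≤ ∫ t in A..(A + T), F a t := by
      refine intervalIntegral.integral_mono_on hAT (hi2 a a) (hi a) fun t _ => ?_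
      have := mul_le_mul_of_nonneg_left (hF1 a t) (hF0 a t)
      linarith
    have h4 := (abs_le.1 (h1 a)).2
    linarith
  have hI2' : ∫ t in A..(A + T), (N t) ^ 2 ≤ J * (T * G + T * e) +
      (T * ((1 + η) * (J * G) ^ 2) + T * (J ^ 2 * e)) := by
    rw [hI2]
    refine (Finset.sum_le_sum hdiag).trans ?_
    rw [Finset.sum_add_distrib, Finset.sum_const, Finset.card_range, nsmul_eq_mul]
    linarith
  have hI1' : J * (T * G - T * e) ≤ ∫ t in A..(A + T), N t := by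
    rw [hI1]
    have h5 : ∑ _a ∈ Finset.range J, (T * G - T * e) ≤ ∑ a ∈ Finset.range J, ∫ t in A..(A + T), F a t :=
      Finset.sum_le_sum fun a _ => by
        have := (abs_le.1 (h1 a)).1
        linarith
    rw [Finset.sum_const, Finset.card_range, nsmul_eq_mul] at h5
    exact h5
  have hvar : ∫ t in A..(A + T), (N t - J * G) ^ 2 ≤ T * (J * G + η * (J * G) ^ 2 + 4 * J ^ 2 * e) := by
    have e1 : ∀ t, (N t - J * G) ^ 2 = N t ^ 2 - 2 * (J * G) * N t + (J * G) ^ 2 := fun t => by ring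
    simp_rw [e1]
    rw [intervalIntegral.integral_add (Continuous.intervalIntegrable (by fun_prop) _ _)
      (Continuous.intervalIntegrable (by fun_prop) _ _),
      intervalIntegral.integral_sub (Continuous.intervalIntegrable (by fun_prop) _ _)
      (Continuous.intervalIntegrable (by fun_prop) _ _), intervalIntegral.integral_const_mul,
      intervalIntegral.integral_const, smul_eq_mul]
    have h6 : 2 * (J * G) * (J * (T * G - T * e)) ≤ 2 * (J * G) * ∫ t in A..(A + T), N t :=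
      mul_le_mul_of_nonneg_left hI1' (by positivity)
    have h7 : (J : ℝ) * e ≤ J ^ 2 * e := by
      apply mul_le_mul_of_nonneg_right _ he
      nlinarith
    have h8 : (J : ℝ) ^ 2 * e * G ≤ J ^ 2 * e := mul_le_of_le_one_right (by positivity) hG1
    nlinarith [mul_le_mul_of_nonneg_left h7 hT.le, mul_le_mul_of_nonneg_left h8 hT.le]
  -- Markov
  obtain ⟨S, hS⟩ : ∃ S : Set ℝ, S = {t | t ∈ Icc A (A + T) ∧ ∑ a ∈ Finset.range J, F a t ≤ J * G / 2} :=
    ⟨_, rfl⟩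
  rw [← hS]
  have hSm : MeasurableSet S := by
    rw [hS]
    have : MeasurableSet {t | N t ≤ J * G / 2} := measurableSet_le hNc.measurable measurable_const
    rw [hN] at this
    exact measurableSet_Icc.inter this
  have hSs : S ⊆ Icc A (A + T) := by rw [hS]; exact fun t ht => ht.1
  have hJG : 0 < (J : ℝ) * G := by positivity
  have h9 : volume.real S * (J * G / 2) ^ 2 ≤ ∫ t in A..(A + T), (N t - J * G) ^ 2 := by
    have hii : IntegrableOn (fun t => (N t - J * G) ^ 2) (Icc A (A + T)) :=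
      Continuous.integrableOn_Icc (by fun_prop)
    rw [intervalIntegral.integral_of_le hAT, ← integral_Icc_eq_integral_Ioc]
    have h10 : ∫ t in S, (N t - J * G) ^ 2 ≤ ∫ t in Icc A (A + T), (N t - J * G) ^ 2 :=
      setIntegral_mono_set hii (Filter.Eventually.of_forall fun t => sq_nonneg _)
        (Filter.Eventually.of_forall hSs)
    have h11 : ∫ _t in S, (J * G / 2) ^ 2 ≤ ∫ t in S, (N t - J * G) ^ 2 := by
      refine setIntegral_mono_on (integrableOn_const (by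
        exact ne_top_of_le_ne_top (by simp [Real.volume_Icc]) (measure_mono hSs)))
        (hii.mono_set hSs) hSm fun t ht => ?_
      rw [hS] at ht
      have h12 : N t ≤ J * G / 2 := by rw [hN]; exact ht.2
      nlinarith
    rw [setIntegral_const, smul_eq_mul] at h11
    exact h11.trans h10
  have h13 := h9.trans hvar
  have h14 : volume.real S ≤ T * (J * G + η * (J * G) ^ 2 + 4 * J ^ 2 * e) / (J * G / 2) ^ 2 := by
    rw [le_div_iff₀ (by positivity)]
    exact h13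
  refine h14.trans (le_of_eq ?_)
  field_simp
  ring

end

end Pool.Agent.T6.H5.MX
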