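import Pool.Agent.T6.H5.MX.GI

/-! # The ratio of the Gaussian integrals and the sum over pairs -/

set_option autoImplicit false

namespace Pool.Agent.T6.H5.MX

open Finset

noncomputable section

lemma g1_sq {s : ℝ} (hs : 0 ≤ s) (v : ℝ) : g1 s v ^ 2 = (1 + s)⁻¹ * Real.exp (-(v ^ 2 / (1 + s))) := by
  unfold g1
  rw [mul_pow, inv_pow, Real.sq_sqrt (by linarith), ← Real.exp_nat_mul]
  congr 2
  push_cast
  field_simp

lemma ratio_small {s ρ v θ Cv : ℝ} (hs : 0 ≤ s) (hρ : |ρ| ≤ θ) (hθ : θ ≤ 1 / 2)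
    (hv : v ^ 2 ≤ Cv * (1 + s) ^ 2) : g2 s ρ v ≤ Real.exp ((1 + 2 * Cv) * θ) * g1 s v ^ 2 := by
  have hθ0 : 0 ≤ θ := (abs_nonneg _).trans hρ
  obtain ⟨h1, h2⟩ := abs_le.1 hρ
  have hs1 : 0 < 1 + s := by linarith
  have hρ2 : ρ ^ 2 ≤ θ ^ 2 := sq_le_sq' (by linarith) h2
  rw [g1_sq hs]
  unfold g2
  have e1 : Real.exp ((1 + 2 * Cv) * θ) * ((1 + s)⁻¹ * Real.exp (-(v ^ 2 / (1 + s)))) =
      (Real.exp θ * (1 + s)⁻¹) * (Real.exp (2 * Cv * θ) * Real.exp (-(v ^ 2 / (1 + s)))) := by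
    rw [add_mul, one_mul, Real.exp_add]
    ring
  rw [e1]
  apply mul_le_mul
  · have h3 : Real.exp (-(2 * θ)) ≤ 1 - θ := by
      have h4 : 1 + 2 * θ ≤ Real.exp (2 * θ) := by linarith [Real.add_one_le_exp (2 * θ)]
      rw [Real.exp_neg, inv_le_comm₀ (Real.exp_pos _) (by linarith)]
      refine le_trans ?_ h4
      rw [inv_le_iff_one_le_mul₀ (by linarith)]
      nlinarith
    have h5 : ((1 + s) * Real.exp (-θ)) ^ 2 ≤ (1 + s) ^ 2 - ρ ^ 2 := by
      have e2 : ((1 + s) * Real.exp (-θ)) ^ 2 = (1 + s) ^ 2 * Real.exp (-(2 * θ)) := by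
        rw [mul_pow, ← Real.exp_nat_mul]
        congr 2
        push_cast
        ring
      rw [e2]
      have h6 : (1 + s) ^ 2 * Real.exp (-(2 * θ)) ≤ (1 + s) ^ 2 * (1 - θ) :=
        mul_le_mul_of_nonneg_left h3 (sq_nonneg _)
      have h7 : θ ^ 2 ≤ θ := by nlinarith
      have h8 : θ ≤ (1 + s) ^ 2 * θ := le_mul_of_one_le_left hθ0 (by nlinarith)
      nlinarith
    have h9 : (1 + s) * Real.exp (-θ) ≤ Real.sqrt ((1 + s) ^ 2 - ρ ^ 2) := Real.le_sqrt_of_sq_le h5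
    have h10 : 0 < (1 + s) * Real.exp (-θ) := by positivity
    calc (Real.sqrt ((1 + s) ^ 2 - ρ ^ 2))⁻¹ ≤ ((1 + s) * Real.exp (-θ))⁻¹ := inv_anti₀ h10 h9
      _ = _ := by rw [mul_inv, Real.exp_neg, inv_inv, mul_comm]
  · rw [← Real.exp_add]
    apply Real.exp_le_exp.2
    have h11 : 0 < 1 + s + ρ := by linarith
    have e3 : v ^ 2 / (1 + s) - v ^ 2 / (1 + s + ρ) = v ^ 2 * ρ / ((1 + s) * (1 + s + ρ)) := by
      field_simp
      ring
    have h12 : v ^ 2 * ρ / ((1 + s) * (1 + s + ρ)) ≤ 2 * Cv * θ := by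
      rw [div_le_iff₀ (by positivity)]
      have h13 : v ^ 2 * ρ ≤ v ^ 2 * θ := mul_le_mul_of_nonneg_left h2 (sq_nonneg _)
      have h14 : v ^ 2 * θ ≤ Cv * (1 + s) ^ 2 * θ := mul_le_mul_of_nonneg_right hv hθ0
      have h15 : (1 + s) ^ 2 ≤ 2 * ((1 + s) * (1 + s + ρ)) := by nlinarith
      have hCv : 0 ≤ Cv := by
        by_contra h
        push Not at h
        have := mul_neg_of_neg_of_pos h (by positivity : 0 < (1 + s) ^ 2)
        linarith [sq_nonneg v]
      have h16 : Cv * θ * (1 + s) ^ 2 ≤ Cv * θ * (2 * ((1 + s) * (1 + s + ρ))) :=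
        mul_le_mul_of_nonneg_left h15 (by positivity)
      nlinarith
    linarith
  · exact (Real.exp_pos _).le
  · positivity

lemma ratio_big {s ρ v : ℝ} (hs : 0 ≤ s) (hρ : |ρ| ≤ s) :
    g2 s ρ v ≤ ((1 + s) * Real.exp (v ^ 2 / (2 * (1 + s)))) * g1 s v ^ 2 := by
  obtain ⟨h1, h2⟩ := abs_le.1 hρ
  have hs1 : 0 < 1 + s := by linarith
  have hρ2 : ρ ^ 2 ≤ s ^ 2 := sq_le_sq' (by linarith) h2
  rw [g1_sq hs]
  unfold g2
  have e1 : (1 + s) * Real.exp (v ^ 2 / (2 * (1 + s))) * ((1 + s)⁻¹ * Real.exp (-(v ^ 2 / (1 + s)))) =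
      1 * (Real.exp (v ^ 2 / (2 * (1 + s))) * Real.exp (-(v ^ 2 / (1 + s)))) := by
    field_simp
  rw [e1]
  apply mul_le_mul
  · have h3 : 1 ≤ Real.sqrt ((1 + s) ^ 2 - ρ ^ 2) := by
      apply Real.le_sqrt_of_sq_le
      nlinarith
    exact inv_le_one_of_one_le₀ h3
  · rw [← Real.exp_add]
    apply Real.exp_le_exp.2
    have h11 : 0 < 1 + s + ρ := by linarith
    have h4 : v ^ 2 / (1 + 2 * s) ≤ v ^ 2 / (1 + s + ρ) :=
      div_le_div_of_nonneg_left (sq_nonneg _) h11 (by linarith)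
    have h5 : v ^ 2 / (1 + s) - v ^ 2 / (1 + 2 * s) ≤ v ^ 2 / (2 * (1 + s)) := by
      have e3 : v ^ 2 / (1 + s) - v ^ 2 / (1 + 2 * s) = v ^ 2 * (s / ((1 + s) * (1 + 2 * s))) := by
        field_simp
        ring
      rw [e3, div_eq_mul_one_div (v ^ 2) (2 * (1 + s))]
      apply mul_le_mul_of_nonneg_left _ (sq_nonneg _)
      rw [div_le_div_iff₀ (by positivity) (by positivity)]
      nlinarith
    linarith
  · exact (Real.exp_pos _).le
  · norm_num

lemma prodD (n : ℕ) {BR : ℝ} (hBR : 1 ≤ BR) (D : ℕ → ℝ) (d : ℝ) :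
    ∏ k ∈ range n, (if d < D k then BR else 1) ≤ 1 + ∑ k ∈ range n, (if d < D k then BR ^ (k + 1) else 0) := by
  induction n with
  | zero => simp
  | succ n ih =>
    have hB0 : 0 ≤ BR := by linarith
    rw [prod_range_succ, sum_range_succ]
    have hs : ∀ m : ℕ, 0 ≤ ∑ k ∈ range m, (if d < D k then BR ^ (k + 1) else 0) := fun m =>
      Finset.sum_nonneg fun k _ => by split_ifs <;> positivity
    by_cases h : d < D n
    · rw [if_pos h, if_pos h]
      have h1 : ∏ k ∈ range n, (if d < D k then BR else 1) ≤ BR ^ n := by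
        calc ∏ k ∈ range n, (if d < D k then BR else 1) ≤ ∏ _k ∈ range n, BR := by
              refine Finset.prod_le_prod (fun k _ => ?_) fun k _ => ?_
              · split_ifs <;> linarith
              · split_ifs <;> linarith
          _ = BR ^ n := by rw [prod_const, card_range]
      have h2 := mul_le_mul_of_nonneg_right h1 hB0
      have := hs n
      rw [pow_succ]
      linarith
    · rw [if_neg h, if_neg h, mul_one, add_zero]
      exact ih

lemma pair_count (J : ℕ) {D : ℝ} (hD : 0 ≤ D) :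
    ∑ a ∈ range J, ∑ b ∈ (range J).erase a, (if |(b : ℝ) - a| < D then (1 : ℝ) else 0) ≤
      J * (2 * D + 1) := by
  have h1 : ∀ a ∈ range J, ∑ b ∈ (range J).erase a, (if |(b : ℝ) - a| < D then (1 : ℝ) else 0) ≤
      2 * D + 1 := by
    intro a _
    rw [← Finset.sum_filter, Finset.sum_const, nsmul_eq_mul, mul_one]
    have hsub : ((range J).erase a).filter (fun b : ℕ => |(b : ℝ) - a| < D) ⊆
        Icc (a - ⌊D⌋₊) (a + ⌊D⌋₊) := by
      intro b hb
      rw [Finset.mem_filter, abs_lt] at hb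
      obtain ⟨-, h2, h3⟩ := hb
      have hf := Nat.lt_floor_add_one D
      rw [Finset.mem_Icc]
      constructor
      · have h4 : (a : ℝ) < b + (⌊D⌋₊ + 1) := by linarith
        have h5 : a < b + (⌊D⌋₊ + 1) := by exact_mod_cast h4
        omega
      · have h4 : (b : ℝ) < a + (⌊D⌋₊ + 1) := by linarith
        have h5 : b < a + (⌊D⌋₊ + 1) := by exact_mod_cast h4
        omega
    have hc := Finset.card_le_card hsub
    rw [Nat.card_Icc] at hc
    have hc2 : (((range J).erase a).filter (fun b : ℕ => |(b : ℝ) - a| < D)).card ≤ 2 * ⌊D⌋₊ + 1 := by omega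
    have hfl := Nat.floor_le hD
    have hc3 : (((((range J).erase a).filter (fun b : ℕ => |(b : ℝ) - a| < D)).card : ℕ) : ℝ) ≤
        2 * (⌊D⌋₊ : ℝ) + 1 := by exact_mod_cast hc2
    linarith
  refine (Finset.sum_le_sum h1).trans ?_
  rw [Finset.sum_const, card_range, nsmul_eq_mul]

/-- the sum over pairs -/
lemma pair_sum {n J : ℕ} (s : ℕ → ℝ) (ρ : ℝ → ℕ → ℝ) {v Cv θ BR : ℝ} (D : ℕ → ℝ)
    (hs : ∀ k, 0 ≤ s k) (hρ : ∀ d k, |ρ d k| ≤ s k) (hθ : θ ≤ 1 / 2) (hθ0 : 0 ≤ θ) (hCv : 0 ≤ Cv)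
    (hv : ∀ k, k < n → v ^ 2 ≤ Cv * (1 + s k) ^ 2)
    (hfar : ∀ k, k < n → ∀ a b : ℕ, a < J → b < J → a ≠ b → D k ≤ |(b : ℝ) - a| → |ρ ((b : ℝ) - a) k| ≤ θ)
    (hBR : 1 ≤ BR) (hbig : ∀ k, k < n → (1 + s k) * Real.exp (v ^ 2 / (2 * (1 + s k))) ≤ BR)
    (hD : ∀ k, 0 ≤ D k) :
    ∑ a ∈ range J, ∑ b ∈ (range J).erase a, ∏ k : Fin n, g2 (s k) (ρ ((b : ℝ) - a) k) v ≤
      Real.exp ((1 + 2 * Cv) * θ * n) * (∏ k : Fin n, g1 (s k) v) ^ 2 *
        (J ^ 2 + J * ∑ k ∈ range n, (2 * D k + 1) * BR ^ (k + 1)) := by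
  have hE : 1 ≤ Real.exp ((1 + 2 * Cv) * θ) := Real.one_le_exp (by positivity)
  have hpt : ∀ a ∈ range J, ∀ b ∈ (range J).erase a, ∏ k : Fin n, g2 (s k) (ρ ((b : ℝ) - a) k) v ≤
      Real.exp ((1 + 2 * Cv) * θ * n) * (∏ k : Fin n, g1 (s k) v) ^ 2 *
        (1 + ∑ k ∈ range n, (if |(b : ℝ) - a| < D k then BR ^ (k + 1) else 0)) := by
    intro a ha b hb
    rw [Finset.mem_erase, Finset.mem_range] at hb
    rw [Finset.mem_range] at ha
    have h1 : ∀ k : Fin n, g2 (s k) (ρ ((b : ℝ) - a) k) v ≤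
        (Real.exp ((1 + 2 * Cv) * θ) * g1 (s k) v ^ 2) * (if |(b : ℝ) - a| < D k then BR else 1) := by
      intro k
      have hg : 0 ≤ g1 (s k) v ^ 2 := sq_nonneg _
      split_ifs with h
      · refine (ratio_big (hs k) (hρ _ k)).trans ?_
        have h2 := hbig k k.2
        calc (1 + s k) * Real.exp (v ^ 2 / (2 * (1 + s k))) * g1 (s k) v ^ 2 ≤ BR * g1 (s k) v ^ 2 :=
              mul_le_mul_of_nonneg_right h2 hg
          _ = 1 * (g1 (s k) v ^ 2 * BR) := by ring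
          _ ≤ Real.exp ((1 + 2 * Cv) * θ) * (g1 (s k) v ^ 2 * BR) := by
              apply mul_le_mul_of_nonneg_right hE
              have : 0 ≤ BR := by linarith
              positivity
          _ = _ := by ring
      · rw [mul_one]
        exact ratio_small (hs k) (hfar k k.2 a b ha hb.2 (Ne.symm hb.1) (not_lt.1 h)) hθ (hv k k.2)
    have hg20 : ∀ k : Fin n, 0 ≤ g2 (s k) (ρ ((b : ℝ) - a) k) v := by
      intro k
      unfold g2
      positivity
    refine (Finset.prod_le_prod (fun k _ => hg20 k) fun k _ => h1 k).trans ?_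
    rw [Finset.prod_mul_distrib, Finset.prod_mul_distrib, Finset.prod_const, Finset.card_univ,
      Fintype.card_fin, Finset.prod_pow, ← Real.exp_nat_mul]
    have e1 : ((n : ℕ) : ℝ) * ((1 + 2 * Cv) * θ) = (1 + 2 * Cv) * θ * n := by ring
    rw [e1]
    apply mul_le_mul_of_nonneg_left _ (by positivity)
    have h3 := prodD n hBR D |(b : ℝ) - a|
    rw [Finset.prod_range] at h3
    exact h3
  refine (Finset.sum_le_sum fun a ha => Finset.sum_le_sum fun b hb => hpt a ha b hb).trans ?_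
  simp_rw [← Finset.mul_sum]
  apply mul_le_mul_of_nonneg_left _ (by positivity)
  simp_rw [Finset.sum_add_distrib]
  have h4 : ∑ a ∈ range J, ∑ _b ∈ (range J).erase a, (1 : ℝ) ≤ (J : ℝ) ^ 2 := by
    calc ∑ a ∈ range J, ∑ _b ∈ (range J).erase a, (1 : ℝ) ≤ ∑ _a ∈ range J, (J : ℝ) := by
          refine Finset.sum_le_sum fun a _ => ?_
          rw [Finset.sum_const, nsmul_eq_mul, mul_one]
          have := Finset.card_le_card (Finset.erase_subset a (range J))
          rw [card_range] at this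
          exact_mod_cast this
      _ = _ := by rw [Finset.sum_const, card_range, nsmul_eq_mul]; ring
  have h5 : ∑ a ∈ range J, ∑ b ∈ (range J).erase a, ∑ k ∈ range n,
      (if |(b : ℝ) - a| < D k then BR ^ (k + 1) else 0) ≤
      J * ∑ k ∈ range n, (2 * D k + 1) * BR ^ (k + 1) := by
    have e2 : ∑ a ∈ range J, ∑ b ∈ (range J).erase a, ∑ k ∈ range n,
        (if |(b : ℝ) - a| < D k then BR ^ (k + 1) else 0) =
        ∑ k ∈ range n, BR ^ (k + 1) * ∑ a ∈ range J, ∑ b ∈ (range J).erase a,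
          (if |(b : ℝ) - a| < D k then (1 : ℝ) else 0) := by
      have e3 : ∀ a ∈ range J, ∑ b ∈ (range J).erase a, ∑ k ∈ range n,
          (if |(b : ℝ) - a| < D k then BR ^ (k + 1) else 0) = ∑ k ∈ range n, ∑ b ∈ (range J).erase a,
          (if |(b : ℝ) - a| < D k then BR ^ (k + 1) else 0) := fun a _ => Finset.sum_comm
      rw [Finset.sum_congr rfl e3, Finset.sum_comm]
      refine Finset.sum_congr rfl fun k _ => ?_
      rw [Finset.mul_sum]
      refine Finset.sum_congr rfl fun a _ => ?_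
      rw [Finset.mul_sum]
      refine Finset.sum_congr rfl fun b _ => ?_
      split_ifs <;> simp
    rw [e2, Finset.mul_sum]
    refine Finset.sum_le_sum fun k _ => ?_
    have h6 := pair_count J (hD k)
    have h7 : 0 ≤ BR ^ (k + 1) := by
      have : 0 ≤ BR := by linarith
      positivity
    calc _ ≤ BR ^ (k + 1) * (J * (2 * D k + 1)) := mul_le_mul_of_nonneg_left h6 h7
      _ = _ := by ring
  linarith

end

end Pool.Agent.T6.H5.MX
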