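import Pool.Agent.T6.H5.MX.LB
import Pool.Agent.T6.H5.MX.LC

/-! # Large values of the prime polynomial on a long window -/

set_option autoImplicit false

namespace Pool.Agent.T6.H5.MX

open Filter Topology MeasureTheory Set

noncomputable section

lemma pow_exp_zero (n : ℕ) {a : ℝ} (ha : 0 < a) :
    Tendsto (fun R : ℝ => (1 + R) ^ n * Real.exp (-(a * R))) atTop (𝓝 0) := by
  have h1 : Tendsto (fun R : ℝ => a * (1 + R)) atTop atTop :=
    (tendsto_atTop_add_const_left _ _ tendsto_id).const_mul_atTop ha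
  have h2 := ((Real.tendsto_pow_mul_exp_neg_atTop_nhds_zero n).comp h1).const_mul (Real.exp a / a ^ n)
  rw [mul_zero] at h2
  refine h2.congr fun R => ?_
  simp only [Function.comp_apply]
  have e : Real.exp (-(a * (1 + R))) = Real.exp (-(a * R)) * Real.exp (-a) := by
    rw [← Real.exp_add]; congr 1; ring
  rw [e, mul_pow, Real.exp_neg a]
  field_simp

lemma pow_exp_ev (n : ℕ) {a C δ : ℝ} (ha : 0 < a) (hδ : 0 < δ) :
    ∀ᶠ R : ℝ in atTop, C * ((1 + R) ^ n * Real.exp (-(a * R))) ≤ δ := by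
  have h := (pow_exp_zero n ha).const_mul C
  rw [mul_zero] at h
  exact (h.eventually (gt_mem_nhds hδ)).mono fun _ h => h.le

/-- the boundaries of the levels -/
def yl (R : ℝ) (Q k : ℕ) : ℝ := Real.exp (-(R * (1 - ((k : ℝ) + 1) / Q)))

lemma yl_pos (R : ℝ) (Q k : ℕ) : 0 < yl R Q k := Real.exp_pos _

lemma yl_mono {R : ℝ} (hR : 0 ≤ R) (Q : ℕ) : Monotone (yl R Q) := by
  intro i j hij
  unfold yl
  apply Real.exp_le_exp.2
  have h1 : ((i : ℝ) + 1) / Q ≤ ((j : ℝ) + 1) / Q := by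
    have : (i : ℝ) ≤ j := by exact_mod_cast hij
    gcongr
  nlinarith

lemma yl_log (R : ℝ) (Q k : ℕ) : Real.log (yl R Q (k + 1)) - Real.log (yl R Q k) = R / Q := by
  unfold yl
  rw [Real.log_exp, Real.log_exp]
  push_cast
  ring

lemma yl_top {Q : ℕ} (hQ : 2 ≤ Q) (R : ℝ) : yl R Q (Q - 2) = Real.exp (-(1 / Q * R)) := by
  unfold yl
  congr 1
  have hQ0 : (0 : ℝ) < Q := by exact_mod_cast (by omega : 0 < Q)
  rw [Nat.cast_sub hQ]
  push_cast
  field_simp
  ring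

/-- the sum of the levels -/
lemma sum_levels {σ lam T a : ℝ} (hT : 1 ≤ T) {ys : ℕ → ℝ} (hys : Monotone ys) (n : ℕ) (t : ℝ) :
    ∑ k ∈ Finset.range n, Yk σ lam T ys a k t =
      σ * (BB (Real.log T / lam) T (ys 0) (ys n) (t + 2 * Real.pi * a / Real.log T)).im := by
  induction n with
  | zero =>
    rw [Finset.sum_range_zero]
    have : Pm T (ys 0) (ys 0) = ∅ := by
      unfold Pm
      simp
    unfold BB
    rw [this]
    simp
  | succ n ih =>
    rw [Finset.sum_range_succ, ih, BB_split hT (hys (Nat.zero_le n)) (hys (Nat.le_succ n))]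
    unfold Yk
    rw [Complex.add_im]
    ring

/-- the estimates for large `R` -/
lemma evR (Q : ℕ) (hQ : 2 ≤ Q) {ε c η θ : ℝ} (hε : 0 < ε) (hη : 0 < η) (hθ : 0 < θ) :
    ∀ᶠ R : ℝ in atTop, 2 ≤ R ∧ c * R * Real.exp (-(1 / Q * R)) ≤ 1 / 2 ∧
      32 * (c * R * Real.exp (-(1 / Q * R))) ≤ ε / 8 ∧
      Real.exp (-(ε / (2 * Q) * R)) + 4 * (c * R * Real.exp (-(1 / Q * R)) * R) ≤ θ ∧
      12 * Q * ((1 + R) ^ Q * Real.exp (-(ε / (2 * Q) * R))) ≤ η ∧
      4 * (129 * (1 + R) ^ 3) * Real.exp (-(1 / Q * R)) ≤ 1 ∧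
      3 * Real.exp (-R) ≤ η / 3 ∧ 8 * Q * Real.exp (-R) ≤ η / 3 ∧
      (1 + R) ^ Q * Real.exp (-(ε * R)) ≤ 1 ∧ 4 * ((1 + R) ^ Q * Real.exp (-(ε * R))) ≤ η ∧
      2 * R + 2 ≤ (ε * R / (4 * Q)) ^ 2 := by
  have hQ0 : (0 : ℝ) < Q := by exact_mod_cast (by omega : 0 < Q)
  have hQi : (0 : ℝ) < 1 / Q := by positivity
  have hεQ : 0 < ε / (2 * Q) := by positivity
  have k1 := pow_exp_ev 1 (C := |c|) hQi (by norm_num : (0 : ℝ) < 1 / 2)
  have k2 := pow_exp_ev 1 (C := 32 * |c|) hQi (by positivity : (0 : ℝ) < ε / 8)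
  have k3 := pow_exp_ev 0 (C := 1) hεQ (half_pos hθ)
  have k4 := pow_exp_ev 2 (C := 4 * |c|) hQi (half_pos hθ)
  have k5 := pow_exp_ev Q (C := 12 * Q) hεQ hη
  have k6 := pow_exp_ev 3 (C := 4 * 129) hQi one_pos
  have k7 := pow_exp_ev 0 (C := 3) one_pos (by positivity : 0 < η / 3)
  have k8 := pow_exp_ev 0 (C := 8 * Q) one_pos (by positivity : 0 < η / 3)
  have k9 := pow_exp_ev Q (C := 1) hε one_pos
  have k10 := pow_exp_ev Q (C := 4) hε hη
  filter_upwards [k1, k2, k3, k4, k5, k6, k7, k8, k9, k10, eventually_ge_atTop 2,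
    eventually_ge_atTop (4 / (ε / (4 * Q)) ^ 2)] with R g1 g2 g3 g4 g5 g6 g7 g8 g9 g10 hR2 hR3
  have hR0 : 0 < R := by linarith
  have hE : 0 < Real.exp (-(1 / Q * R)) := Real.exp_pos _
  have hc := le_abs_self c
  have hcR : c * R * Real.exp (-(1 / Q * R)) ≤ |c| * ((1 + R) ^ 1 * Real.exp (-(1 / Q * R))) := by
    rw [pow_one, ← mul_assoc]
    apply mul_le_mul_of_nonneg_right _ hE.le
    have : 0 ≤ |c| := abs_nonneg c
    nlinarith
  refine ⟨hR2, hcR.trans g1, by linarith, ?_, g5, by linarith, ?_, ?_, by linarith, g10, ?_⟩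
  · have h1 : c * R * Real.exp (-(1 / Q * R)) * R ≤ |c| * ((1 + R) ^ 2 * Real.exp (-(1 / Q * R))) := by
      have e : c * R * Real.exp (-(1 / Q * R)) * R = c * R ^ 2 * Real.exp (-(1 / Q * R)) := by ring
      rw [e, ← mul_assoc]
      apply mul_le_mul_of_nonneg_right _ hE.le
      have h2 : 0 ≤ |c| := abs_nonneg c
      have h3 : R ^ 2 ≤ (1 + R) ^ 2 := pow_le_pow_left₀ hR0.le (by linarith) 2
      calc c * R ^ 2 ≤ |c| * R ^ 2 := mul_le_mul_of_nonneg_right hc (sq_nonneg _)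
        _ ≤ _ := mul_le_mul_of_nonneg_left h3 h2
    rw [pow_zero, one_mul, one_mul] at g3
    linarith
  · rw [pow_zero, one_mul, one_mul] at g7
    exact g7
  · rw [pow_zero, one_mul, one_mul] at g8
    exact g8
  · rw [div_le_iff₀ (by positivity)] at hR3
    have e : (ε * R / (4 * Q)) ^ 2 = (ε / (4 * Q)) ^ 2 * R * R := by ring
    rw [e]
    nlinarith

lemma fact_bd {K : ℝ} (hK : 0 ≤ K) {M : ℕ} (hM : 8 * K ≤ M) : K ^ M / M.factorial ≤ Real.exp (-M) := by
  have h1 := Real.pow_div_factorial_le_exp (8 * K) (by positivity) M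
  have h2 : (8 : ℝ) ^ M * (K ^ M / M.factorial) ≤ Real.exp M := by
    calc (8 : ℝ) ^ M * (K ^ M / M.factorial) = (8 * K) ^ M / M.factorial := by rw [mul_pow]; ring
      _ ≤ Real.exp (8 * K) := h1
      _ ≤ Real.exp M := Real.exp_le_exp.2 hM
  have h3 : Real.exp (2 * M) ≤ 8 ^ M := by
    have e : Real.exp (2 * M) = (Real.exp 1 ^ 2) ^ M := by
      rw [← Real.exp_nat_mul, ← Real.exp_nat_mul]
      congr 1
      push_cast
      ring
    rw [e]
    apply pow_le_pow_left₀ (by positivity)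
    have := Real.exp_one_lt_d9
    have h0 := Real.exp_pos 1
    nlinarith
  have h4 : 0 ≤ K ^ M / (M.factorial : ℝ) := by positivity
  have h5 : Real.exp (2 * M) * (K ^ M / M.factorial) ≤ Real.exp M :=
    (mul_le_mul_of_nonneg_right h3 h4).trans h2
  have h6 : Real.exp (2 * (M : ℝ)) = Real.exp M * Real.exp M := by rw [← Real.exp_add]; congr 1; ring
  rw [h6, mul_assoc] at h5
  have h7 : Real.exp (M : ℝ) * (K ^ M / M.factorial) ≤ 1 := by
    have h0 := Real.exp_pos (M : ℝ)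
    nlinarith
  rw [Real.exp_neg, ← one_div, le_div_iff₀ (Real.exp_pos _)]
  linarith

/-! ### the pieces of the argument -/

lemma num1 {ε R : ℝ} {Q : ℕ} (hε : 0 < ε) (hε1 : ε ≤ 1 / 2) (hQ : 2 / ε ≤ Q) (hR : 0 < R) :
    (1 / Real.pi - ε) * R ≤ ((Q : ℝ) - 2) * ((1 - ε) * R / (Real.pi * Q) - ε * R / (4 * Q)) := by
  have hpi := Real.pi_pos
  have hpi3 := Real.pi_gt_three
  have hpi4 := Real.pi_lt_d2
  have hQ0 : (0 : ℝ) < Q := lt_of_lt_of_le (by positivity) hQ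
  have e2 : ((Q : ℝ) - 2) * ((1 - ε) * R / (Real.pi * Q) - ε * R / (4 * Q)) =
      R * ((1 - 2 / Q) * ((1 - ε) * (1 / Real.pi) - ε / 4)) := by field_simp
  rw [e2]
  obtain ⟨x, hx⟩ : ∃ x : ℝ, x = 1 / Real.pi := ⟨_, rfl⟩
  have hx1 : 1 / 4 ≤ x := by rw [hx]; exact one_div_le_one_div_of_le hpi (by linarith)
  have hx2 : x ≤ 1 / 3 := by rw [hx]; exact one_div_le_one_div_of_le (by norm_num) hpi3.le
  rw [← hx]
  have h5 : 2 / (Q : ℝ) ≤ ε := by
    rw [div_le_iff₀ hQ0]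
    rw [div_le_iff₀ hε] at hQ
    linarith
  have h6 : 0 ≤ (1 - ε) * x - ε / 4 := by nlinarith
  have h8 : (1 - ε) * ((1 - ε) * x - ε / 4) ≤ (1 - 2 / Q) * ((1 - ε) * x - ε / 4) :=
    mul_le_mul_of_nonneg_right (by linarith) h6
  have key : (1 - ε) * ((1 - ε) * x - ε / 4) - (x - ε) = ε * (3 / 4 - 2 * x + ε * x + ε / 4) := by ring
  have h9 : 0 ≤ ε * (3 / 4 - 2 * x + ε * x + ε / 4) := by
    apply mul_nonneg hε.le
    have : 0 ≤ ε * x := by positivity
    linarith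
  calc (x - ε) * R ≤ ((1 - 2 / Q) * ((1 - ε) * x - ε / 4)) * R :=
        mul_le_mul_of_nonneg_right (by linarith) hR.le
    _ = _ := by ring

/-- the exponents of the levels -/
lemma lev1 {ε R s v S : ℝ} {Q : ℕ} (hQ : 0 < (Q : ℝ)) (hε : 0 < ε) (hε1 : ε ≤ 1 / 2) (hR : 0 < R)
    (hv : v = (1 - ε) * R / (Real.pi * Q)) (hS : S = 1 / Real.pi ^ 2 * (R / Q))
    (hlo : (1 - ε / 4) * S / 2 ≤ s) :
    v ^ 2 / (2 * (1 + s)) ≤ (1 - ε) * (R / Q) ∧ v ^ 2 ≤ 40 * (1 + s) ^ 2 := by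
  have hpi := Real.pi_pos
  have hpi4 := Real.pi_lt_d2
  have hS0 : 0 < S := by rw [hS]; positivity
  have hε2 : 0 < 1 - ε := by linarith
  have hs0 : 0 < (1 - ε / 4) * S := by
    have : 0 < 1 - ε / 4 := by linarith
    positivity
  have hv0 : 0 < v := by rw [hv]; positivity
  have hvS : v ^ 2 = (1 - ε) ^ 2 * (R / Q) * S := by
    rw [hv, hS]
    field_simp
  constructor
  · rw [div_le_iff₀ (by linarith)]
    have h3 : (1 - ε) * (R / Q) * ((1 - ε / 4) * S) ≤ (1 - ε) * (R / Q) * (2 * (1 + s)) := by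
      apply mul_le_mul_of_nonneg_left (by linarith)
      positivity
    refine le_trans ?_ h3
    rw [hvS]
    have e : (1 - ε) * (R / Q) * ((1 - ε / 4) * S) - (1 - ε) ^ 2 * (R / Q) * S =
        ((1 - ε) * (R / Q) * S) * (3 * ε / 4) := by ring
    have : 0 ≤ ((1 - ε) * (R / Q) * S) * (3 * ε / 4) := by positivity
    linarith
  · have h2 : v ≤ 2 * Real.pi * s := by
      have h3 : v = Real.pi * ((1 - ε) * S) := by
        rw [hv, hS]
        field_simp
      have h4 : (1 - ε) * S ≤ (1 - ε / 4) * S := mul_le_mul_of_nonneg_right (by linarith) hS0.le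
      have h5 : Real.pi * ((1 - ε) * S) ≤ Real.pi * (2 * s) :=
        mul_le_mul_of_nonneg_left (by linarith) hpi.le
      rw [h3]
      linarith
    have h3 : 0 ≤ s := by linarith
    have h4 : v ^ 2 ≤ (2 * Real.pi * s) ^ 2 := pow_le_pow_left₀ hv0.le h2 2
    have h5 : (2 * Real.pi * s) ^ 2 = (4 * Real.pi ^ 2) * s ^ 2 := by ring
    have h6 : 4 * Real.pi ^ 2 ≤ 40 := by nlinarith
    have h7 : s ^ 2 ≤ (1 + s) ^ 2 := pow_le_pow_left₀ h3 (by linarith) 2
    rw [h5] at h4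
    calc v ^ 2 ≤ (4 * Real.pi ^ 2) * s ^ 2 := h4
      _ ≤ 40 * s ^ 2 := mul_le_mul_of_nonneg_right h6 (sq_nonneg _)
      _ ≤ _ := by linarith

/-- the product of the one-point functions -/
lemma levG {ε R v : ℝ} {Q n : ℕ} (hQ : 0 < (Q : ℝ)) (hn : n ≤ Q) (hε1 : ε ≤ 1 / 2) (hR : 0 < R)
    (s : ℕ → ℝ) (hs : ∀ k, 0 ≤ s k) (hsR : ∀ k, k < n → s k ≤ R)
    (hexp : ∀ k, k < n → v ^ 2 / (2 * (1 + s k)) ≤ (1 - ε) * (R / Q)) :
    ∏ k : Fin n, g1 (s k) v ≤ 1 ∧
    ((1 + R) ^ Q)⁻¹ * Real.exp (-((1 - ε) * R)) ≤ ∏ k : Fin n, g1 (s k) v := by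
  have hε2 : 0 < 1 - ε := by linarith
  constructor
  · refine Finset.prod_le_one (fun k _ => (g1_pos (hs k) v).le) fun k _ => ?_
    have hs0 := hs k
    unfold g1
    have h1 : (Real.sqrt (1 + s k))⁻¹ ≤ 1 :=
      inv_le_one_of_one_le₀ (Real.one_le_sqrt.2 (by linarith))
    have h2 : Real.exp (-(v ^ 2 / (2 * (1 + s k)))) ≤ 1 := by
      rw [Real.exp_le_one_iff]
      have : 0 ≤ v ^ 2 / (2 * (1 + s k)) := by positivity
      linarith
    calc _ ≤ 1 * 1 := mul_le_mul h1 h2 (Real.exp_pos _).le (by norm_num)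
      _ = 1 := by norm_num
  · have h1 : ∀ k : Fin n, (1 + R)⁻¹ * Real.exp (-((1 - ε) * (R / Q))) ≤ g1 (s k) v := by
      intro k
      unfold g1
      have hs0 := hs k
      have hsk := hsR k k.2
      have hek := hexp k k.2
      apply mul_le_mul
      · apply inv_anti₀ (Real.sqrt_pos.2 (by linarith))
        have h2 : Real.sqrt (1 + s k) ≤ 1 + s k := by
          rw [Real.sqrt_le_left (by linarith)]
          nlinarith
        linarith
      · apply Real.exp_le_exp.2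
        linarith
      · exact (Real.exp_pos _).le
      · positivity
    have h2 : ((1 + R)⁻¹ * Real.exp (-((1 - ε) * (R / Q)))) ^ n ≤ ∏ k : Fin n, g1 (s k) v := by
      calc _ = ∏ _k : Fin n, ((1 + R)⁻¹ * Real.exp (-((1 - ε) * (R / Q)))) := by
            rw [Finset.prod_const, Finset.card_univ, Fintype.card_fin]
        _ ≤ _ := Finset.prod_le_prod (fun k _ => by positivity) fun k _ => h1 k
    refine le_trans ?_ h2
    rw [mul_pow, ← Real.exp_nat_mul, inv_pow]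
    apply mul_le_mul
    · apply inv_anti₀ (by positivity)
      exact pow_le_pow_right₀ (by linarith) hn
    · apply Real.exp_le_exp.2
      have hnr : (n : ℝ) ≤ Q := by exact_mod_cast hn
      have h4 : (n : ℝ) * ((1 - ε) * (R / Q)) ≤ Q * ((1 - ε) * (R / Q)) := by
        apply mul_le_mul_of_nonneg_right hnr
        positivity
      have e : Q * ((1 - ε) * (R / Q)) = (1 - ε) * R := by field_simp
      rw [e] at h4
      linarith
    · exact (Real.exp_pos _).le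
    · positivity

/-- the combinatorial sum -/
lemma levS {ε R η1 : ℝ} {Q n J : ℕ} (hQ : 0 < (Q : ℝ)) (hn : n + 2 = Q) (hε : 0 < ε) (hε1 : ε ≤ 1 / 2)
    (hR : 0 < R) (hJ : Real.exp R / 4 ≤ J)
    (hη : 0 < η1) (u5 : 12 * Q * ((1 + R) ^ Q * Real.exp (-(ε / (2 * Q) * R))) ≤ η1) :
    (J : ℝ) ^ 2 + J * ∑ k ∈ Finset.range n, (2 * (Real.exp (ε / (2 * Q) * R) / yl R Q k) + 1) *
      ((1 + R) * Real.exp ((1 - ε) * (R / Q))) ^ (k + 1) ≤ (1 + η1) * J ^ 2 := by
  have hε2 : 0 < 1 - ε := by linarith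
  have hnr : (n : ℝ) + 2 = Q := by exact_mod_cast hn
  have hJ0 : (0 : ℝ) ≤ J := Nat.cast_nonneg J
  have h1 : ∀ k ∈ Finset.range n, (2 * (Real.exp (ε / (2 * Q) * R) / yl R Q k) + 1) *
      ((1 + R) * Real.exp ((1 - ε) * (R / Q))) ^ (k + 1) ≤
      3 * ((1 + R) ^ Q * Real.exp (R - ε / (2 * Q) * R)) := by
    intro k hk
    rw [Finset.mem_range] at hk
    have hkr : (k : ℝ) + 1 ≤ Q := by
      have : (k : ℝ) + 1 ≤ n := by exact_mod_cast hk
      linarith
    obtain ⟨D, hD⟩ : ∃ D : ℝ, D = Real.exp (ε / (2 * Q) * R) / yl R Q k := ⟨_, rfl⟩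
    have hDk : D = Real.exp (ε / (2 * Q) * R + R * (1 - ((k : ℝ) + 1) / Q)) := by
      rw [hD]
      unfold yl
      rw [Real.exp_neg, div_inv_eq_mul, ← Real.exp_add]
    have h2 : 1 ≤ D := by
      rw [hDk]
      apply Real.one_le_exp
      have h3 : ((k : ℝ) + 1) / Q ≤ 1 := by rw [div_le_one hQ]; exact hkr
      have h4 : 0 ≤ R * (1 - ((k : ℝ) + 1) / Q) := mul_nonneg hR.le (by linarith)
      positivity
    rw [← hD]
    have h3 : 2 * D + 1 ≤ 3 * D := by linarith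
    have h4 : ((1 + R) * Real.exp ((1 - ε) * (R / Q))) ^ (k + 1) ≤
        (1 + R) ^ Q * Real.exp (((k : ℝ) + 1) * ((1 - ε) * (R / Q))) := by
      rw [mul_pow, ← Real.exp_nat_mul]
      push_cast
      apply mul_le_mul_of_nonneg_right _ (Real.exp_pos _).le
      exact pow_le_pow_right₀ (by linarith) (by omega)
    calc (2 * D + 1) * ((1 + R) * Real.exp ((1 - ε) * (R / Q))) ^ (k + 1) ≤ (3 * D) *
          ((1 + R) ^ Q * Real.exp (((k : ℝ) + 1) * ((1 - ε) * (R / Q)))) :=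
          mul_le_mul h3 h4 (by positivity) (by linarith)
      _ = 3 * ((1 + R) ^ Q * Real.exp (ε / (2 * Q) * R + R * (1 - ((k : ℝ) + 1) / Q) +
          ((k : ℝ) + 1) * ((1 - ε) * (R / Q)))) := by
          rw [hDk, Real.exp_add (ε / (2 * Q) * R + R * (1 - ((k : ℝ) + 1) / Q))]
          ring
      _ ≤ _ := by
          apply mul_le_mul_of_nonneg_left _ (by norm_num)
          apply mul_le_mul_of_nonneg_left _ (by positivity)
          apply Real.exp_le_exp.2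
          have e : R * (1 - ((k : ℝ) + 1) / Q) + ((k : ℝ) + 1) * ((1 - ε) * (R / Q)) =
              R - ((k : ℝ) + 1) * (ε * (R / Q)) := by field_simp; ring
          have h5 : ε * (R / Q) ≤ ((k : ℝ) + 1) * (ε * (R / Q)) := by
            apply le_mul_of_one_le_left (by positivity)
            have : (0 : ℝ) ≤ k := Nat.cast_nonneg k
            linarith
          have e2 : ε * (R / Q) = 2 * (ε / (2 * Q) * R) := by field_simp
          linarith
  have h2 := Finset.sum_le_sum h1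
  rw [Finset.sum_const, Finset.card_range, nsmul_eq_mul] at h2
  have h4 : ∑ k ∈ Finset.range n, (2 * (Real.exp (ε / (2 * Q) * R) / yl R Q k) + 1) *
      ((1 + R) * Real.exp ((1 - ε) * (R / Q))) ^ (k + 1) ≤
      Q * (3 * ((1 + R) ^ Q * Real.exp (R - ε / (2 * Q) * R))) :=
    h2.trans (mul_le_mul_of_nonneg_right (by linarith) (by positivity))
  have h5 : Q * (3 * ((1 + R) ^ Q * Real.exp (R - ε / (2 * Q) * R))) ≤ η1 * J := by
    have e : Real.exp (R - ε / (2 * Q) * R) = Real.exp R * Real.exp (-(ε / (2 * Q) * R)) := by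
      rw [← Real.exp_add]; congr 1
    rw [e]
    calc Q * (3 * ((1 + R) ^ Q * (Real.exp R * Real.exp (-(ε / (2 * Q) * R))))) =
        (12 * Q * ((1 + R) ^ Q * Real.exp (-(ε / (2 * Q) * R)))) * (Real.exp R / 4) := by ring
      _ ≤ η1 * (Real.exp R / 4) := mul_le_mul_of_nonneg_right u5 (by positivity)
      _ ≤ η1 * J := mul_le_mul_of_nonneg_left hJ hη.le
  have h3 := mul_le_mul_of_nonneg_left (h4.trans h5) hJ0
  have e : (J : ℝ) * (η1 * J) = η1 * J ^ 2 := by ring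
  rw [e] at h3
  linarith

/-- the error -/
lemma levE {R η1 δ K : ℝ} {Q n M : ℕ} (hn : n ≤ Q) (hR : 2 ≤ R) (hδ : δ = η1 / 3 * Real.exp (-(2 * R)))
    (hK : K = 16 * R ^ 3) (hM : 8 * K ≤ M) (u7 : 3 * Real.exp (-R) ≤ η1 / 3)
    (u8 : 8 * Q * Real.exp (-R) ≤ η1 / 3) : er K M n (2 * R) δ ≤ η1 * Real.exp (-(2 * R)) := by
  have hK0 : 0 ≤ K := by rw [hK]; positivity
  have hnr : (n : ℝ) ≤ Q := by exact_mod_cast hn
  unfold er
  have h1 : 3 * (K ^ M / M.factorial) ≤ η1 / 3 * Real.exp (-(2 * R)) := by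
    have h2 := fact_bd hK0 hM
    have h3 : Real.exp (-(M : ℝ)) ≤ Real.exp (-(3 * R)) := by
      apply Real.exp_le_exp.2
      have h4 : R ≤ R ^ 3 := by
        calc R = R ^ 1 := (pow_one _).symm
          _ ≤ R ^ 3 := pow_le_pow_right₀ (by linarith) (by norm_num)
      linarith
    have e : Real.exp (-(3 * R)) = Real.exp (-R) * Real.exp (-(2 * R)) := by
      rw [← Real.exp_add]; congr 1; ring
    calc 3 * (K ^ M / M.factorial) ≤ 3 * (Real.exp (-R) * Real.exp (-(2 * R))) := by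
          rw [← e]
          linarith
      _ = (3 * Real.exp (-R)) * Real.exp (-(2 * R)) := by ring
      _ ≤ _ := mul_le_mul_of_nonneg_right u7 (Real.exp_pos _).le
  have h2 : 8 * n * Real.exp (-(2 * R) ^ 2 / 2) ≤ η1 / 3 * Real.exp (-(2 * R)) := by
    have h3 : Real.exp (-(2 * R) ^ 2 / 2) ≤ Real.exp (-R) * Real.exp (-(2 * R)) := by
      rw [← Real.exp_add]
      apply Real.exp_le_exp.2
      nlinarith
    calc 8 * n * Real.exp (-(2 * R) ^ 2 / 2) ≤ 8 * Q * (Real.exp (-R) * Real.exp (-(2 * R))) := by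
          apply mul_le_mul _ h3 (Real.exp_pos _).le (by positivity)
          linarith
      _ = (8 * Q * Real.exp (-R)) * Real.exp (-(2 * R)) := by ring
      _ ≤ _ := mul_le_mul_of_nonneg_right u8 (Real.exp_pos _).le
  linarith

/-- a large bump gives large levels -/
lemma levB {σ lam T ε R v G : ℝ} {ys : ℕ → ℝ} {n Q J : ℕ} (hJ : 1 ≤ J) (hε : 0 < ε) (hR : 0 < R)
    (hGR : Real.exp (-R) ≤ G) (u11 : 2 * R + 2 ≤ (ε * R / (4 * Q)) ^ 2) (t : ℝ)
    (hcon : J * G / 2 < ∑ a ∈ Finset.range J, Fa σ lam T ys n v (a : ℝ) t) :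
    ∃ a < J, ∀ k < n, v - ε * R / (4 * Q) ≤ Yk σ lam T ys (a : ℝ) k t := by
  have hJ0 : (0 : ℝ) < J := by exact_mod_cast hJ
  obtain ⟨a, ha, hFa⟩ : ∃ a ∈ Finset.range J, G / 2 < Fa σ lam T ys n v (a : ℝ) t := by
    by_contra hno
    push Not at hno
    have := Finset.sum_le_sum hno
    rw [Finset.sum_const, Finset.card_range, nsmul_eq_mul] at this
    linarith
  rw [Finset.mem_range] at ha
  refine ⟨a, ha, fun k hk => ?_⟩
  have h2 : Fa σ lam T ys n v (a : ℝ) t ≤ Real.exp (-(Yk σ lam T ys (a : ℝ) k t - v) ^ 2 / 2) := by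
    unfold Fa
    rw [← Finset.mul_prod_erase Finset.univ _ (Finset.mem_univ (⟨k, hk⟩ : Fin n))]
    apply mul_le_of_le_one_right (Real.exp_pos _).le
    refine Finset.prod_le_one (fun _ _ => (Real.exp_pos _).le) fun j _ => ?_
    rw [Real.exp_le_one_iff]
    have := sq_nonneg (Yk σ lam T ys (a : ℝ) j t - v)
    linarith
  have h3 : Real.exp (-R - 1) < Real.exp (-(Yk σ lam T ys (a : ℝ) k t - v) ^ 2 / 2) := by
    refine lt_of_le_of_lt ?_ (lt_of_lt_of_le hFa h2)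
    have h4 : Real.exp (-R - 1) ≤ Real.exp (-R) / 2 := by
      rw [Real.exp_sub]
      apply div_le_div_of_nonneg_left (Real.exp_pos _).le (by norm_num)
      linarith [Real.exp_one_gt_d9]
    linarith
  rw [Real.exp_lt_exp] at h3
  have h5 : (Yk σ lam T ys (a : ℝ) k t - v) ^ 2 ≤ (ε * R / (4 * Q)) ^ 2 := by linarith
  have h6 := abs_le_of_sq_le_sq' h5 (by positivity)
  linarith [h6.1]

end

end Pool.Agent.T6.H5.MX
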