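import Pool.Agent.T6.H5.MX.LD

/-! # Large values of the prime polynomial on a long window: the proof -/

set_option autoImplicit false

namespace Pool.Agent.T6.H5.MX

open Filter Topology MeasureTheory Set

noncomputable section

/-- the variances and the covariances of the levels for large `T` -/
lemma levT {ε θ c R lam : ℝ} {Q n : ℕ} (hQ : 0 < (Q : ℝ)) (hQ1 : 1 ≤ (Q : ℝ)) (hn : n + 2 = Q)
    (hε : 0 < ε) (hθ : 0 < θ)
    (hR : 0 < R) (hlam : 1 ≤ lam) (hlamc : lam ≤ c * R)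
    (u2 : c * R * Real.exp (-(1 / Q * R)) ≤ 1 / 2) (u3 : 32 * (c * R * Real.exp (-(1 / Q * R))) ≤ ε / 8)
    (J : ℕ) : ∀ᶠ T : ℝ in atTop, (∀ k, k < n → |cv lam T (yl R Q k) (yl R Q (k + 1)) 0 -
      1 / Real.pi ^ 2 * (R / Q)| ≤ ε / 4 * (1 / Real.pi ^ 2 * (R / Q))) ∧
      ∀ k, k < n → ∀ d : ℕ, 1 ≤ d → d ≤ J → |cv lam T (yl R Q k) (yl R Q (k + 1)) (d : ℕ)| ≤
      1 / (d * yl R Q k) + 4 * (c * R * Real.exp (-(1 / Q * R)) * R) + θ := by
  have hpi := Real.pi_pos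
  have hlam0 : 0 < lam := by linarith
  obtain ⟨E, hE⟩ : ∃ E : ℝ, E = Real.exp (-(1 / Q * R)) := ⟨_, rfl⟩
  have hE0 : 0 < E := by rw [hE]; exact Real.exp_pos _
  rw [← hE] at u2 u3 ⊢
  obtain ⟨ys, hys⟩ : ∃ ys : ℕ → ℝ, ys = yl R Q := ⟨_, rfl⟩
  have hysm : Monotone ys := by rw [hys]; exact yl_mono hR.le Q
  have hys0 : ∀ k, 0 < ys k := by rw [hys]; exact yl_pos R Q
  have hysn : ys n = E := by
    have : n = Q - 2 := by omega
    rw [hys, this, hE]
    exact yl_top (by omega) R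
  have hyslog : ∀ k, Real.log (ys (k + 1)) - Real.log (ys k) = R / Q := by rw [hys]; exact yl_log R Q
  rw [← hys]
  have hlamE : lam * E ≤ c * R * E := mul_le_mul_of_nonneg_right hlamc hE0.le
  obtain ⟨δ1, hδ1⟩ : ∃ δ1 : ℝ, δ1 = min θ (ε / 8 * (1 / Real.pi ^ 2 * (R / Q))) := ⟨_, rfl⟩
  have hδ10 : 0 < δ1 := by rw [hδ1]; positivity
  have hlamy : ∀ k, k < n → lam * ys (k + 1) ≤ c * R * E := by
    intro k hk
    refine le_trans ?_ hlamE
    apply mul_le_mul_of_nonneg_left _ hlam0.le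
    rw [← hysn]
    exact hysm (by omega)
  have hvar : ∀ k, k < n → ∀ᶠ T : ℝ in atTop, |cv lam T (ys k) (ys (k + 1)) 0 -
      1 / Real.pi ^ 2 * (R / Q)| ≤ ε / 4 * (1 / Real.pi ^ 2 * (R / Q)) := by
    intro k hk
    have h1 := cv_var (hys0 k) (hysm (Nat.le_succ k)) hlam ((hlamy k hk).trans u2) hδ10
    filter_upwards [h1] with T hT
    rw [hyslog] at hT
    refine hT.trans ?_
    have h2 : δ1 ≤ ε / 8 * (1 / Real.pi ^ 2 * (R / Q)) := by rw [hδ1]; exact min_le_right _ _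
    have h3 : 1 / Real.pi ^ 2 * (32 * (lam * ys (k + 1) * (R / Q))) ≤
        ε / 8 * (1 / Real.pi ^ 2 * (R / Q)) := by
      have h4 : 32 * (lam * ys (k + 1)) ≤ ε / 8 := by linarith only [hlamy k hk, u3]
      have h5 : 0 ≤ 1 / Real.pi ^ 2 * (R / Q) := by positivity
      have e : 1 / Real.pi ^ 2 * (32 * (lam * ys (k + 1) * (R / Q))) =
          (32 * (lam * ys (k + 1))) * (1 / Real.pi ^ 2 * (R / Q)) := by ring
      rw [e]
      exact mul_le_mul_of_nonneg_right h4 h5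
    linarith only [h2, h3]
  have hfar : ∀ k, k < n → ∀ d : ℕ, 1 ≤ d → ∀ᶠ T : ℝ in atTop, |cv lam T (ys k) (ys (k + 1)) d| ≤
      1 / (d * ys k) + 4 * (c * R * E * R) + θ := by
    intro k hk d hd
    have hd0 : (0 : ℝ) < d := by exact_mod_cast hd
    have h1 := cv_far (hys0 k) (hysm (Nat.le_succ k)) hlam ((hlamy k hk).trans u2) hd0 hδ10
    filter_upwards [h1] with T hT
    rw [hyslog] at hT
    refine hT.trans ?_
    have h2 : δ1 ≤ θ := by rw [hδ1]; exact min_le_left _ _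
    have h3 : lam * ys (k + 1) * (R / Q) ≤ c * R * E * R := by
      have h5 : R / Q ≤ R := div_le_self hR.le hQ1
      have h6 := hlamy k hk
      have h7 : 0 ≤ lam * ys (k + 1) := mul_nonneg hlam0.le (hys0 _).le
      apply mul_le_mul h6 h5 (by positivity) (h7.trans h6)
    linarith only [h2, h3]
  have hall : ∀ᶠ T : ℝ in atTop, (∀ k ∈ Finset.range n, |cv lam T (ys k) (ys (k + 1)) 0 -
      1 / Real.pi ^ 2 * (R / Q)| ≤ ε / 4 * (1 / Real.pi ^ 2 * (R / Q))) ∧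
      ∀ k ∈ Finset.range n, ∀ d ∈ Finset.Icc 1 J, |cv lam T (ys k) (ys (k + 1)) (d : ℕ)| ≤
      1 / (d * ys k) + 4 * (c * R * E * R) + θ := by
    refine Filter.Eventually.and ?_ ?_
    · rw [Filter.eventually_all_finset]
      intro k hk
      exact hvar k (Finset.mem_range.1 hk)
    · rw [Filter.eventually_all_finset]
      intro k hk
      rw [Filter.eventually_all_finset]
      intro d hd
      exact hfar k (Finset.mem_range.1 hk) d (Finset.mem_Icc.1 hd).1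
  filter_upwards [hall] with T hT
  exact ⟨fun k hk => hT.1 k (Finset.mem_range.2 hk),
    fun k hk d hd hdJ => hT.2 k (Finset.mem_range.2 hk) d (Finset.mem_Icc.2 ⟨hd, hdJ⟩)⟩

/-- the sum over pairs of shifts -/
lemma levP {ε θ η1 c R lam T v : ℝ} {Q n J : ℕ} (hQ : 4 ≤ (Q : ℝ)) (hn : n + 2 = Q)
    (hε : 0 < ε) (hε1 : ε ≤ 1 / 2) (hη : 0 < η1) (hη1 : η1 ≤ 1) (hθ : θ = η1 / (200 * Q)) (hR : 0 < R)
    (hv : v = (1 - ε) * R / (Real.pi * Q))
    (u4 : Real.exp (-(ε / (2 * Q) * R)) + 4 * (c * R * Real.exp (-(1 / Q * R)) * R) ≤ θ)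
    (u5 : 12 * Q * ((1 + R) ^ Q * Real.exp (-(ε / (2 * Q) * R))) ≤ η1)
    (hJ : Real.exp R / 4 ≤ J)
    (hv1 : ∀ k, k < n → |cv lam T (yl R Q k) (yl R Q (k + 1)) 0 -
      1 / Real.pi ^ 2 * (R / Q)| ≤ ε / 4 * (1 / Real.pi ^ 2 * (R / Q)))
    (hf1 : ∀ k, k < n → ∀ d : ℕ, 1 ≤ d → d ≤ J → |cv lam T (yl R Q k) (yl R Q (k + 1)) (d : ℕ)| ≤
      1 / (d * yl R Q k) + 4 * (c * R * Real.exp (-(1 / Q * R)) * R) + θ) :
    (∀ k, k < n → sk lam T (yl R Q) k ≤ R) ∧
    (∀ k, k < n → v ^ 2 / (2 * (1 + sk lam T (yl R Q) k)) ≤ (1 - ε) * (R / Q)) ∧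
    4 * (2 * R) ^ 2 * ∑ k : Fin n, cv lam T (yl R Q k) (yl R Q (k + 1)) 0 ≤ 16 * R ^ 3 ∧
    ∑ a ∈ Finset.range J, ∑ b ∈ (Finset.range J).erase a,
      ∏ k : Fin n, g2 (sk lam T (yl R Q) k) (rk lam T (yl R Q) ((b : ℝ) - a) k) v ≤
      (1 + 3 * η1) * (J * ∏ k : Fin n, g1 (sk lam T (yl R Q) k) v) ^ 2 := by
  have hpi := Real.pi_pos
  have hpi3 := Real.pi_gt_three
  have hQ0 : (0 : ℝ) < Q := by linarith
  have hnr : (n : ℝ) + 2 = Q := by exact_mod_cast hn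
  have hθ0 : 0 < θ := by rw [hθ]; positivity
  have hθ1 : θ ≤ 1 / 2 := by
    rw [hθ, div_le_iff₀ (by positivity)]
    nlinarith
  obtain ⟨S, hS⟩ : ∃ S : ℝ, S = 1 / Real.pi ^ 2 * (R / Q) := ⟨_, rfl⟩
  have hS0 : 0 < S := by rw [hS]; positivity
  rw [← hS] at hv1
  have hSR : S ≤ R / (4 * Q) := by
    rw [hS]
    have h1 : 1 / Real.pi ^ 2 ≤ 1 / 4 := by
      apply one_div_le_one_div_of_le (by norm_num)
      nlinarith
    calc 1 / Real.pi ^ 2 * (R / Q) ≤ 1 / 4 * (R / Q) := mul_le_mul_of_nonneg_right h1 (by positivity)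
      _ = _ := by field_simp
  have hSR1 : S ≤ R := by
    refine hSR.trans (div_le_self hR.le (by linarith))
  have hs_lo : ∀ k, k < n → (1 - ε / 4) * S / 2 ≤ sk lam T (yl R Q) k := by
    intro k hk
    have := (abs_le.1 (hv1 k hk)).1
    unfold sk
    linarith only [this]
  have hcv : ∀ k, k < n → cv lam T (yl R Q k) (yl R Q (k + 1)) 0 ≤ 2 * S := by
    intro k hk
    have h1 := (abs_le.1 (hv1 k hk)).2
    have h2 : ε / 4 * S ≤ 1 * S := mul_le_mul_of_nonneg_right (by linarith) hS0.le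
    linarith only [h1, h2]
  have hsR : ∀ k, k < n → sk lam T (yl R Q) k ≤ R := by
    intro k hk
    have := hcv k hk
    unfold sk
    linarith only [this, hSR1]
  have hlev : ∀ k, k < n → _ := fun k hk => lev1 hQ0 hε hε1 hR hv hS (hs_lo k hk)
  have hvexp : ∀ k, k < n → v ^ 2 / (2 * (1 + sk lam T (yl R Q) k)) ≤ (1 - ε) * (R / Q) :=
    fun k hk => (hlev k hk).1
  refine ⟨hsR, hvexp, ?_, ?_⟩
  · have h1 : ∑ k : Fin n, cv lam T (yl R Q k) (yl R Q (k + 1)) 0 ≤ ∑ _k : Fin n, 2 * S :=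
      Finset.sum_le_sum fun k _ => hcv k k.2
    rw [Finset.sum_const, Finset.card_univ, Fintype.card_fin, nsmul_eq_mul] at h1
    have h2 : (n : ℝ) * (2 * S) ≤ R := by
      calc (n : ℝ) * (2 * S) ≤ Q * (2 * (R / (4 * Q))) := by
            apply mul_le_mul (by linarith) (by linarith) (by positivity) hQ0.le
        _ = R / 2 := by field_simp; ring
        _ ≤ R := by linarith
    calc _ ≤ 4 * (2 * R) ^ 2 * R := mul_le_mul_of_nonneg_left (h1.trans h2) (by positivity)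
      _ = 16 * R ^ 3 := by ring
  obtain ⟨BR, hBR⟩ : ∃ BR : ℝ, BR = (1 + R) * Real.exp ((1 - ε) * (R / Q)) := ⟨_, rfl⟩
  have hBR1 : 1 ≤ BR := by
    rw [hBR]
    have h1 : 1 ≤ Real.exp ((1 - ε) * (R / Q)) := Real.one_le_exp (by
      have : 0 < 1 - ε := by linarith
      positivity)
    nlinarith
  have hbig : ∀ k, k < n → (1 + sk lam T (yl R Q) k) *
      Real.exp (v ^ 2 / (2 * (1 + sk lam T (yl R Q) k))) ≤ BR := by
    intro k hk
    rw [hBR]
    exact mul_le_mul (by linarith [hsR k hk]) (Real.exp_le_exp.2 (hvexp k hk)) (Real.exp_pos _).le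
      (by linarith)
  obtain ⟨D, hD⟩ : ∃ D : ℕ → ℝ, D = fun k => Real.exp (ε / (2 * Q) * R) / yl R Q k := ⟨_, rfl⟩
  have hD0 : ∀ k, 0 ≤ D k := by
    intro k
    rw [hD]
    have := yl_pos R Q k
    positivity
  have hfar' : ∀ k, k < n → ∀ a b : ℕ, a < J → b < J → a ≠ b → D k ≤ |(b : ℝ) - a| →
      |rk lam T (yl R Q) ((b : ℝ) - a) k| ≤ θ := by
    intro k hk a b ha hb hab hd
    obtain ⟨d, hd1, hdJ, hdabs⟩ : ∃ d : ℕ, 1 ≤ d ∧ d ≤ J ∧ |(b : ℝ) - a| = d := by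
      rcases Nat.lt_or_ge a b with h | h
      · refine ⟨b - a, by omega, by omega, ?_⟩
        rw [Nat.cast_sub h.le, abs_of_nonneg]
        have : (a : ℝ) ≤ b := by exact_mod_cast h.le
        linarith
      · refine ⟨a - b, by omega, by omega, ?_⟩
        rw [Nat.cast_sub h, abs_sub_comm, abs_of_nonneg]
        have : (b : ℝ) ≤ a := by exact_mod_cast h
        linarith
    have hcveven : |cv lam T (yl R Q k) (yl R Q (k + 1)) ((b : ℝ) - a)| =
        |cv lam T (yl R Q k) (yl R Q (k + 1)) (d : ℕ)| := by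
      congr 1
      rw [← hdabs]
      unfold cv
      refine Finset.sum_congr rfl fun p _ => ?_
      congr 1
      rcases abs_choice ((b : ℝ) - a) with h | h
      · rw [h]
      · rw [h, mul_neg, neg_mul, Real.cos_neg]
    have h1 := hf1 k hk d hd1 hdJ
    unfold rk
    rw [abs_div, abs_of_pos (by norm_num : (0 : ℝ) < 2), hcveven]
    rw [hdabs, hD] at hd
    have hyk := yl_pos R Q k
    have h2 : Real.exp (ε / (2 * Q) * R) ≤ d * yl R Q k := by
      have : Real.exp (ε / (2 * Q) * R) / yl R Q k ≤ d := hd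
      rwa [div_le_iff₀ hyk] at this
    have h3 : 1 / (d * yl R Q k) ≤ Real.exp (-(ε / (2 * Q) * R)) := by
      rw [Real.exp_neg, ← one_div]
      exact one_div_le_one_div_of_le (Real.exp_pos _) h2
    linarith only [h1, h3, u4]
  have hps := pair_sum (n := n) (J := J) (sk lam T (yl R Q)) (rk lam T (yl R Q)) (v := v) (Cv := 40)
    (θ := θ) (BR := BR) D (sk_nonneg lam T (yl R Q)) (fun d k => rk_abs lam T (yl R Q) d k) hθ1 hθ0.le
    (by norm_num) (fun k hk => (hlev k hk).2) hfar' hBR1 hbig hD0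
  refine hps.trans ?_
  have hexp1 : Real.exp ((1 + 2 * 40) * θ * n) ≤ 1 + η1 := by
    have h1 : (1 + 2 * 40) * θ * n ≤ η1 / 2 := by
      calc (1 + 2 * 40) * θ * n ≤ (1 + 2 * 40) * θ * Q :=
            mul_le_mul_of_nonneg_left (by linarith) (by positivity)
        _ = 81 * η1 / 200 := by rw [hθ]; field_simp; ring
        _ ≤ η1 / 2 := by linarith
    refine (Real.exp_le_exp.2 h1).trans ?_
    have h3 := Real.abs_exp_sub_one_le (x := η1 / 2) (by rw [abs_of_pos (by positivity)]; linarith)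
    rw [abs_of_pos (by positivity : 0 < η1 / 2)] at h3
    have := (abs_le.1 h3).2
    linarith only [this]
  have hsum1 := levS hQ0 hn hε hε1 hR hJ hη u5
  have hsum2 : (J : ℝ) ^ 2 + J * ∑ k ∈ Finset.range n, (2 * D k + 1) * BR ^ (k + 1) ≤
      (1 + η1) * J ^ 2 := by
    rw [hD, hBR]
    exact hsum1
  have h1 : 0 ≤ (∏ k : Fin n, g1 (sk lam T (yl R Q) k) v) ^ 2 := sq_nonneg _
  have hB0 : 0 ≤ BR := by linarith
  obtain ⟨G, hG⟩ : ∃ G : ℝ, G = ∏ k : Fin n, g1 (sk lam T (yl R Q) k) v := ⟨_, rfl⟩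
  rw [← hG] at h1 ⊢
  calc Real.exp ((1 + 2 * 40) * θ * n) * G ^ 2 *
        (J ^ 2 + J * ∑ k ∈ Finset.range n, (2 * D k + 1) * BR ^ (k + 1)) ≤
      ((1 + η1) * G ^ 2) * ((1 + η1) * J ^ 2) := by
        apply mul_le_mul (mul_le_mul_of_nonneg_right hexp1 h1) hsum2 _ (by positivity)
        have : 0 ≤ ∑ k ∈ Finset.range n, (2 * D k + 1) * BR ^ (k + 1) :=
          Finset.sum_nonneg fun k _ => by
            have := hD0 k
            positivity
        positivity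
    _ = (1 + 2 * η1 + η1 ^ 2) * (J * G) ^ 2 := by ring
    _ ≤ _ := by
        apply mul_le_mul_of_nonneg_right _ (by positivity)
        nlinarith

/-- **large values of the prime polynomial on a long window** -/
theorem LBT {ε : ℝ} (hε : 0 < ε) (hε1 : ε ≤ 1 / 2) {Q : ℕ} (hQ : 2 / ε ≤ Q) {c : ℝ} {η : ℝ}
    (hη : 0 < η) : ∃ R0 : ℝ, ∀ r : ℕ, R0 ≤ Real.log r → ∀ lam : ℝ, 1 ≤ lam → lam ≤ c * Real.log r →
    ∃ T0 : ℝ, 10 ≤ T0 ∧ ∀ T : ℝ, T0 ≤ T → ∀ σ : ℝ, σ ^ 2 = 1 →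
    volume.real {t | t ∈ Icc T (2 * T) ∧ ∀ a : ℕ, a < r / 2 →
      σ * (BB (Real.log T / lam) T (yl (Real.log r) Q 0) (yl (Real.log r) Q (Q - 2))
        (t + 2 * Real.pi * a / Real.log T)).im < (1 / Real.pi - ε) * Real.log r} ≤ η * T := by
  have hpi := Real.pi_pos
  have hQ4r : (4 : ℝ) ≤ Q := by
    refine le_trans ?_ hQ
    rw [le_div_iff₀ hε]
    linarith
  have hQ4 : 4 ≤ Q := by exact_mod_cast hQ4r
  have hQ0 : (0 : ℝ) < Q := by linarith
  obtain ⟨n, hn⟩ : ∃ n : ℕ, n = Q - 2 := ⟨_, rfl⟩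
  have hnQ : n + 2 = Q := by omega
  have hnr : (n : ℝ) + 2 = Q := by exact_mod_cast hnQ
  have hnle : n ≤ Q := by omega
  obtain ⟨η1, hη1⟩ : ∃ z : ℝ, z = min (η / 32) 1 := ⟨_, rfl⟩
  have hη10 : 0 < η1 := by rw [hη1]; positivity
  have hη11 : η1 ≤ 1 := by rw [hη1]; exact min_le_right _ _
  have hη12 : 32 * η1 ≤ η := by
    have : η1 ≤ η / 32 := by rw [hη1]; exact min_le_left _ _
    linarith
  obtain ⟨θ, hθ⟩ : ∃ z : ℝ, z = η1 / (200 * Q) := ⟨_, rfl⟩
  have hθ0 : 0 < θ := by rw [hθ]; positivity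
  obtain ⟨R0, hR0⟩ := (evR Q (by omega) (c := c) hε hη10 hθ0).exists_forall_of_atTop
  refine ⟨R0, fun r hr lam hlam hlamc => ?_⟩
  obtain ⟨u1, u2, u3, u4, u5, u6, u7, u8, u9, u10, u11⟩ := hR0 _ hr
  clear hR0
  obtain ⟨R, hR⟩ : ∃ R : ℝ, R = Real.log r := ⟨_, rfl⟩
  rw [← hR] at u1 u2 u3 u4 u5 u6 u7 u8 u9 u10 u11 hlamc ⊢
  have hRpos : 0 < R := by linarith only [u1]
  have hlam0 : 0 < lam := by linarith only [hlam]
  have hr0 : (0 : ℝ) < r := by
    rcases Nat.eq_zero_or_pos r with h | h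
    · rw [h] at hR
      simp only [Nat.cast_zero, Real.log_zero] at hR
      linarith only [hR, hRpos]
    · exact_mod_cast h
  have her : Real.exp R = r := by rw [hR, Real.exp_log hr0]
  have hysm : Monotone (yl R Q) := yl_mono hRpos.le Q
  -- the parameters
  obtain ⟨J, hJ⟩ : ∃ J : ℕ, J = r / 2 := ⟨_, rfl⟩
  obtain ⟨v, hv⟩ : ∃ v : ℝ, v = (1 - ε) * R / (Real.pi * Q) := ⟨_, rfl⟩
  obtain ⟨K, hK⟩ : ∃ K : ℝ, K = 16 * R ^ 3 := ⟨_, rfl⟩
  have hK0 : 0 < K := by rw [hK]; positivity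
  obtain ⟨M, hM⟩ : ∃ M : ℕ, M = ⌈8 * K⌉₊ := ⟨_, rfl⟩
  have hM1 : 8 * K ≤ M := by rw [hM]; exact Nat.le_ceil _
  have hM2 : (M : ℝ) ≤ 8 * K + 1 := by rw [hM]; exact (Nat.ceil_lt_add_one (by positivity)).le
  have hMy : 4 * (M : ℝ) * yl R Q n ≤ 1 := by
    rw [hn, yl_top (by omega)]
    refine le_trans ?_ u6
    apply mul_le_mul_of_nonneg_right _ (Real.exp_pos _).le
    have h0 : R ^ 3 ≤ (1 + R) ^ 3 := pow_le_pow_left₀ hRpos.le (by linarith only) 3
    have h1 : (1 : ℝ) ≤ (1 + R) ^ 3 := one_le_pow₀ (by linarith only [hRpos])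
    rw [hK] at hM2
    linarith only [h0, h1, hM2]
  obtain ⟨δ, hδ⟩ : ∃ δ : ℝ, δ = η1 / 3 * Real.exp (-(2 * R)) := ⟨_, rfl⟩
  have hδ0 : 0 < δ := by rw [hδ]; positivity
  obtain ⟨Ta, hTa, hmom⟩ := mom12 hysm (yl_pos R Q 0) (n := n) M hMy K (2 * R) hK0.le
    (by linarith only [hM1, hK0]) (by linarith only [hRpos]) hδ0
  obtain ⟨Tb, hTb⟩ := (levT hQ0 (by linarith only [hQ4r]) hnQ hε hθ0 hRpos hlam hlamc u2 u3
    J).exists_forall_of_atTop
  refine ⟨max Ta Tb, hTa.trans (le_max_left _ _), fun T hT σ hσ => ?_⟩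
  obtain ⟨hv1, hf1⟩ := hTb T ((le_max_right _ _).trans hT)
  clear hTb
  have hT10 : 10 ≤ T := hTa.trans ((le_max_left _ _).trans hT)
  have hT0 : 0 < T := by linarith only [hT10]
  have hJr : Real.exp R / 4 ≤ J := by
    have h1 : 2 ≤ r := by
      have h2 : Real.exp 2 ≤ r := by rw [← her]; exact Real.exp_le_exp.2 u1
      have h3 : (2 : ℝ) + 1 ≤ Real.exp 2 := Real.add_one_le_exp 2
      have h4 : (2 : ℝ) ≤ r := by linarith only [h2, h3]
      exact_mod_cast h4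
    have h2 : r ≤ 4 * J := by omega
    have h3 : (r : ℝ) ≤ 4 * J := by exact_mod_cast h2
    rw [her]
    linarith only [h3]
  have hJ1 : 1 ≤ J := by
    have h2 : 0 < (J : ℝ) := by
      have := Real.exp_pos R
      linarith only [hJr, this]
    exact_mod_cast h2
  have hJ0 : (0 : ℝ) < J := by exact_mod_cast hJ1
  obtain ⟨hsR, hvexp, hKc, hps⟩ := levP hQ4r hnQ hε hε1 hη10 hη11 hθ hRpos hv u4 u5 hJr hv1 hf1
  rw [← hK] at hKc
  obtain ⟨hm1, hm2⟩ := hmom T ((le_max_left _ _).trans hT) lam hlam0 σ hσ hKc v T (T + T)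
    (by linarith only [hT0]) (by linarith only)
  clear hmom
  have eTT : T + T - T = T := by ring
  rw [eTT] at hm1 hm2
  obtain ⟨hG1, hGlo⟩ := levG hQ0 hnle hε1 hRpos (sk lam T (yl R Q)) (sk_nonneg lam T (yl R Q)) hsR hvexp
  obtain ⟨G, hG⟩ : ∃ G : ℝ, G = ∏ k : Fin n, g1 (sk lam T (yl R Q) k) v := ⟨_, rfl⟩
  rw [← hG] at hG1 hGlo hps hm1
  have hG0 : 0 < G := lt_of_lt_of_le (by positivity) hGlo
  have hP1 : (1 + R) ^ Q ≤ Real.exp (ε * R) := by
    rw [Real.exp_neg, ← div_eq_mul_inv, div_le_one (Real.exp_pos _)] at u9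
    exact u9
  have hGR : Real.exp (-R) ≤ G := by
    refine le_trans ?_ hGlo
    have h1 : (Real.exp (ε * R))⁻¹ ≤ ((1 + R) ^ Q)⁻¹ := inv_anti₀ (by positivity) hP1
    calc Real.exp (-R) = (Real.exp (ε * R))⁻¹ * Real.exp (-((1 - ε) * R)) := by
          rw [← Real.exp_neg, ← Real.exp_add]; congr 1; ring
      _ ≤ _ := mul_le_mul_of_nonneg_right h1 (Real.exp_pos _).le
  have hJG : 1 / (J * G) ≤ η1 := by
    have h1 : Real.exp (ε * R) / (4 * (1 + R) ^ Q) ≤ J * G := by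
      calc Real.exp (ε * R) / (4 * (1 + R) ^ Q) = (Real.exp R / 4) *
            (((1 + R) ^ Q)⁻¹ * Real.exp (-((1 - ε) * R))) := by
            have e : Real.exp (ε * R) = Real.exp R * Real.exp (-((1 - ε) * R)) := by
              rw [← Real.exp_add]; congr 1; ring
            rw [e]
            field_simp
        _ ≤ J * G := mul_le_mul hJr hGlo (by positivity) hJ0.le
    have h2 : 1 / (J * G) ≤ 1 / (Real.exp (ε * R) / (4 * (1 + R) ^ Q)) :=
      one_div_le_one_div_of_le (by positivity) h1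
    refine h2.trans ?_
    have e : 1 / (Real.exp (ε * R) / (4 * (1 + R) ^ Q)) = 4 * ((1 + R) ^ Q * Real.exp (-(ε * R))) := by
      rw [one_div_div, Real.exp_neg]
      field_simp
    rw [e]
    exact u10
  -- the error
  have herr := levE (δ := δ) (M := M) hnle u1 hδ hK hM1 u7 u8
  obtain ⟨er0, her0⟩ : ∃ z : ℝ, z = er K M n (2 * R) δ := ⟨_, rfl⟩
  have her00 : 0 ≤ er0 := by rw [her0]; exact er_nonneg hK0.le hδ0.le _ _ _
  rw [← her0] at herr hm1 hm2
  have herG : er0 / G ^ 2 ≤ η1 := by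
    rw [div_le_iff₀ (by positivity)]
    refine herr.trans ?_
    apply mul_le_mul_of_nonneg_left _ hη10.le
    have e : Real.exp (-(2 * R)) = Real.exp (-R) ^ 2 := by
      rw [← Real.exp_nat_mul]; congr 1; push_cast; ring
    rw [e]
    exact pow_le_pow_left₀ (Real.exp_pos _).le hGR 2
  have hpair : ∑ a ∈ Finset.range J, ∑ b ∈ (Finset.range J).erase a,
      ∫ t in T..(T + T), Fa σ lam T (yl R Q) n v (a : ℝ) t * Fa σ lam T (yl R Q) n v (b : ℝ) t ≤
      T * ((1 + 3 * η1) * (J * G) ^ 2) + T * (J ^ 2 * er0) := by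
    have h1 : ∀ a ∈ Finset.range J, ∑ b ∈ (Finset.range J).erase a,
        ∫ t in T..(T + T), Fa σ lam T (yl R Q) n v (a : ℝ) t * Fa σ lam T (yl R Q) n v (b : ℝ) t ≤
        T * (∑ b ∈ (Finset.range J).erase a,
          ∏ k : Fin n, g2 (sk lam T (yl R Q) k) (rk lam T (yl R Q) ((b : ℝ) - a) k) v) + J * (T * er0) := by
      intro a _
      have h2 : ∑ b ∈ (Finset.range J).erase a,
        ∫ t in T..(T + T), Fa σ lam T (yl R Q) n v (a : ℝ) t * Fa σ lam T (yl R Q) n v (b : ℝ) t ≤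
        ∑ b ∈ (Finset.range J).erase a, (T * (∏ k : Fin n, g2 (sk lam T (yl R Q) k)
          (rk lam T (yl R Q) ((b : ℝ) - a) k) v) + T * er0) :=
        Finset.sum_le_sum fun b _ => hm2 a b
      rw [Finset.sum_add_distrib, ← Finset.mul_sum, Finset.sum_const, nsmul_eq_mul] at h2
      have h3 : ((((Finset.range J).erase a).card : ℕ) : ℝ) * (T * er0) ≤ J * (T * er0) := by
        apply mul_le_mul_of_nonneg_right _ (by positivity)
        have := Finset.card_le_card (Finset.erase_subset a (Finset.range J))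
        rw [Finset.card_range] at this
        exact_mod_cast this
      linarith only [h2, h3]
    refine (Finset.sum_le_sum h1).trans ?_
    rw [Finset.sum_add_distrib, ← Finset.mul_sum, Finset.sum_const, Finset.card_range, nsmul_eq_mul]
    have h2 := mul_le_mul_of_nonneg_left hps hT0.le
    have e : (J : ℝ) * (J * (T * er0)) = T * (J ^ 2 * er0) := by ring
    rw [e]
    linarith only [h2]
  have hch := cheb hJ1 (fun a => Fa σ lam T (yl R Q) n v (a : ℝ)) (fun a => Fa_cont σ lam T (yl R Q) n v a)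
    (fun a t => Fa_nonneg σ lam T (yl R Q) n v a t) (fun a t => Fa_le_one σ lam T (yl R Q) n v a t)
    (T := T) (G := G) (e := er0) (η := 3 * η1) (A := T) hT0 hG0 hG1 her00 (fun a => hm1 a) hpair
  have hfin : 4 * T * (1 / (J * G) + 3 * η1 + 4 * er0 / G ^ 2) ≤ η * T := by
    have h1 : 4 * er0 / G ^ 2 = 4 * (er0 / G ^ 2) := by ring
    rw [h1]
    have h2 : 1 / (J * G) + 3 * η1 + 4 * (er0 / G ^ 2) ≤ 8 * η1 := by linarith only [hJG, herG]
    calc 4 * T * (1 / (J * G) + 3 * η1 + 4 * (er0 / G ^ 2)) ≤ 4 * T * (8 * η1) :=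
          mul_le_mul_of_nonneg_left h2 (by positivity)
      _ = (32 * η1) * T := by ring
      _ ≤ _ := mul_le_mul_of_nonneg_right hη12 hT0.le
  refine le_trans (measureReal_mono ?_ ?_) (hch.trans hfin)
  · intro t ht
    obtain ⟨ht1, ht2⟩ := ht
    refine ⟨⟨ht1.1, by linarith only [ht1.2]⟩, ?_⟩
    by_contra hcon
    obtain ⟨a, ha, h1⟩ := levB hJ1 hε hRpos hGR u11 t (not_le.1 hcon)
    have h2 := Finset.sum_le_sum fun k (hk : k ∈ Finset.range n) => h1 k (Finset.mem_range.1 hk)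
    rw [Finset.sum_const, Finset.card_range, nsmul_eq_mul, sum_levels (by linarith only [hT10]) hysm] at h2
    have h3 := ht2 a (by rw [← hJ]; exact ha)
    rw [← hn] at h3
    have h4 := num1 hε hε1 hQ hRpos
    rw [← hv] at h4
    have e1 : (n : ℝ) = Q - 2 := by linarith only [hnr]
    rw [e1] at h2
    linarith only [h2, h3, h4]
  · apply ne_top_of_le_ne_top (b := volume (Icc T (T + T)))
    · simp [Real.volume_Icc]
    · exact measure_mono fun t ht => ht.1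

end

end Pool.Agent.T6.H5.MX
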