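import Pool.Agent.T6.H5.MX.UB

/-! # The deviations of the counts on a long window: random heights -/

set_option autoImplicit false

namespace Pool.Agent.T6.H5.MX

open Filter Topology MeasureTheory Set
open Pool.Agent.Y743.CL (VS VS_nonneg XK)
open Pool.Agent.R320.JL (PP PP_cont nz ze)
open Pool.Agent.TH850.UV (Db XT)
open SG (NZ)
open SP (RHs Mk Q1)

noncomputable section

/-- the deviation of the number of ordinates in a window -/
def dv (T a t : ℝ) : ℝ := ((NZ (t + 2 * Real.pi * a / Real.log T) : ℝ) - NZ t) - a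

/-- the deterministic step -/
lemma det {T l h t a x y1 y2 w V E CJ M1 M2 P C3 : ℝ} (hT : 1 ≤ T) (h1 : x ≤ y1) (h2 : y1 ≤ y2) (h3 : y2 ≤ w)
    {D NZd : ℝ}
    (hpw : |NZd - a + D| ≤ 1 + CJ * (M1 + M2))
    (hDb : |D - (PP (ze l h) (XK w T) t).re| ≤ P + (C3 + 1))
    (b1 : ‖PP (ze l h) (XK x T) t‖ ≤ V) (b2 : P ≤ V)
    (b3 : ‖BB l T x y1 t‖ ≤ V) (b4 : ‖BB l T x y1 (t + h)‖ ≤ V)
    (b5 : ‖BB l T y2 w t‖ ≤ V) (b6 : ‖BB l T y2 w (t + h)‖ ≤ V) (b7 : ‖BB l T y1 y2 t‖ ≤ V)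
    (b8 : CJ * (M1 + M2) ≤ V) (b9 : C3 + 2 ≤ V) (hE : 9 * V ≤ E) :
    |NZd - a - (BB l T y1 y2 (t + h)).im| ≤ E := by
  have e1 := PP_ze (l := l) (h := h) hT (h1.trans (h2.trans h3)) t
  have e2 := fun s => BB_split (l := l) hT h1 (h2.trans h3) s
  have e3 := fun s => BB_split (l := l) hT h2 h3 s
  rw [e2, e2, e3, e3] at e1
  rw [e1] at hDb
  simp only [Complex.sub_re, Complex.mul_re, Complex.I_re, Complex.I_im, Complex.add_im, Complex.sub_im,
    Complex.add_re, zero_mul, one_mul, zero_sub] at hDb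
  have c1 := (abs_le.1 ((Complex.abs_re_le_norm _).trans b1))
  have c3 := (abs_le.1 ((Complex.abs_im_le_norm _).trans b3))
  have c4 := (abs_le.1 ((Complex.abs_im_le_norm _).trans b4))
  have c5 := (abs_le.1 ((Complex.abs_im_le_norm _).trans b5))
  have c6 := (abs_le.1 ((Complex.abs_im_le_norm _).trans b6))
  have c7 := (abs_le.1 ((Complex.abs_im_le_norm _).trans b7))
  have c8 := abs_le.1 hpw
  have c9 := abs_le.1 hDb
  rw [abs_le]
  constructor
  · linarith only [c1.1, c1.2, c3.1, c3.2, c4.1, c4.2, c5.1, c5.2, c6.1, c6.2, c7.1, c7.2, c8.1, c8.2,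
      c9.1, c9.2, b2, b8, b9, hE]
  · linarith only [c1.1, c1.2, c3.1, c3.2, c4.1, c4.2, c5.1, c5.2, c6.1, c6.2, c7.1, c7.2, c8.1, c8.2,
      c9.1, c9.2, b2, b8, b9, hE]

end

end Pool.Agent.T6.H5.MX
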