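import Pool.Agent.T6.H5.MX.LF

/-! # The deviations of the counts on a long window: the tails -/

set_option autoImplicit false

namespace Pool.Agent.T6.H5.MX

open Filter Topology MeasureTheory Set
open Pool.Agent.Y743.CL (VS VS_nonneg XK)
open Pool.Agent.R320.JL (PP PP_cont nz ze)
open Pool.Agent.TH850.UV (Db XT)
open SG (NZ)
open SP (RHs Mk Q1)

noncomputable section

/-- the estimates for large `R` -/
lemma evB {ε1 ε2 β WL C4 CQ C3 η : ℝ} {Q : ℕ} (hQ : 0 < (Q : ℝ)) (hε1 : 0 < ε1) (hε2 : 0 < ε2)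
    (hβ : 1 < β) (hη : 0 < η) :
    ∀ᶠ R : ℝ in atTop, 1 ≤ R ∧ 2 ≤ ε2 * R ∧ ε2 * WL / (ε1 ^ 2 * R) ≤ Real.exp (-(6 / ε2)) ∧
      ε2 * C4 / (ε1 ^ 2 * R) ≤ Real.exp (-(6 / ε2)) ∧ CQ / (25 * ε2 * R) ≤ Real.exp (-(6 / ε2)) ∧
      8 * ε2 * R * Real.exp (-(1 / Q * R)) ≤ 1 ∧ 4 * β * R * Real.exp (-(1 / Q * R)) ≤ 1 ∧
      68 * Real.exp 1 ^ 2 * β * R * Real.exp (-((β - 1) * R)) ≤ η ∧
      400 * Real.exp (-(2 * R)) ≤ η ∧ 2 / (ε1 ^ 2 * R) ≤ η ∧ C3 + 2 ≤ ε1 * R := by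
  have hQi : (0 : ℝ) < 1 / Q := by positivity
  have hinv : Tendsto (fun R : ℝ => R⁻¹) atTop (𝓝 0) := tendsto_inv_atTop_zero
  have inv_ev : ∀ (A δ : ℝ), 0 < δ → ∀ᶠ R : ℝ in atTop, A * R⁻¹ ≤ δ := by
    intro A δ hδ
    have h := hinv.const_mul A
    rw [mul_zero] at h
    exact (h.eventually (gt_mem_nhds hδ)).mono fun _ h => h.le
  have hβ1 : 0 < β - 1 := by linarith
  have hX : 0 < Real.exp (-(6 / ε2)) := Real.exp_pos _
  have k1 := inv_ev (ε2 * WL / ε1 ^ 2) _ hX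
  have k2 := inv_ev (ε2 * C4 / ε1 ^ 2) _ hX
  have k3 := inv_ev (CQ / (25 * ε2)) _ hX
  have k4 := pow_exp_ev 1 (C := 8 * ε2) hQi one_pos
  have k5 := pow_exp_ev 1 (C := 4 * β) hQi one_pos
  have k6 := pow_exp_ev 1 (C := 68 * Real.exp 1 ^ 2 * β) hβ1 hη
  have k7 := pow_exp_ev 0 (C := 400) (by norm_num : (0 : ℝ) < 2) hη
  have k8 := inv_ev (2 / ε1 ^ 2) _ hη
  filter_upwards [k1, k2, k3, k4, k5, k6, k7, k8, eventually_ge_atTop 1, eventually_ge_atTop (2 / ε2),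
    eventually_ge_atTop ((C3 + 2) / ε1)] with R g1 g2 g3 g4 g5 g6 g7 g8 g9 g10 g11
  have hR : 0 < R := by linarith
  have e1 : ∀ A : ℝ, A / (ε1 ^ 2 * R) = A / ε1 ^ 2 * R⁻¹ := fun A => by
    rw [div_mul_eq_div_div, div_eq_mul_inv (A / ε1 ^ 2)]
  refine ⟨g9, ?_, ?_, ?_, ?_, ?_, ?_, ?_, ?_, ?_, ?_⟩
  · rw [div_le_iff₀ hε2] at g10; linarith
  · rw [e1]; exact g1
  · rw [e1]; exact g2
  · have : CQ / (25 * ε2 * R) = CQ / (25 * ε2) * R⁻¹ := by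
      rw [div_mul_eq_div_div, div_eq_mul_inv (CQ / (25 * ε2))]
    rw [this]; exact g3
  · refine le_trans ?_ g4
    have := Real.exp_pos (-(1 / Q * R))
    rw [pow_one]
    have e : 8 * ε2 * ((1 + R) * Real.exp (-(1 / Q * R))) =
      8 * ε2 * R * Real.exp (-(1 / Q * R)) + 8 * ε2 * Real.exp (-(1 / Q * R)) := by ring
    rw [e]
    have : 0 ≤ 8 * ε2 * Real.exp (-(1 / Q * R)) := by positivity
    linarith
  · refine le_trans ?_ g5
    rw [pow_one]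
    have e : 4 * β * ((1 + R) * Real.exp (-(1 / Q * R))) =
      4 * β * R * Real.exp (-(1 / Q * R)) + 4 * β * Real.exp (-(1 / Q * R)) := by ring
    rw [e]
    have : 0 ≤ 4 * β * Real.exp (-(1 / Q * R)) := by positivity
    linarith
  · refine le_trans ?_ g6
    rw [pow_one]
    have e : 68 * Real.exp 1 ^ 2 * β * ((1 + R) * Real.exp (-((β - 1) * R))) =
      68 * Real.exp 1 ^ 2 * β * R * Real.exp (-((β - 1) * R)) +
        68 * Real.exp 1 ^ 2 * β * Real.exp (-((β - 1) * R)) := by ring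
    rw [e]
    have : 0 ≤ 68 * Real.exp 1 ^ 2 * β * Real.exp (-((β - 1) * R)) := by positivity
    linarith
  · rw [pow_zero, one_mul] at g7
    exact g7
  · rw [e1]; exact g8
  · rw [div_le_iff₀ hε1] at g11; linarith

/-- the variances for large `T` -/
lemma evT {R κ lam : ℝ} {Q : ℕ} (hQ : 2 ≤ Q) (hR : 0 < R) (hlam : 0 < lam) (hκ1 : κ ≤ 1)
    (hκ : Real.exp (-(1 / Q * R)) ≤ κ) : ∀ᶠ T : ℝ in atTop,
    cv lam T (Real.exp (-R)) (yl R Q 0) 0 ≤ R / Q ∧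
    cv lam T (yl R Q 0) (yl R Q (Q - 2)) 0 ≤ 1 / Real.pi ^ 2 * R ∧
    cv lam T (yl R Q (Q - 2)) κ 0 ≤ R / Q := by
  have hpi := Real.pi_pos
  have hQr : (2 : ℝ) ≤ Q := by exact_mod_cast hQ
  have hQ0 : (0 : ℝ) < Q := by linarith
  have hRQ : 0 < R / Q := by positivity
  have hpi2 : 1 / Real.pi ^ 2 ≤ 1 / 2 := by
    apply one_div_le_one_div_of_le (by norm_num)
    nlinarith [Real.pi_gt_three]
  have hκ0 : 0 < κ := lt_of_lt_of_le (Real.exp_pos _) hκ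
  have hy0 : yl R Q 0 = Real.exp (-(R - R / Q)) := by
    unfold yl
    congr 1
    push_cast
    ring
  have hyt := yl_top hQ R
  have h01 : Real.exp (-R) ≤ yl R Q 0 := by
    rw [hy0]
    apply Real.exp_le_exp.2
    linarith
  have h12 : yl R Q 0 ≤ yl R Q (Q - 2) := yl_mono hR.le Q (Nat.zero_le _)
  have h23 : yl R Q (Q - 2) ≤ κ := by rw [hyt]; exact hκ
  have l0 : Real.log (yl R Q 0) - Real.log (Real.exp (-R)) = R / Q := by
    rw [hy0, Real.log_exp, Real.log_exp]; ring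
  have l1 : Real.log (yl R Q (Q - 2)) - Real.log (yl R Q 0) = R - 2 * (R / Q) := by
    rw [hy0, hyt, Real.log_exp, Real.log_exp]; ring
  have l2 : Real.log κ - Real.log (yl R Q (Q - 2)) ≤ R / Q := by
    rw [hyt, Real.log_exp]
    have := Real.log_nonpos hκ0.le hκ1
    have e : R / Q = 1 / Q * R := by ring
    linarith
  have a1 := cv_up (Real.exp_pos (-R)) h01 hlam (δ := R / Q / 2) (by positivity)
  have a2 := cv_up (yl_pos R Q 0) h12 hlam (δ := 1 / Real.pi ^ 2 * (2 * (R / Q))) (by positivity)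
  have a3 := cv_up (yl_pos R Q (Q - 2)) h23 hlam (δ := R / Q / 2) (by positivity)
  filter_upwards [a1, a2, a3] with T t1 t2 t3
  rw [l0] at t1
  rw [l1] at t2
  have p0 : 0 < 1 / Real.pi ^ 2 := by positivity
  refine ⟨?_, ?_, ?_⟩
  · have := mul_le_mul_of_nonneg_right hpi2 hRQ.le
    linarith
  · have e : 1 / Real.pi ^ 2 * (R - 2 * (R / Q)) + 1 / Real.pi ^ 2 * (2 * (R / Q)) =
        1 / Real.pi ^ 2 * R := by ring
    linarith
  · have h1 : 1 / Real.pi ^ 2 * (Real.log κ - Real.log (yl R Q (Q - 2))) ≤ 1 / Real.pi ^ 2 * (R / Q) :=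
      mul_le_mul_of_nonneg_left l2 p0.le
    have := mul_le_mul_of_nonneg_right hpi2 hRQ.le
    linarith

/-- the tail of the local count -/
lemma tl_Q {T L s C : ℝ} {k : ℕ} (hT : 10 ≤ T) (hL : L = Real.log T) (hLT : 2 * L + 8 ≤ T) (hs : 0 ≤ s)
    (hs8 : s ≤ 8)
    (h : ∀ V1 V2 : ℝ, T ≤ V1 → V1 ≤ V2 → V2 ≤ 2 * T →
      ∫ t in V1..V2, ‖Q1 (1 / 4) T k t‖ ^ (2 * k) ≤ 6 * T * C) :
    volume.real {t | t ∈ Icc (T + L) (2 * T - L - 8) ∧ 1 < ‖Q1 (1 / 4) T k (t + s)‖} ≤ T * (6 * C) := by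
  have hL0 : 0 < L := by rw [hL]; exact Real.log_pos (by linarith)
  have hQc : Continuous fun u => ‖Q1 (1 / 4) T k u‖ := (LG.CTAux.Q1_cont (1 / 4) T k).norm
  have h1 : ∫ t in (T + L)..(2 * T - L - 8), ‖Q1 (1 / 4) T k (t + s)‖ ^ (2 * k) ≤ 6 * T * C := by
    have e1 : ∫ t in (T + L)..(2 * T - L - 8), ‖Q1 (1 / 4) T k (t + s)‖ ^ (2 * k) =
        ∫ t in (T + L + s)..(2 * T - L - 8 + s), ‖Q1 (1 / 4) T k t‖ ^ (2 * k) :=
      intervalIntegral.integral_comp_add_right (fun t => ‖Q1 (1 / 4) T k t‖ ^ (2 * k)) s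
    rw [e1]
    exact h _ _ (by linarith) (by linarith) (by linarith)
  have h2 := mkv (P := fun t => ‖Q1 (1 / 4) T k (t + s)‖)
    (hQc.comp (by fun_prop : Continuous fun t : ℝ => t + s)) (fun t => norm_nonneg _)
    (by linarith : T + L ≤ 2 * T - L - 8) one_pos (2 * k) h1
  refine h2.trans (le_of_eq ?_)
  rw [one_pow]
  ring

end

end Pool.Agent.T6.H5.MX
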