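import Pool.Agent.T6.H5.MX.LG

/-! # The deviations of the counts on a long window: the exceptional set for one window -/

set_option autoImplicit false

namespace Pool.Agent.T6.H5.MX

open Filter Topology MeasureTheory Set
open Pool.Agent.Y743.CL (VS VS_nonneg XK)
open Pool.Agent.R320.JL (PP PP_cont nz ze)
open Pool.Agent.TH850.UV (Db XT)
open SG (NZ)
open SP (RHs Mk Q1)

noncomputable section

/-- the exceptional set of the window of length `j` -/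
def Sj (l T x y1 y2 w V V' : ℝ) (k : ℕ) (P : ℝ → ℝ) (h : ℝ) : Set ℝ :=
  ({t | t ∈ Icc T (2 * T) ∧ V < ‖PP (ze l h) (XK x T) t‖} ∪ {t | t ∈ Icc T (2 * T) ∧ V < P t}) ∪
  (({t | t ∈ Icc T (2 * T) ∧ V < ‖BB l T x y1 (t + h)‖} ∪
    {t | t ∈ Icc T (2 * T) ∧ V < ‖BB l T y2 w (t + h)‖}) ∪
  ({t | t ∈ Icc T (2 * T) ∧ V' < ‖BB l T y1 y2 (t + h)‖} ∪
    {t | t ∈ Icc (T + Real.log T) (2 * T - Real.log T - 8) ∧ 1 < ‖Q1 (1 / 4) T k (t + h)‖}))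

lemma Sj_sub {l T x y1 y2 w V V' h : ℝ} {k : ℕ} {P : ℝ → ℝ} (hT : 1 ≤ T) :
    Sj l T x y1 y2 w V V' k P h ⊆ Icc T (2 * T) := by
  have hL : 0 ≤ Real.log T := Real.log_nonneg hT
  rintro t ((h1 | h1) | ((h1 | h1) | (h1 | h1)))
  · exact h1.1
  · exact h1.1
  · exact h1.1
  · exact h1.1
  · exact h1.1
  · exact ⟨by linarith [h1.1.1], by linarith [h1.1.2]⟩

/-- the measure of the exceptional set of one window -/
lemma Sj_le {lam T x y1 y2 w V V' h W0 W1 C4 CQ WL B1 B2 : ℝ} {k m m' : ℕ} {P : ℝ → ℝ} (hT : 10 ≤ T)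
    (hLT : 2 * Real.log T + 8 ≤ T) (hh : 0 ≤ h) (hh8 : h ≤ 8)
    (hx : 0 ≤ x) (hy1 : 0 ≤ y1) (hy2 : 0 ≤ y2) (hw : 0 ≤ w)
    (hV : 0 < V) (hV' : 0 < V') (hm' : 1 ≤ m') (hC4 : 0 ≤ C4) (hWL : 0 ≤ WL) (hW0 : 0 ≤ W0) (hW1 : 0 ≤ W1)
    (mx : 4 * (m : ℝ) * x ≤ 1) (my1 : 4 * (m : ℝ) * y1 ≤ 1) (mw : 4 * (m : ℝ) * w ≤ 1)
    (my2 : 4 * (m' : ℝ) * y2 ≤ 1)
    (v1 : VS (nz (ze (Real.log T / lam) h)) (XK x T) ≤ WL)
    (v2 : cv lam T x y1 0 ≤ W0) (v3 : cv lam T y2 w 0 ≤ W0) (v4 : cv lam T y1 y2 0 ≤ W1)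
    (hPc : Continuous P) (hP0 : ∀ t, 0 ≤ P t)
    (hPI : ∫ t in T..(2 * T), P t ^ (2 * m) ≤ 18 * T * (m.factorial * C4 ^ m))
    (hQ : ∀ V1 V2 : ℝ, T ≤ V1 → V1 ≤ V2 → V2 ≤ 2 * T →
      ∫ t in V1..V2, ‖Q1 (1 / 4) T k t‖ ^ (2 * k) ≤ 6 * T * (CQ / k) ^ k)
    (t1 : (m * WL / V ^ 2) ^ m ≤ B1) (t2 : (m * C4 / V ^ 2) ^ m ≤ B1) (t3 : (m * W0 / V ^ 2) ^ m ≤ B1)
    (t4 : m' * W1 ≤ V' ^ 2) (t5 : Real.exp 1 * m' * Real.exp (-m') ≤ B2) (t6 : (CQ / k) ^ k ≤ B1) :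
    volume.real (Sj (Real.log T / lam) T x y1 y2 w V V' k P h) ≤ T * (75 * B1 + 17 * B2) := by
  have hT1 : 1 ≤ T := by linarith
  have hT0 : 0 < T := by linarith
  have a1 := tl_PP hT1 hx (ze (Real.log T / lam) h) m mx v1 0 hV
  simp only [add_zero] at a1
  have a2 := mkv hPc hP0 (by linarith : T ≤ 2 * T) hV (2 * m) hPI
  have a3 := tl_BB (x := x) (lam := lam) hT1 hy1 m my1 v2 h hV
  have a4 := tl_BB (x := y2) (lam := lam) hT1 hw m mw v3 h hV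
  have a5 := tl_BB (x := y1) (lam := lam) hT1 hy2 m' my2 v4 h hV'
  have a6 := tl_Q hT rfl hLT hh hh8 hQ
  have b1 := (fm_le m hWL hV).trans t1
  have b2 := (fm_le m hC4 hV).trans t2
  have b3 := (fm_le m hW0 hV).trans t3
  have b5 := (fm_sharp hm' hW1 hV' t4).trans t5
  have c1 : volume.real {t | t ∈ Icc T (2 * T) ∧ V < ‖PP (ze (Real.log T / lam) h) (XK x T) t‖} ≤
      T * (17 * B1) := a1.trans (by gcongr)
  have c2 : volume.real {t | t ∈ Icc T (2 * T) ∧ V < P t} ≤ T * (18 * B1) := by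
    refine a2.trans ?_
    have e : 18 * T * (m.factorial * C4 ^ m) / V ^ (2 * m) =
        T * (18 * (m.factorial * C4 ^ m / V ^ (2 * m))) := by ring
    rw [e]
    gcongr
  have c3 : volume.real {t | t ∈ Icc T (2 * T) ∧ V < ‖BB (Real.log T / lam) T x y1 (t + h)‖} ≤
      T * (17 * B1) := a3.trans (by gcongr)
  have c4 : volume.real {t | t ∈ Icc T (2 * T) ∧ V < ‖BB (Real.log T / lam) T y2 w (t + h)‖} ≤
      T * (17 * B1) := a4.trans (by gcongr)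
  have c5 : volume.real {t | t ∈ Icc T (2 * T) ∧ V' < ‖BB (Real.log T / lam) T y1 y2 (t + h)‖} ≤
      T * (17 * B2) := a5.trans (by gcongr)
  have c6 := a6.trans (by gcongr : T * (6 * (CQ / k) ^ k) ≤ T * (6 * B1))
  unfold Sj
  refine (measureReal_union_le _ _).trans ?_
  refine (add_le_add (measureReal_union_le _ _) (measureReal_union_le _ _)).trans ?_
  refine (add_le_add le_rfl (add_le_add (measureReal_union_le _ _) (measureReal_union_le _ _))).trans ?_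
  calc _ ≤ (T * (17 * B1) + T * (18 * B1)) + ((T * (17 * B1) + T * (17 * B1)) +
        (T * (17 * B2) + T * (6 * B1))) := by
        gcongr
    _ = _ := by ring

end

end Pool.Agent.T6.H5.MX
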