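import Pool.Agent.T6.H5.MX.LH

/-! # The deviations of the counts on a long window: random heights, the theorem -/

set_option autoImplicit false

namespace Pool.Agent.T6.H5.MX

open Filter Topology MeasureTheory Set
open Pool.Agent.Y743.CL (VS VS_nonneg XK)
open Pool.Agent.R320.JL (PP PP_cont nz ze)
open Pool.Agent.TH850.UV (Db XT)
open SG (NZ)
open SP (RHs Mk Q1)

noncomputable section

/-- the parameters -/
lemma params {ε1 ε2 β WL C4 CQ R : ℝ} {Q m m' k : ℕ} (hQ : 0 < (Q : ℝ)) (hε1 : 0 < ε1) (hε2 : 0 < ε2)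
    (hβ : β = (1 + Real.pi * ε1) ^ 2) (hWL : 0 ≤ WL) (hC4 : 0 ≤ C4) (hCQ : 0 ≤ CQ)
    (hQ2 : ε2 * Real.exp (6 / ε2) / ε1 ^ 2 ≤ Q) (hR : 1 ≤ R)
    (hm : m = ⌊ε2 * R⌋₊) (hm' : m' = ⌊β * R⌋₊) (hk : k = ⌈2 * Real.pi * (8 * m : ℝ)⌉₊)
    (g2 : 2 ≤ ε2 * R) (g3 : ε2 * WL / (ε1 ^ 2 * R) ≤ Real.exp (-(6 / ε2)))
    (g4 : ε2 * C4 / (ε1 ^ 2 * R) ≤ Real.exp (-(6 / ε2))) (g5 : CQ / (25 * ε2 * R) ≤ Real.exp (-(6 / ε2)))
    (g6 : 8 * ε2 * R * Real.exp (-(1 / Q * R)) ≤ 1) (g7 : 4 * β * R * Real.exp (-(1 / Q * R)) ≤ 1) :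
    2 ≤ m ∧ (m : ℝ) ≤ ε2 * R ∧ 1 ≤ m' ∧ 2 * Real.pi * (8 * m : ℝ) ≤ k ∧ (k : ℝ) ≤ 52 * m ∧
    Real.exp (-(1 / Q * R)) ≤ 1 / (8 * m) ∧ 4 * (m' : ℝ) * Real.exp (-(1 / Q * R)) ≤ 1 ∧
    (m * WL / (ε1 * R) ^ 2) ^ m ≤ Real.exp (-(3 * R)) ∧
    (m * C4 / (ε1 * R) ^ 2) ^ m ≤ Real.exp (-(3 * R)) ∧
    (m * (R / Q) / (ε1 * R) ^ 2) ^ m ≤ Real.exp (-(3 * R)) ∧
    m' * (1 / Real.pi ^ 2 * R) ≤ ((1 / Real.pi + ε1) * R) ^ 2 ∧
    Real.exp 1 * m' * Real.exp (-m') ≤ Real.exp 1 ^ 2 * β * R * Real.exp (-(β * R)) ∧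
    (CQ / k) ^ k ≤ Real.exp (-(3 * R)) := by
  have hpi := Real.pi_pos
  have hpi1 := Real.pi_gt_d2
  have hpi2 := Real.pi_lt_d2
  have hR0 : 0 < R := by linarith
  have hβ1 : 1 ≤ β := by
    rw [hβ]
    have : 0 < Real.pi * ε1 := by positivity
    nlinarith
  have hβ0 : 0 < β := by linarith
  have m1 : (m : ℝ) ≤ ε2 * R := by rw [hm]; exact Nat.floor_le (by positivity)
  have m2 : ε2 * R - 1 < m := by rw [hm]; exact Nat.sub_one_lt_floor _
  have m3 : 2 ≤ m := by rw [hm]; exact Nat.le_floor (by exact_mod_cast g2)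
  have m3r : (2 : ℝ) ≤ m := by exact_mod_cast m3
  have m4 : ε2 * R / 2 ≤ m := by linarith
  have n1 : (m' : ℝ) ≤ β * R := by rw [hm']; exact Nat.floor_le (by positivity)
  have n2 : β * R - 1 < m' := by rw [hm']; exact Nat.sub_one_lt_floor _
  have n3 : 1 ≤ m' := by
    rw [hm']
    apply Nat.le_floor
    rw [Nat.cast_one]
    nlinarith
  have n3r : (1 : ℝ) ≤ m' := by exact_mod_cast n3
  have k1 : 2 * Real.pi * (8 * m : ℝ) ≤ k := by rw [hk]; exact Nat.le_ceil _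
  have k2 : (k : ℝ) ≤ 2 * Real.pi * (8 * m : ℝ) + 1 := by
    rw [hk]; exact (Nat.ceil_lt_add_one (by positivity)).le
  have k3 : (k : ℝ) ≤ 52 * m := by nlinarith
  have k4 : 50 * (m : ℝ) ≤ k := by nlinarith
  have k5 : 25 * ε2 * R ≤ k := by linarith
  have hk0 : (0 : ℝ) < k := by linarith
  have hE := Real.exp_pos (-(1 / Q * R))
  have hV2 : (ε1 * R) ^ 2 = ε1 ^ 2 * R * R := by ring
  have gen : ∀ W : ℝ, 0 ≤ W → ε2 * W / (ε1 ^ 2 * R) ≤ Real.exp (-(6 / ε2)) →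
      (m * W / (ε1 * R) ^ 2) ^ m ≤ Real.exp (-(3 * R)) := by
    intro W hW h
    refine tlR hε2 (by positivity) ?_ m4
    refine le_trans ?_ h
    rw [hV2, div_le_div_iff₀ (by positivity) (by positivity)]
    have : (m : ℝ) * W ≤ ε2 * R * W := mul_le_mul_of_nonneg_right m1 hW
    calc (m : ℝ) * W * (ε1 ^ 2 * R) ≤ ε2 * R * W * (ε1 ^ 2 * R) :=
          mul_le_mul_of_nonneg_right this (by positivity)
      _ = _ := by ring
  refine ⟨m3, m1, n3, k1, k3, ?_, ?_, gen WL hWL g3, gen C4 hC4 g4, ?_, ?_, ?_, ?_⟩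
  · rw [le_div_iff₀ (by positivity)]
    calc Real.exp (-(1 / Q * R)) * (8 * m) ≤ Real.exp (-(1 / Q * R)) * (8 * (ε2 * R)) := by gcongr
      _ = 8 * ε2 * R * Real.exp (-(1 / Q * R)) := by ring
      _ ≤ 1 := g6
  · calc 4 * (m' : ℝ) * Real.exp (-(1 / Q * R)) ≤ 4 * (β * R) * Real.exp (-(1 / Q * R)) := by gcongr
      _ = 4 * β * R * Real.exp (-(1 / Q * R)) := by ring
      _ ≤ 1 := g7
  · refine tlR hε2 (by positivity) ?_ m4
    have h1 : (m : ℝ) * (R / Q) / (ε1 * R) ^ 2 ≤ ε2 / (ε1 ^ 2 * Q) := by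
      rw [div_le_div_iff₀ (by positivity) (by positivity)]
      calc (m : ℝ) * (R / Q) * (ε1 ^ 2 * Q) = m * (R * ε1 ^ 2) := by field_simp
        _ ≤ (ε2 * R) * (R * ε1 ^ 2) := by gcongr
        _ = ε2 * (ε1 * R) ^ 2 := by ring
    refine h1.trans ?_
    rw [div_le_iff₀ (by positivity)] at hQ2
    rw [div_le_iff₀ (by positivity), Real.exp_neg, ← div_eq_inv_mul, le_div_iff₀ (Real.exp_pos _)]
    linarith
  · have e : ((1 / Real.pi + ε1) * R) ^ 2 = (β * R) * (1 / Real.pi ^ 2 * R) := by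
      rw [hβ]
      field_simp
    rw [e]
    gcongr
  · have h1 : Real.exp (-(m' : ℝ)) ≤ Real.exp 1 * Real.exp (-(β * R)) := by
      rw [← Real.exp_add]
      apply Real.exp_le_exp.2
      linarith
    calc Real.exp 1 * m' * Real.exp (-m') ≤ Real.exp 1 * (β * R) * (Real.exp 1 * Real.exp (-(β * R))) := by
          gcongr
      _ = _ := by ring
  · refine tlR hε2 (by positivity) ?_ (by nlinarith : ε2 * R / 2 ≤ k)
    refine le_trans ?_ g5
    exact div_le_div_of_nonneg_left hCQ (by positivity) k5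

/-- **the deviations of the counts on a long window** -/
theorem LEB (hRH : RHs) {ε η : ℝ} (hε : 0 < ε) (hε1 : ε ≤ 1 / 2) (hη : 0 < η) :
    ∃ r0 : ℕ, ∀ r : ℕ, r0 ≤ r → ∃ T0 : ℝ, 10 ≤ T0 ∧ ∀ T : ℝ, T0 ≤ T →
    volume.real {t | t ∈ Icc T (2 * T) ∧ ¬ ((∀ j : ℕ, j ≤ 3 * r →
        |dv T j t| ≤ (1 / Real.pi + ε) * Real.log r) ∧
      (∃ a : ℕ, a < r / 2 ∧ (1 / Real.pi - ε) * Real.log r ≤ dv T a t) ∧
      ∃ a : ℕ, a < r / 2 ∧ dv T a t ≤ -((1 / Real.pi - ε) * Real.log r))} ≤ η * T := by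
  have hpi := Real.pi_pos
  have hpi3 := Real.pi_gt_three
  obtain ⟨CJ, hCJ, hpw⟩ := pw hRH
  obtain ⟨CM, TM, hCM, hTM, hMk⟩ := SP.Mk_bound hRH (1 / 4) (by norm_num) (by norm_num)
  obtain ⟨CQ, TQ, hCQ, hTQ, hQm⟩ := LG.CTAux.leb_mom (1 / 4) (by norm_num) (by norm_num)
  obtain ⟨C3, C4, hC3, hC4, hDb⟩ := Db_rest
  obtain ⟨CL, hCL, hlow⟩ := VS_low
  obtain ⟨ε1, hε1d⟩ : ∃ z : ℝ, z = ε / 20 := ⟨_, rfl⟩
  have hε10 : 0 < ε1 := by rw [hε1d]; positivity
  obtain ⟨ε2, hε2d⟩ : ∃ z : ℝ, z = ε1 / (208 * CJ * CM) := ⟨_, rfl⟩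
  have hε20 : 0 < ε2 := by rw [hε2d]; positivity
  have hε2e : 208 * CJ * CM * ε2 = ε1 := by rw [hε2d]; field_simp
  obtain ⟨Q, hQd⟩ : ∃ Q : ℕ, Q = ⌈max (2 / (ε / 2)) (ε2 * Real.exp (6 / ε2) / ε1 ^ 2)⌉₊ := ⟨_, rfl⟩
  have hQ1 : 2 / (ε / 2) ≤ Q := by rw [hQd]; exact (le_max_left _ _).trans (Nat.le_ceil _)
  have hQ2 : ε2 * Real.exp (6 / ε2) / ε1 ^ 2 ≤ Q := by rw [hQd]; exact (le_max_right _ _).trans (Nat.le_ceil _)
  have hQ8 : (2 : ℝ) ≤ Q := by
    refine le_trans ?_ hQ1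
    rw [le_div_iff₀ (by positivity)]
    linarith
  have hQ8n : 2 ≤ Q := by exact_mod_cast hQ8
  have hQ0 : (0 : ℝ) < Q := by linarith
  obtain ⟨β, hβ⟩ : ∃ z : ℝ, z = (1 + Real.pi * ε1) ^ 2 := ⟨_, rfl⟩
  have hβ1 : 1 < β := by
    rw [hβ]
    have : 0 < Real.pi * ε1 := by positivity
    nlinarith
  obtain ⟨η1, hη1⟩ : ∃ z : ℝ, z = η / 16 := ⟨_, rfl⟩
  have hη10 : 0 < η1 := by rw [hη1]; positivity
  obtain ⟨R0, hLB⟩ := LBT (half_pos hε) (by linarith) hQ1 (c := 8 * ε2) hη10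
  obtain ⟨R1, hR1⟩ := (evB (WL := CL * 400) (C4 := C4) (CQ := CQ) (C3 := C3) hQ0 hε10 hε20 hβ1
    hη10).exists_forall_of_atTop
  obtain ⟨r0, hr0⟩ := ((Real.tendsto_log_atTop.comp tendsto_natCast_atTop_atTop).eventually_ge_atTop
    (max R0 R1)).exists_forall_of_atTop
  refine ⟨max r0 1, fun r hr => ?_⟩
  have hrr := hr0 r ((le_max_left _ _).trans hr)
  simp only [Function.comp_apply] at hrr
  have hr1 : 1 ≤ r := (le_max_right _ _).trans hr
  have hrpos : (0 : ℝ) < r := by exact_mod_cast hr1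
  have hLBr := hLB r ((le_max_left _ _).trans hrr)
  obtain ⟨g1, g2, g3, g4, g5, g6, g7, g8, g9, g10, g11⟩ := hR1 _ ((le_max_right _ _).trans hrr)
  clear hR1 hr0 hLB
  obtain ⟨R, hR⟩ : ∃ R : ℝ, R = Real.log r := ⟨_, rfl⟩
  rw [← hR] at g1 g2 g3 g4 g5 g6 g7 g8 g9 g10 g11 hLBr ⊢
  have hRpos : 0 < R := by linarith only [g1]
  have her : Real.exp R = r := by rw [hR, Real.exp_log hrpos]
  obtain ⟨m, hm⟩ : ∃ m : ℕ, m = ⌊ε2 * R⌋₊ := ⟨_, rfl⟩
  obtain ⟨m', hm'⟩ : ∃ m' : ℕ, m' = ⌊β * R⌋₊ := ⟨_, rfl⟩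
  obtain ⟨k, hk⟩ : ∃ k : ℕ, k = ⌈2 * Real.pi * (8 * m : ℝ)⌉₊ := ⟨_, rfl⟩
  obtain ⟨p1, p2, p3, p4, p5, p6, p7, p8, p9, p10, p11, p12, p13⟩ :=
    params hQ0 hε10 hε20 hβ (by positivity : 0 ≤ CL * 400) hC4 hCQ.le hQ2 g1 hm hm' hk g2 g3 g4 g5 g6 g7
  have p1r : (2 : ℝ) ≤ m := by exact_mod_cast p1
  obtain ⟨lam, hlam⟩ : ∃ lam : ℝ, lam = 8 * m := ⟨_, rfl⟩
  rw [← hlam] at p4
  have hlam16 : 16 ≤ lam := by rw [hlam]; linarith only [p1r]
  have hlam0 : 0 < lam := by linarith only [hlam16]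
  have hlamc : lam ≤ 8 * ε2 * R := by rw [hlam]; linarith only [p2]
  obtain ⟨κ, hκ⟩ : ∃ κ : ℝ, κ = 1 / (8 * m) := ⟨_, rfl⟩
  rw [← hκ] at p6
  have hκ0 : 0 < κ := by rw [hκ]; positivity
  have hκ1 : κ ≤ 1 / 16 := by
    rw [hκ]
    apply one_div_le_one_div_of_le (by norm_num)
    linarith only [p1r]
  have hκm : 4 * (m : ℝ) * κ = 1 / 2 := by rw [hκ]; field_simp; norm_num
  have hk1 : 1 ≤ k := by
    have : (0 : ℝ) < k := lt_of_lt_of_le (by positivity) p4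
    exact_mod_cast this
  -- the ranges
  obtain ⟨x, hx⟩ : ∃ x : ℝ, x = Real.exp (-R) := ⟨_, rfl⟩
  obtain ⟨y1, hy1⟩ : ∃ y : ℝ, y = yl R Q 0 := ⟨_, rfl⟩
  obtain ⟨y2, hy2⟩ : ∃ y : ℝ, y = yl R Q (Q - 2) := ⟨_, rfl⟩
  have hx0 : 0 < x := by rw [hx]; exact Real.exp_pos _
  have hxr : x * r = 1 := by rw [hx, ← her, ← Real.exp_add]; simp
  have hy2e : y2 = Real.exp (-(1 / Q * R)) := by rw [hy2]; exact yl_top hQ8n R
  have hxy1 : x ≤ y1 := by
    rw [hx, hy1]
    unfold yl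
    apply Real.exp_le_exp.2
    have h1 : 0 ≤ R * ((((0 : ℕ) : ℝ) + 1) / Q) := by positivity
    linarith only [h1]
  have hy12 : y1 ≤ y2 := by rw [hy1, hy2]; exact yl_mono hRpos.le Q (Nat.zero_le _)
  have hy2κ : y2 ≤ κ := by rw [hy2e]; exact p6
  have hy10 : 0 < y1 := by rw [hy1]; exact yl_pos _ _ _
  have hy20 : 0 < y2 := by rw [hy2]; exact yl_pos _ _ _
  obtain ⟨TL, hTL, hLBT⟩ := hLBr lam (by linarith only [hlam16]) hlamc
  obtain ⟨Tp, hTp, hpwT⟩ := hpw lam hlam16 (3 * r + 1) (by positivity)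
  obtain ⟨Td, hTd, hDbT⟩ := hDb m (by omega) lam (by rw [hlam])
  have hvT := evT hQ8n hRpos hlam0 (by linarith only [hκ1] : κ ≤ 1) p6
  rw [← hx, ← hy1, ← hy2] at hvT
  have hlogT : ∀ᶠ T : ℝ in atTop, 1 ≤ x * Real.log T ∧ 2 * Real.pi * (3 * r) ≤ 8 * Real.log T ∧
      2 * Real.log T + 8 ≤ η1 * T ∧ 2 * Real.log T + 8 ≤ T := by
    have h1 : (fun T : ℝ => 2 * Real.log T + 8) =o[atTop] fun T : ℝ => T :=
      (Real.isLittleO_log_id_atTop.const_mul_left 2).add (Asymptotics.isLittleO_const_id_atTop _)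
    have h2 := h1.bound hη10
    have h3 := h1.bound one_pos
    have h4 := Real.tendsto_log_atTop.eventually_ge_atTop (1 / x)
    have h5 := Real.tendsto_log_atTop.eventually_ge_atTop (2 * Real.pi * (3 * r) / 8)
    filter_upwards [h2, h3, h4, h5, eventually_ge_atTop 1] with T b1 b2 b3 b4 b5
    rw [Real.norm_of_nonneg (by linarith : (0 : ℝ) ≤ T)] at b1 b2
    refine ⟨?_, by linarith only [b4], (le_abs_self _).trans b1, ?_⟩
    · rw [div_le_iff₀ hx0] at b3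
      linarith only [b3]
    · have := (le_abs_self _).trans b2
      linarith only [this]
  obtain ⟨Te, hTe⟩ := (hvT.and hlogT).exists_forall_of_atTop
  refine ⟨max (max (max TL Tp) (max Td Te)) (max TM TQ), ?_, fun T hT => ?_⟩
  · exact hTL.trans ((le_max_left _ _).trans ((le_max_left _ _).trans (le_max_left _ _)))
  have hTTL : TL ≤ T := ((le_max_left _ _).trans ((le_max_left _ _).trans (le_max_left _ _))).trans hT
  have hTTp : Tp ≤ T := ((le_max_right _ _).trans ((le_max_left _ _).trans (le_max_left _ _))).trans hT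
  have hTTd : Td ≤ T := ((le_max_left _ _).trans ((le_max_right _ _).trans (le_max_left _ _))).trans hT
  have hTTe : Te ≤ T := ((le_max_right _ _).trans ((le_max_right _ _).trans (le_max_left _ _))).trans hT
  have hTTM : TM ≤ T := ((le_max_left _ _).trans (le_max_right _ _)).trans hT
  have hTTQ : TQ ≤ T := ((le_max_right _ _).trans (le_max_right _ _)).trans hT
  have hT10 : 10 ≤ T := hTL.trans hTTL
  have hT0 : 0 < T := by linarith only [hT10]
  have hT1 : 1 ≤ T := by linarith only [hT10]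
  obtain ⟨⟨cv1, cv2, cv3⟩, l1, l2, l3, l4⟩ := hTe T hTTe
  have hB1 := hLBT T hTTL 1 (by norm_num)
  have hB2 := hLBT T hTTL (-1) (by norm_num)
  rw [← hy1, ← hy2] at hB1 hB2
  have hpw2 := hpwT T hTTp
  have hDb2 := hDbT T hTTd
  have hMk2 := hMk T hTTM
  have hQm2 := hQm T hTTQ k hk1
  clear hTe hLBT hpwT hDbT hMk hQm hpw hDb
  obtain ⟨L, hL⟩ : ∃ L : ℝ, L = Real.log T := ⟨_, rfl⟩
  have hL0 : 0 < L := by rw [hL]; exact Real.log_pos (by linarith only [hT10])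
  choose P hPc hP0 hPd hPI using hDb2
  rw [← hκ] at hPd
  obtain ⟨hw, hwd⟩ : ∃ hw : ℕ → ℝ, ∀ j, hw j = 2 * Real.pi * j / Real.log T := ⟨_, fun _ => rfl⟩
  have hw0 : ∀ j, 0 ≤ hw j := by
    intro j
    rw [hwd, ← hL]
    positivity
  have hw8 : ∀ j : ℕ, j ≤ 3 * r → hw j ≤ 8 := by
    intro j hj
    rw [hwd, div_le_iff₀ (by rw [← hL]; exact hL0)]
    have hjr : (j : ℝ) ≤ 3 * r := by exact_mod_cast hj
    have : 2 * Real.pi * (j : ℝ) ≤ 2 * Real.pi * (3 * r) := by gcongr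
    linarith only [this, l2]
  obtain ⟨V, hV⟩ : ∃ V : ℝ, V = ε1 * R := ⟨_, rfl⟩
  obtain ⟨V', hV'⟩ : ∃ V' : ℝ, V' = (1 / Real.pi + ε1) * R := ⟨_, rfl⟩
  have hV0 : 0 < V := by rw [hV]; positivity
  have hV'0 : 0 < V' := by rw [hV']; positivity
  rw [← hV] at p8 p9 p10 g11
  rw [← hV'] at p11
  obtain ⟨S, hS⟩ : ∃ S : ℕ → Set ℝ, S = fun j => Sj (Real.log T / lam) T x y1 y2 κ V V' k (P (hw j)) (hw j) :=
    ⟨_, rfl⟩
  obtain ⟨B1, hB1d⟩ : ∃ B1 : ℝ, B1 = Real.exp (-(3 * R)) := ⟨_, rfl⟩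
  obtain ⟨B2, hB2d⟩ : ∃ B2 : ℝ, B2 = Real.exp 1 ^ 2 * β * R * Real.exp (-(β * R)) := ⟨_, rfl⟩
  rw [← hB1d] at p8 p9 p10 p13
  rw [← hB2d] at p12
  have m4κ : 4 * (m : ℝ) * κ ≤ 1 := by linarith only [hκm]
  have hSle : ∀ j ∈ Finset.range (3 * r + 1), volume.real (S j) ≤ T * (75 * B1 + 17 * B2) := by
    intro j hj
    rw [Finset.mem_range] at hj
    have hj3 : j ≤ 3 * r := by omega
    have hjr : (j : ℝ) ≤ 3 * r := by exact_mod_cast hj3
    have hm0 : (0 : ℝ) ≤ 4 * m := by positivity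
    rw [hS]
    refine Sj_le (m := m) (m' := m') (C4 := C4) (CQ := CQ) (WL := CL * 400) (W0 := R / Q)
      (W1 := 1 / Real.pi ^ 2 * R) hT10 l4 (hw0 j) (hw8 j hj3) hx0.le hy10.le hy20.le hκ0.le hV0 hV'0 p3
      hC4 (by positivity) (by positivity) (by positivity) ?_ ?_ m4κ ?_ ?_ cv1 cv3 cv2 (hPc _) (hP0 _) ?_
      hQm2 p8 p9 p10 p11 p12 p13
    · exact (mul_le_mul_of_nonneg_left (hxy1.trans (hy12.trans hy2κ)) hm0).trans m4κ
    · exact (mul_le_mul_of_nonneg_left (hy12.trans hy2κ) hm0).trans m4κ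
    · rw [hy2e]; exact p7
    · refine (hlow (Real.log T / lam) (hw j) T x (by rw [← hL]; positivity) hT10 hx0.le l1).trans ?_
      apply mul_le_mul_of_nonneg_left _ hCL.le
      have e : hw j * (x * Real.log T) = 2 * Real.pi * (j * x) := by
        rw [hwd, ← hL]
        field_simp
      rw [e]
      have h1 : (j : ℝ) * x ≤ 3 := by
        calc (j : ℝ) * x ≤ 3 * r * x := mul_le_mul_of_nonneg_right hjr hx0.le
          _ = 3 * (x * r) := by ring
          _ = 3 := by rw [hxr]; norm_num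
      have h2 : 2 * Real.pi * (j * x) ≤ 20 := by
        have h3 : 2 * Real.pi * (j * x) ≤ 2 * Real.pi * 3 := by gcongr
        have := Real.pi_lt_d2
        linarith only [h3, this]
      have h4 : 0 ≤ 2 * Real.pi * (j * x) := by positivity
      nlinarith only [h2, h4]
    · exact hPI (hw j) T (2 * T) (by linarith only [hT0]) (by linarith only)
  -- the other exceptional sets
  obtain ⟨S0, hS0⟩ : ∃ S0 : Set ℝ, S0 = {t | t ∈ Icc T (2 * T) ∧
    V < ‖BB (Real.log T / lam) T y1 y2 (t + 0)‖} := ⟨_, rfl⟩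
  have hS0le : volume.real S0 ≤ η1 * T := by
    have h1 := tl_BB (x := y1) (lam := lam) hT1 hy20.le 1 (by
      rw [Nat.cast_one]
      linarith only [hy2κ, hκ1]) cv2 0 hV0
    rw [← hS0] at h1
    refine h1.trans ?_
    have h2 : 17 * ((Nat.factorial 1 : ℝ) * (1 / Real.pi ^ 2 * R) ^ 1 / V ^ (2 * 1)) ≤ 2 / (ε1 ^ 2 * R) := by
      rw [hV, Nat.factorial_one, Nat.cast_one, pow_one, one_mul, mul_one]
      have e : 17 * (1 / Real.pi ^ 2 * R / (ε1 * R) ^ 2) = (17 / Real.pi ^ 2) / (ε1 ^ 2 * R) := by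
        field_simp
      rw [e]
      apply div_le_div_of_nonneg_right _ (by positivity)
      rw [div_le_iff₀ (by positivity)]
      have := Real.pi_gt_d2
      nlinarith only [this]
    have h3 := mul_le_mul_of_nonneg_left (h2.trans g10) hT0.le
    linarith only [h3]
  obtain ⟨E0, hE0⟩ : ∃ E0 : Set ℝ, E0 = Icc T (T + L) ∪ Icc (2 * T - L - 8) (2 * T) := ⟨_, rfl⟩
  have hE0le : volume.real E0 ≤ η1 * T := by
    rw [hE0]
    refine (measureReal_union_le _ _).trans ?_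
    rw [Real.volume_real_Icc, Real.volume_real_Icc, max_eq_left (by linarith only [hL0]),
      max_eq_left (by linarith only [hL0])]
    rw [← hL] at l3
    linarith only [l3]
  obtain ⟨N1, hN1⟩ : ∃ N1 : Set ℝ, N1 = {t | t ∈ Icc T (2 * T) ∧ ∀ a : ℕ, a < r / 2 →
      1 * (BB (Real.log T / lam) T y1 y2 (t + 2 * Real.pi * a / Real.log T)).im <
        (1 / Real.pi - ε / 2) * R} := ⟨_, rfl⟩
  obtain ⟨N2, hN2⟩ : ∃ N2 : Set ℝ, N2 = {t | t ∈ Icc T (2 * T) ∧ ∀ a : ℕ, a < r / 2 →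
      -1 * (BB (Real.log T / lam) T y1 y2 (t + 2 * Real.pi * a / Real.log T)).im <
        (1 / Real.pi - ε / 2) * R} := ⟨_, rfl⟩
  rw [← hN1] at hB1
  rw [← hN2] at hB2
  have hunion : volume.real ((⋃ j ∈ Finset.range (3 * r + 1), S j) ∪ (S0 ∪ (E0 ∪ (N1 ∪ N2)))) ≤ η * T := by
    refine (measureReal_union_le _ _).trans ?_
    have h1 := measureReal_biUnion_finset_le (μ := volume) (Finset.range (3 * r + 1)) S
    have h2 := (measureReal_union_le (μ := volume) S0 (E0 ∪ (N1 ∪ N2)))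
    have h3 := (measureReal_union_le (μ := volume) E0 (N1 ∪ N2))
    have h4 := (measureReal_union_le (μ := volume) N1 N2)
    have h5 := h1.trans (Finset.sum_le_sum hSle)
    rw [Finset.sum_const, Finset.card_range, nsmul_eq_mul] at h5
    have h6 : ((3 * r + 1 : ℕ) : ℝ) * (T * (75 * B1 + 17 * B2)) ≤ 2 * η1 * T := by
      have h7 : ((3 * r + 1 : ℕ) : ℝ) ≤ 4 * r := by
        have : 3 * r + 1 ≤ 4 * r := by omega
        exact_mod_cast this
      have h8 : (r : ℝ) * (300 * B1) ≤ η1 := by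
        rw [hB1d, ← her]
        have e : Real.exp R * (300 * Real.exp (-(3 * R))) = 300 * Real.exp (-(2 * R)) := by
          rw [mul_left_comm, ← Real.exp_add]; congr 2; ring
        rw [e]
        have := Real.exp_pos (-(2 * R))
        linarith only [g9, this]
      have h9 : (r : ℝ) * (68 * B2) ≤ η1 := by
        rw [hB2d, ← her]
        have e : Real.exp R * (68 * (Real.exp 1 ^ 2 * β * R * Real.exp (-(β * R)))) =
            68 * Real.exp 1 ^ 2 * β * R * Real.exp (-((β - 1) * R)) := by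
          have e2 : Real.exp (-((β - 1) * R)) = Real.exp R * Real.exp (-(β * R)) := by
            rw [← Real.exp_add]; congr 1; ring
          rw [e2]
          ring
        rw [e]
        exact g8
      have hB10 : 0 ≤ B1 := by rw [hB1d]; exact (Real.exp_pos _).le
      have hB20 : 0 ≤ B2 := by
        rw [hB2d]
        have : 0 < β := by linarith only [hβ1]
        positivity
      calc ((3 * r + 1 : ℕ) : ℝ) * (T * (75 * B1 + 17 * B2)) ≤ (4 * r) * (T * (75 * B1 + 17 * B2)) := by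
            apply mul_le_mul_of_nonneg_right h7
            positivity
        _ = (r * (300 * B1) + r * (68 * B2)) * T := by ring
        _ ≤ (η1 + η1) * T := mul_le_mul_of_nonneg_right (by linarith only [h8, h9]) hT0.le
        _ = _ := by ring
    have h10 : 6 * η1 * T ≤ η * T := by
      apply mul_le_mul_of_nonneg_right _ hT0.le
      rw [hη1]
      linarith only [hη]
    linarith only [h2, h3, h4, h5, h6, h10, hS0le, hE0le, hB1, hB2]
  refine le_trans (measureReal_mono ?_ ?_) hunion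
  · intro t ht
    obtain ⟨ht1, ht2⟩ := ht
    by_contra hcon
    apply ht2
    rw [mem_union, mem_union, mem_union, mem_union] at hcon
    push Not at hcon
    obtain ⟨k1, k2, k3, k4, k5⟩ := hcon
    have ht3 : T + L ≤ t ∧ t ≤ 2 * T - L - 8 := by
      rw [hE0, mem_union] at k3
      push Not at k3
      obtain ⟨k6, k7⟩ := k3
      constructor
      · by_contra h
        exact k6 ⟨ht1.1, (not_le.1 h).le⟩
      · by_contra h
        exact k7 ⟨(not_le.1 h).le, ht1.2⟩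
    -- the pieces
    have hpc : ∀ j : ℕ, j ≤ 3 * r → ‖PP (ze (Real.log T / lam) (hw j)) (XK x T) t‖ ≤ V ∧ P (hw j) t ≤ V ∧
        ‖BB (Real.log T / lam) T x y1 (t + hw j)‖ ≤ V ∧ ‖BB (Real.log T / lam) T y2 κ (t + hw j)‖ ≤ V ∧
        ‖BB (Real.log T / lam) T y1 y2 (t + hw j)‖ ≤ V' ∧ ‖Q1 (1 / 4) T k (t + hw j)‖ ≤ 1 := by
      intro j hj
      have h1 : t ∉ S j := fun h => k1 (mem_biUnion (Finset.mem_coe.2 (Finset.mem_range.2 (by omega))) h)
      rw [hS] at h1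
      unfold Sj at h1
      simp only [mem_union, mem_ofPred_eq] at h1
      push Not at h1
      obtain ⟨⟨a1, a2⟩, ⟨a3, a4⟩, a5, a6⟩ := h1
      refine ⟨a1 ht1, a2 ht1, a3 ht1, a4 ht1, a5 ht1, a6 ⟨?_, ?_⟩⟩
      · rw [← hL]; exact ht3.1
      · rw [← hL]; exact ht3.2
    have hw00 : hw 0 = 0 := by rw [hwd]; simp
    obtain ⟨z1, z2, z3, z4, z5, z6⟩ := hpc 0 (Nat.zero_le _)
    rw [hw00, add_zero] at z3 z4 z5 z6
    have z7 : ‖BB (Real.log T / lam) T y1 y2 t‖ ≤ V := by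
      by_contra h
      apply k2
      rw [hS0]
      refine ⟨ht1, ?_⟩
      rw [add_zero]
      exact not_le.1 h
    have hclose : ∀ j : ℕ, j ≤ 3 * r →
        |dv T j t - (BB (Real.log T / lam) T y1 y2 (t + hw j)).im| ≤ 9 * V := by
      intro j hj
      obtain ⟨a1, a2, a3, a4, a5, a6⟩ := hpc j hj
      have hjr : (j : ℝ) ≤ 3 * r + 1 := by
        have : (j : ℝ) ≤ 3 * r := by exact_mod_cast hj
        linarith only [this]
      have b1 := hpw2 j (Nat.cast_nonneg j) hjr k p4 t (by rw [← hL]; exact ht3.1)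
        (by rw [← hL]; exact ht3.2)
      rw [← hwd] at b1
      have b2 := hPd (hw j) t
      have b3 := hMk2 t (by rw [← hL]; exact ht3.1) (by rw [← hL]; linarith only [ht3.2]) k hk1
      have hj8 := hw8 j hj
      have hj0 := hw0 j
      have b4 := hMk2 (t + hw j) (by rw [← hL]; linarith only [ht3.1, hj0])
        (by rw [← hL]; linarith only [ht3.2, hj8]) k hk1
      have b5 : CJ * (Mk T k t + Mk T k (t + hw j)) ≤ V := by
        have c1 : Mk T k t ≤ CM * k * 2 := by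
          refine b3.trans ?_
          apply mul_le_mul_of_nonneg_left _ (by positivity)
          linarith only [z6]
        have c2 : Mk T k (t + hw j) ≤ CM * k * 2 := by
          refine b4.trans ?_
          apply mul_le_mul_of_nonneg_left _ (by positivity)
          linarith only [a6]
        calc CJ * (Mk T k t + Mk T k (t + hw j)) ≤ CJ * (CM * k * 2 + CM * k * 2) := by gcongr
          _ = 4 * CJ * CM * k := by ring
          _ ≤ 4 * CJ * CM * (52 * (ε2 * R)) := by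
              apply mul_le_mul_of_nonneg_left _ (by positivity)
              linarith only [p5, p2]
          _ = (208 * CJ * CM * ε2) * R := by ring
          _ = V := by rw [hε2e, hV]
      have := det hT1 hxy1 hy12 hy2κ b1 b2 a1 a2 z3 a3 z4 a4 z7 b5 g11 le_rfl
      unfold dv
      rw [← hwd]
      exact this
    have hV9 : 9 * V + ε1 * R ≤ ε / 2 * R := by
      rw [hV, hε1d]
      linarith only
    refine ⟨fun j hj => ?_, ?_, ?_⟩
    · have h1 := hclose j hj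
      obtain ⟨-, -, -, -, a5, -⟩ := hpc j hj
      have h2 := (Complex.abs_im_le_norm _).trans a5
      have h3 := abs_le.1 h1
      have h4 := abs_le.1 h2
      have h5 : 0 < ε * R := by positivity
      rw [hV'] at h4
      rw [abs_le]
      constructor
      · linarith only [h3.1, h3.2, h4.1, h4.2, hV9, h5]
      · linarith only [h3.1, h3.2, h4.1, h4.2, hV9, h5]
    · rw [hN1] at k4
      have h1 : ∃ a : ℕ, a < r / 2 ∧ (1 / Real.pi - ε / 2) * R ≤
          1 * (BB (Real.log T / lam) T y1 y2 (t + 2 * Real.pi * a / Real.log T)).im := by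
        by_contra h
        push Not at h
        exact k4 ⟨ht1, h⟩
      obtain ⟨a, ha, h2⟩ := h1
      refine ⟨a, ha, ?_⟩
      have h3 := (abs_le.1 (hclose a (by omega))).1
      rw [hwd] at h3
      have h5 : 0 < ε1 * R := by positivity
      linarith only [h2, h3, hV9, h5]
    · rw [hN2] at k5
      have h1 : ∃ a : ℕ, a < r / 2 ∧ (1 / Real.pi - ε / 2) * R ≤
          -1 * (BB (Real.log T / lam) T y1 y2 (t + 2 * Real.pi * a / Real.log T)).im := by
        by_contra h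
        push Not at h
        exact k5 ⟨ht1, h⟩
      obtain ⟨a, ha, h2⟩ := h1
      refine ⟨a, ha, ?_⟩
      have h3 := (abs_le.1 (hclose a (by omega))).2
      rw [hwd] at h3
      have h5 : 0 < ε1 * R := by positivity
      linarith only [h2, h3, hV9, h5]
  · apply ne_top_of_le_ne_top (b := volume (Icc T (2 * T)))
    · simp [Real.volume_Icc]
    · refine measure_mono ?_
      refine union_subset (iUnion₂_subset fun j _ => ?_) (union_subset ?_ (union_subset ?_ (union_subset ?_ ?_)))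
      · rw [hS]
        exact Sj_sub hT1
      · rw [hS0]
        exact fun t ht => ht.1
      · rw [hE0]
        rw [← hL] at l4
        apply union_subset
        · exact Icc_subset_Icc le_rfl (by linarith only [l4, hL0])
        · exact Icc_subset_Icc (by linarith only [l4, hL0]) le_rfl
      · rw [hN1]
        exact fun t ht => ht.1
      · rw [hN2]
        exact fun t ht => ht.1

end

end Pool.Agent.T6.H5.MX
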