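import Pool.Agent.T6.H5.MX.LI
import Pool.Agent.R320.JL.Blk
import Pool.Agent.R320.VQ.TailN

/-! # The deviations of the counts on a long window: from heights to zeros -/

set_option autoImplicit false

namespace Pool.Agent.T6.H5.MX

open Filter Topology MeasureTheory Set
open SG (ord NZ)
open SP (RHs)
open Pool.Agent.Y743.NC (ff dev dev_nonneg dev_int)
open Pool.Agent.Y743.LR (yv)
open Pool.Agent.R320.CL (SS)
open Pool.Agent.R320.JL (YY YY_meas SS_gL varB palmF)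

noncomputable section

/-- the deterministic step: counts and gap sums -/
lemma zer {T t M D v E0 : ℝ} {n r : ℕ} (hT : 1 < T) (hn : 1 ≤ n) (hM : 0 ≤ M)
    (t1 : ord n - M * (2 * Real.pi / Real.log T) ≤ t) (t2 : t < ord n)
    (hE : M + dv T M t ≤ E0) (hD : 0 ≤ D) (hMv : M < v) (hEv : E0 + 1 ≤ v)
    (q1 : (r : ℝ) / 2 + D ≤ r) (q2 : (r : ℝ) + E0 + D ≤ 3 * r)
    (ha : ∀ j : ℕ, j ≤ 3 * r → |dv T j t| ≤ D)
    (hb : ∃ a : ℕ, a < r / 2 ∧ v ≤ dv T a t) (hc : ∃ a : ℕ, a < r / 2 ∧ dv T a t ≤ -v) :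
    (∀ b : ℕ, b ≤ r → |ff T b n| ≤ D + E0 + M) ∧
    (∃ b : ℕ, 1 ≤ b ∧ b ≤ r ∧ v - M ≤ ff T b n) ∧
    ∃ b : ℕ, 1 ≤ b ∧ b ≤ r ∧ ff T b n ≤ -(v - E0) := by
  have hpi := Real.pi_pos
  have hL : 0 < Real.log T := Real.log_pos hT
  obtain ⟨c, hc0⟩ : ∃ c : ℝ, c = 2 * Real.pi / Real.log T := ⟨_, rfl⟩
  have hcp : 0 < c := by rw [hc0]; positivity
  have hpos : ∀ a : ℝ, t + 2 * Real.pi * a / Real.log T = t + a * c := by intro a; rw [hc0]; ring
  -- the place of an ordinate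
  have key : ∀ (a : ℝ) (m : ℕ), 1 ≤ m → (m ≤ NZ (t + a * c) ↔ (ord m - t) / c ≤ a) := by
    intro a m hm
    rw [← SG.ord_le_iff hm, div_le_iff₀ hcp]
    constructor <;> intro h <;> linarith
  have hdv : ∀ a : ℝ, (NZ (t + a * c) : ℝ) = NZ t + a + dv T a t := by
    intro a
    unfold dv
    rw [hpos]
    ring
  have hff : ∀ b : ℕ, ff T b n = (ord (n + b) - t) / c - (ord n - t) / c - b := by
    intro b
    unfold ff yv
    rw [hc0]
    field_simp
    ring
  obtain ⟨y, hy⟩ : ∃ y : ℝ, y = (ord n - t) / c := ⟨_, rfl⟩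
  have hy0 : 0 < y := by rw [hy]; exact div_pos (by linarith) hcp
  have hyM : y ≤ M := by
    rw [hy, div_le_iff₀ hcp, hc0]
    linarith
  obtain ⟨i, hi⟩ : ∃ i : ℝ, i = (n : ℝ) - NZ t := ⟨_, rfl⟩
  have hi1 : 1 ≤ i := by
    have h1 : NZ t < n := by
      by_contra hcon
      push Not at hcon
      have := (SG.ord_le_iff hn _).mpr hcon
      linarith
    have h2 : (NZ t : ℝ) + 1 ≤ n := by exact_mod_cast h1
    linarith
  have hnM : n ≤ NZ (t + M * c) := (key M n hn).2 (by rw [← hy]; exact hyM)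
  have hiE : i ≤ E0 := by
    have h1 : (n : ℝ) ≤ NZ (t + M * c) := by exact_mod_cast hnM
    rw [hdv] at h1
    linarith
  simp only [hff, ← hy]
  refine ⟨fun b hb0 => ?_, ?_, ?_⟩
  · have hbr : (b : ℝ) ≤ r := by exact_mod_cast hb0
    obtain ⟨x, hx⟩ : ∃ x : ℝ, x = (ord (n + b) - t) / c := ⟨_, rfl⟩
    rw [← hx]
    have hnb : 1 ≤ n + b := by omega
    -- the upper bound
    have hup : x ≤ b + i + D := by
      obtain ⟨a0, ha0⟩ : ∃ a0 : ℕ, a0 = ⌊(b : ℝ) + i - 1 + D⌋₊ + 1 := ⟨_, rfl⟩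
      have h0 : 0 ≤ (b : ℝ) + i - 1 + D := by
        have : (0 : ℝ) ≤ b := Nat.cast_nonneg _
        linarith
      have h1 : (a0 : ℝ) ≤ b + i + D := by
        rw [ha0]; push_cast
        have := Nat.floor_le h0
        linarith
      have h2 : (b : ℝ) + i - 1 + D < a0 := by
        rw [ha0]; push_cast
        exact Nat.lt_floor_add_one _
      have h3 : a0 ≤ 3 * r := by
        have : (a0 : ℝ) ≤ ((3 * r : ℕ) : ℝ) := by push_cast; linarith
        exact_mod_cast this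
      have h4 := (abs_le.1 (ha a0 h3)).1
      have h5 := hdv a0
      have h6 : (n : ℝ) + b - 1 < NZ (t + a0 * c) := by rw [h5]; linarith
      have h7 : n + b ≤ NZ (t + a0 * c) := by
        have : ((n + b : ℕ) : ℝ) < ((NZ (t + a0 * c) + 1 : ℕ) : ℝ) := by push_cast; linarith
        have := Nat.cast_lt.1 this
        omega
      have h8 := (key a0 (n + b) hnb).1 h7
      rw [← hx] at h8
      linarith
    have hlo : b + i - D - 1 ≤ x := by
      by_contra hcon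
      push Not at hcon
      have hx0 : 0 ≤ x := by
        rw [hx]
        apply div_nonneg _ hcp.le
        have := SG.ord_mono hn (show n ≤ n + b by omega)
        linarith
      obtain ⟨a0, ha0⟩ : ∃ a0 : ℕ, a0 = ⌈x⌉₊ := ⟨_, rfl⟩
      have h1 : x ≤ a0 := by rw [ha0]; exact Nat.le_ceil _
      have h2 : (a0 : ℝ) < x + 1 := by rw [ha0]; exact Nat.ceil_lt_add_one hx0
      have h3 : a0 ≤ 3 * r := by
        have : (a0 : ℝ) ≤ ((3 * r : ℕ) : ℝ) := by push_cast; linarith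
        exact_mod_cast this
      have h4 := (abs_le.1 (ha a0 h3)).2
      have h5 := hdv a0
      have h6 : n + b ≤ NZ (t + a0 * c) := (key a0 (n + b) hnb).2 (by rw [← hx]; exact h1)
      have h7 : (n : ℝ) + b ≤ NZ (t + a0 * c) := by exact_mod_cast h6
      rw [h5] at h7
      linarith
    rw [abs_le]
    constructor <;> linarith
  · obtain ⟨a, ha1, ha2⟩ := hc
    obtain ⟨P, hP⟩ : ∃ P : ℕ, P = NZ (t + a * c) := ⟨_, rfl⟩
    have h5 := hdv a
    rw [← hP] at h5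
    have har : (a : ℝ) + 1 ≤ r := by
      have h1 : a + 1 ≤ r := by omega
      exact_mod_cast h1
    have hmon : NZ t ≤ P := by
      rw [hP]
      exact SG.NZ_mono (by have : (0 : ℝ) ≤ a * c := by positivity
                           linarith)
    have hmonr : (NZ t : ℝ) ≤ P := by exact_mod_cast hmon
    have hMa : M ≤ a := by linarith
    have hnP : n ≤ P := by
      rw [hP]
      exact (key a n hn).2 (by rw [← hy]; linarith)
    refine ⟨P + 1 - n, by omega, ?_, ?_⟩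
    · have h1 : (((P + 1 - n : ℕ) : ℝ)) = P + 1 - n := by
        rw [Nat.cast_sub (by omega)]; push_cast; ring
      have h2 : (((P + 1 - n : ℕ) : ℝ)) ≤ r := by rw [h1]; linarith
      exact_mod_cast h2
    · have h1 : (((P + 1 - n : ℕ) : ℝ)) = P + 1 - n := by
        rw [Nat.cast_sub (by omega)]; push_cast; ring
      have h2 : n + (P + 1 - n) = P + 1 := by omega
      rw [h1, h2]
      have h3 : (a : ℝ) < (ord (P + 1) - t) / c := by
        by_contra hcon
        push Not at hcon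
        have h4 := (key a (P + 1) (by omega)).2 hcon
        rw [← hP] at h4
        omega
      linarith
  · obtain ⟨a, ha1, ha2⟩ := hb
    obtain ⟨P, hP⟩ : ∃ P : ℕ, P = NZ (t + a * c) := ⟨_, rfl⟩
    have h5 := hdv a
    rw [← hP] at h5
    have har : (a : ℝ) ≤ (r : ℝ) / 2 := by
      have h1 : 2 * a ≤ r := by omega
      have h2 : 2 * (a : ℝ) ≤ r := by exact_mod_cast h1
      linarith
    have h6 := (abs_le.1 (ha a (by omega))).2
    have hnP : n + 1 ≤ P := by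
      have : ((n + 1 : ℕ) : ℝ) ≤ P := by push_cast; linarith
      exact_mod_cast this
    have h1 : (((P - n : ℕ) : ℝ)) = P - n := by
      rw [Nat.cast_sub (by omega)]
    refine ⟨P - n, by omega, ?_, ?_⟩
    · have h2 : (((P - n : ℕ) : ℝ)) ≤ r := by rw [h1]; linarith
      exact_mod_cast h2
    · have h2 : n + (P - n) = P := by omega
      rw [h1, h2]
      have h3 : (ord P - t) / c ≤ a := (key a P (by omega)).1 (by rw [hP])
      linarith

/-- the good zeros -/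
def Gd (r : ℕ) (D v : ℝ) (n : ℕ) : Prop :=
  (∀ b : ℕ, b ≤ r → |SS b n - b| ≤ D) ∧
    (∃ b : ℕ, 1 ≤ b ∧ b ≤ r ∧ v ≤ SS b n - b) ∧ ∃ b : ℕ, 1 ≤ b ∧ b ≤ r ∧ SS b n - b ≤ -v

lemma Gd_of_ff {T D v1 v2 v : ℝ} {n r : ℕ} (hT : 100 ≤ T) (hn : 1 ≤ n) (h1 : T ≤ ord n) (h2 : ord n ≤ 2 * T)
    (hr : 48 * ((r : ℝ) + D) ≤ Real.log T)
    (g1 : ∀ b : ℕ, b ≤ r → |ff T b n| ≤ D) (g2 : ∃ b : ℕ, 1 ≤ b ∧ b ≤ r ∧ v1 ≤ ff T b n)
    (g3 : ∃ b : ℕ, 1 ≤ b ∧ b ≤ r ∧ ff T b n ≤ -v2) (hv1 : v + 1 ≤ v1) (hv2 : v + 1 ≤ v2) :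
    Gd r (D + 1) v n := by
  have hpi := Real.pi_pos
  have hL : 0 < Real.log T := Real.log_pos (by linarith)
  have hcmp : ∀ b : ℕ, b ≤ r → |SS b n - b - ff T b n| ≤ 1 := by
    intro b hb
    have hbr : (b : ℝ) ≤ r := by exact_mod_cast hb
    have e1 : (ord (n + b) - ord n) / (2 * Real.pi) * Real.log T = b + ff T b n := by
      unfold ff yv
      ring
    have e2 : (ord (n + b) - ord n) / (2 * Real.pi) ≤ 1 / 48 := by
      have h3 := (abs_le.1 (g1 b hb)).2
      have h4 : (ord (n + b) - ord n) / (2 * Real.pi) * Real.log T ≤ 1 / 48 * Real.log T := by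
        rw [e1]; linarith
      exact le_of_mul_le_mul_right h4 hL
    have h5 := SS_gL hT (r := b) hn h1 h2 (by linarith)
    linarith
  refine ⟨fun b hb => ?_, ?_, ?_⟩
  · have h3 := abs_le.1 (g1 b hb)
    have h4 := abs_le.1 (hcmp b hb)
    rw [abs_le]
    constructor <;> linarith [h3.1, h3.2, h4.1, h4.2]
  · obtain ⟨b, hb1, hb2, hb3⟩ := g2
    have h4 := abs_le.1 (hcmp b hb2)
    exact ⟨b, hb1, hb2, by linarith [h4.1, h4.2]⟩
  · obtain ⟨b, hb1, hb2, hb3⟩ := g3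
    have h4 := abs_le.1 (hcmp b hb2)
    exact ⟨b, hb1, hb2, by linarith [h4.1, h4.2]⟩

end

end Pool.Agent.T6.H5.MX
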