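import Pool.Agent.T6.H5.MX.LJ

/-! # The deviations of the counts on a long window: a block of zeros -/

set_option autoImplicit false

namespace Pool.Agent.T6.H5.MX

open Filter Topology MeasureTheory Set
open SG (ord NZ)
open SP (RHs)
open Pool.Agent.Y743.NC (ff dev dev_nonneg dev_int)
open Pool.Agent.Y743.LR (yv)
open Pool.Agent.R320.CL (SS)
open Pool.Agent.R320.JL (YY YY_meas SS_gL varB palmF)
open Pool.Agent.Y743.CL (exM)

noncomputable section

lemma Gd_mono {r n : ℕ} {D v D2 v2 : ℝ} (h : Gd r D v n) (hD : D ≤ D2) (hv : v2 ≤ v) : Gd r D2 v2 n := by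
  obtain ⟨h1, ⟨b, b1, b2, b3⟩, ⟨c, c1, c2, c3⟩⟩ := h
  exact ⟨fun b hb => (h1 b hb).trans hD, ⟨b, b1, b2, hv.trans b3⟩, ⟨c, c1, c2, by linarith⟩⟩

/-- the good heights -/
def gd (ε T : ℝ) (r : ℕ) (t : ℝ) : Prop :=
  (∀ j : ℕ, j ≤ 3 * r → |dv T j t| ≤ (1 / Real.pi + ε) * Real.log r) ∧
      (∃ a : ℕ, a < r / 2 ∧ (1 / Real.pi - ε) * Real.log r ≤ dv T a t) ∧
      ∃ a : ℕ, a < r / 2 ∧ dv T a t ≤ -((1 / Real.pi - ε) * Real.log r)

/-- the numerical conditions on `r` -/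
lemma numR {ε M C η : ℝ} (hε : 0 < ε) (hη : 0 < η) (hC : 0 ≤ C) : ∀ᶠ r : ℕ in atTop,
    1 ≤ Real.log r ∧ M + 1 ≤ ε / 8 * Real.log r ∧ 100 * Real.log r ≤ r ∧
      C / (ε / 4 * Real.log r - M) ^ 2 ≤ η := by
  have hlog : Tendsto (fun r : ℕ => Real.log (r : ℝ)) atTop atTop :=
    Real.tendsto_log_atTop.comp tendsto_natCast_atTop_atTop
  have h1 : ∀ᶠ r : ℕ in atTop, 100 * Real.log (r : ℝ) ≤ r := by
    have h2 : (fun y : ℝ => Real.log y) =o[atTop] fun y : ℝ => y := Real.isLittleO_log_id_atTop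
    have h3 := (h2.bound (c := 1 / 100) (by norm_num))
    have h4 := tendsto_natCast_atTop_atTop (R := ℝ) |>.eventually h3
    filter_upwards [h4, eventually_ge_atTop 1] with r hr hr1
    have hr1' : (1 : ℝ) ≤ r := by exact_mod_cast hr1
    rw [Real.norm_of_nonneg (Real.log_nonneg hr1'), Real.norm_of_nonneg (by linarith)] at hr
    linarith
  filter_upwards [hlog.eventually_ge_atTop 1, hlog.eventually_ge_atTop ((M + 1) / (ε / 8)), h1,
    hlog.eventually_ge_atTop ((M + 1 + C / η) / (ε / 4))] with r a1 a2 a3 a4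
  rw [div_le_iff₀ (by positivity)] at a2 a4
  refine ⟨a1, by linarith, a3, ?_⟩
  have hCη : 0 ≤ C / η := by positivity
  have h5 : 1 + C / η ≤ ε / 4 * Real.log r - M := by linarith
  have h6 : 1 + C / η ≤ (ε / 4 * Real.log r - M) ^ 2 := by
    calc 1 + C / η ≤ (1 + C / η) ^ 2 := by nlinarith
      _ ≤ _ := pow_le_pow_left₀ (by positivity) h5 2
  rw [div_le_iff₀ (by nlinarith)]
  have h7 : η * (1 + C / η) = η + C := by field_simp
  nlinarith

/-- one zero -/
lemma oneZ {ε T t M : ℝ} {r n : ℕ} (hε : 0 < ε) (hε1 : ε ≤ 1 / 2) (hT : 100 ≤ T) (hM : 1 ≤ M)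
    (_hl : 1 ≤ Real.log r) (hMr : M + 1 ≤ ε / 8 * Real.log r) (hlr : 100 * Real.log r ≤ r)
    (hrT : 96 * (r : ℝ) ≤ Real.log T) (hn : 1 ≤ n) (h1 : T ≤ ord n) (h2 : ord n ≤ 2 * T)
    (t1 : ord n - M * (2 * Real.pi / Real.log T) ≤ t) (t2 : t < ord n)
    (hq : |YY T M t| < ε / 4 * Real.log r - M) (hg : gd (ε / 4) T r t) :
    Gd r ((1 / Real.pi + ε) * Real.log r) ((1 / Real.pi - ε) * Real.log r) n := by
  have hpi := Real.pi_pos
  have hpi3 := Real.pi_gt_three
  have hpi4 := Real.pi_lt_d2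
  obtain ⟨l, hld⟩ : ∃ l : ℝ, l = Real.log r := ⟨_, rfl⟩
  obtain ⟨p, hp⟩ : ∃ p : ℝ, p = 1 / Real.pi := ⟨_, rfl⟩
  have hp1 : p ≤ 1 / 3 := by rw [hp]; exact one_div_le_one_div_of_le (by norm_num) hpi3.le
  have hp2 : 3 / 10 ≤ p := by
    rw [hp, le_div_iff₀ hpi]; linarith
  unfold gd at hg
  rw [← hld, ← hp] at hg ⊢
  rw [← hld] at hMr hlr hq
  have h12 : 12 * l ≥ 12 * 16 * (M + 1) := by nlinarith
  have hl16 : 16 * (M + 1) ≤ l := by linarith
  obtain ⟨g1, g2, g3⟩ := hg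
  have hq' := (abs_lt.1 hq).2
  have hYY : YY T M t = dv T M t := rfl
  rw [hYY] at hq'
  have e1 : ε * l ≤ 1 / 2 * l := mul_le_mul_of_nonneg_right hε1 (by linarith)
  have e2 : p * l ≤ 1 / 3 * l := mul_le_mul_of_nonneg_right hp1 (by linarith)
  have e3 : 3 / 10 * l ≤ p * l := mul_le_mul_of_nonneg_right hp2 (by linarith)
  have e4 : 0 < ε * l := mul_pos hε (by linarith)
  obtain ⟨z1, z2, z3⟩ := zer (T := T) (t := t) (M := M) (D := (p + ε / 4) * l) (v := (p - ε / 4) * l)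
    (E0 := ε / 4 * l) (n := n) (r := r) (by linarith) hn (by linarith) t1 t2 (by linarith)
    (by nlinarith) (by nlinarith) (by nlinarith) (by nlinarith) (by nlinarith) g1 g2 g3
  have hG := Gd_of_ff (T := T) (D := (p + ε / 4) * l + ε / 4 * l + M) (v1 := (p - ε / 4) * l - M)
    (v2 := (p - ε / 4) * l - ε / 4 * l) (v := (p - ε) * l) hT hn h1 h2 (by nlinarith) z1 z2 z3
    (by nlinarith) (by nlinarith)
  exact Gd_mono hG (by nlinarith) le_rfl

/-- a block of zeros -/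
theorem blkM (hRH : RHs) {ε η : ℝ} (hε : 0 < ε) (hε1 : ε ≤ 1 / 2) (hη : 0 < η) :
    ∃ r0 : ℕ, ∀ r : ℕ, r0 ≤ r → ∃ x0 : ℝ, 100 ≤ x0 ∧ ∀ x : ℝ, x0 ≤ x → ∀ S : Finset ℕ,
    (∀ n ∈ S, NZ (2 / 3 * x) < n ∧ n ≤ NZ x ∧
      ¬ Gd r ((1 / Real.pi + ε) * Real.log r) ((1 / Real.pi - ε) * Real.log r) n) →
    (S.card : ℝ) ≤ η * (x * Real.log x) := by
  classical
  have hpi := Real.pi_pos
  have hpi3 := Real.pi_gt_three
  obtain ⟨C, T1, hC, hT1, hv⟩ := varB 1 le_rfl
  obtain ⟨M, hM1, hM⟩ := exM C (η / 9) (by positivity)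
  have hM0 : 0 < M := by linarith
  have hlM : 0 ≤ Real.log (1 + M) := Real.log_nonneg (by linarith)
  obtain ⟨s, hsd⟩ : ∃ s : ℝ, s = Real.sqrt (C + Real.log (1 + M)) := ⟨_, rfl⟩
  have hs : 0 < s := by rw [hsd]; exact Real.sqrt_pos.2 (by linarith)
  have hs2 : s ^ 2 = C + Real.log (1 + M) := by rw [hsd, Real.sq_sqrt (by linarith)]
  rw [← hsd] at hM
  obtain ⟨r1, hr1⟩ := LEB hRH (ε := ε / 4) (η := η / 12) (by positivity) (by linarith) (by positivity)
  obtain ⟨r2, hr2⟩ := (numR (M := M) hε (η := η / 12) (by positivity)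
    (show 0 ≤ C + Real.log (1 + M) by linarith)).exists_forall_of_atTop
  refine ⟨max r1 r2, fun r hr => ?_⟩
  obtain ⟨T0, hT0, hLE⟩ := hr1 r ((le_max_left _ _).trans hr)
  obtain ⟨n1, n2, n3, n4⟩ := hr2 r ((le_max_right _ _).trans hr)
  have hev : ∀ᶠ T : ℝ in atTop, max (96 * (r : ℝ)) (max 1 (max (2 * Real.pi * M) (M * Real.log M))) ≤ Real.log T :=
    Real.tendsto_log_atTop.eventually_ge_atTop _
  obtain ⟨T2, hT2⟩ := hev.exists_forall_of_atTop
  refine ⟨2 * max (max T0 T1) (max T2 (max 500 (48 / η))), ?_, fun x hx S hS => ?_⟩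
  · have : (500 : ℝ) ≤ max (max T0 T1) (max T2 (max 500 (48 / η))) :=
      ((le_max_left _ _).trans (le_max_right _ _)).trans (le_max_right _ _)
    linarith
  obtain ⟨T, hT⟩ : ∃ T : ℝ, T = 3 / 5 * x := ⟨_, rfl⟩
  have hMx : max (max T0 T1) (max T2 (max 500 (48 / η))) ≤ T := by
    have : (500 : ℝ) ≤ max (max T0 T1) (max T2 (max 500 (48 / η))) :=
      ((le_max_left _ _).trans (le_max_right _ _)).trans (le_max_right _ _)
    linarith
  have t0 : T0 ≤ T := ((le_max_left _ _).trans (le_max_left _ _)).trans hMx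
  have t1 : T1 ≤ T := ((le_max_right _ _).trans (le_max_left _ _)).trans hMx
  have t2 : T2 ≤ T := ((le_max_left _ _).trans (le_max_right _ _)).trans hMx
  have t3 : 500 ≤ T := (((le_max_left _ _).trans (le_max_right _ _)).trans (le_max_right _ _)).trans hMx
  have t4 : 48 / η ≤ T := (((le_max_right _ _).trans (le_max_right _ _)).trans (le_max_right _ _)).trans hMx
  have hl := hT2 T t2
  obtain ⟨L, hL⟩ : ∃ L : ℝ, L = Real.log T := ⟨_, rfl⟩
  rw [← hL] at hl
  have l1 : 96 * (r : ℝ) ≤ L := (le_max_left _ _).trans hl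
  have l2 : 1 ≤ L := ((le_max_left _ _).trans (le_max_right _ _)).trans hl
  have l3 : 2 * Real.pi * M ≤ L :=
    (((le_max_left _ _).trans (le_max_right _ _)).trans (le_max_right _ _)).trans hl
  have l4 : M * Real.log M ≤ L :=
    (((le_max_right _ _).trans (le_max_right _ _)).trans (le_max_right _ _)).trans hl
  obtain ⟨ℓ, hℓ⟩ : ∃ ℓ : ℝ, ℓ = M * (2 * Real.pi / Real.log T) := ⟨_, rfl⟩
  have hℓ0 : 0 < ℓ := by
    rw [hℓ, ← hL]; positivity
  have hℓ1 : ℓ ≤ 1 := by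
    have : ℓ = 2 * Real.pi * M / L := by rw [hℓ, hL]; ring
    rw [this, div_le_one (by linarith)]
    exact l3
  have hT' : 0 < T := by linarith
  obtain ⟨q, hq⟩ : ∃ q : ℝ, q = ε / 4 * Real.log r - M := ⟨_, rfl⟩
  have hq0 : 0 < q := by rw [hq]; linarith
  rw [← hq] at n4
  obtain ⟨W0, hW0⟩ : ∃ W0 : Set ℝ, W0 = {t | t ∈ Icc T (2 * T) ∧ ¬ gd (ε / 4) T r t} ∪
    ({t | q ≤ |YY T M (t + 0)|} ∩ Icc (T + 14) (2 * T - 14)) := ⟨_, rfl⟩
  have hdev := hv T t1 M hM0 (by rw [one_mul, ← hL]; exact l4)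
  have hWsub : W0 ⊆ Icc T (2 * T) := by
    rw [hW0]
    rintro t (h | h)
    · exact h.1
    · exact ⟨by linarith [h.2.1], by linarith [h.2.2]⟩
  have hWf : volume W0 ≠ ⊤ := ((measure_mono hWsub).trans_lt (by
    rw [Real.volume_Icc]; exact ENNReal.ofReal_lt_top)).ne
  have hWv : volume.real W0 ≤ η / 6 * T := by
    rw [hW0]
    refine (measureReal_union_le _ _).trans ?_
    have a1 := hLE T t0
    have a2 := Pool.Agent.R320.JL.cheb (T := T) (x := M) (s := 0) (q := q) (by linarith) hq0 (by norm_num)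
    have a3 : (∫ t in Icc T (2 * T), dev T M t) / q ^ 2 ≤ η / 12 * T := by
      calc (∫ t in Icc T (2 * T), dev T M t) / q ^ 2 ≤ (T * (C + Real.log (1 + M))) / q ^ 2 :=
            div_le_div_of_nonneg_right hdev (by positivity)
        _ = T * ((C + Real.log (1 + M)) / q ^ 2) := by ring
        _ ≤ T * (η / 12) := mul_le_mul_of_nonneg_left n4 hT'.le
        _ = _ := by ring
    have a4 : volume.real {t | t ∈ Icc T (2 * T) ∧ ¬ gd (ε / 4) T r t} ≤ η / 12 * T := a1
    linarith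
  obtain ⟨W, hW⟩ : ∃ W : Set ℝ, W = toMeasurable volume W0 := ⟨_, rfl⟩
  have hWm : MeasurableSet W := by rw [hW]; exact measurableSet_toMeasurable _ _
  have hWW : W0 ⊆ W := by rw [hW]; exact subset_toMeasurable _ _
  have hWv2 : volume.real (W ∩ Icc T (2 * T)) ≤ η / 6 * T := by
    refine le_trans ?_ hWv
    have : volume.real W = volume.real W0 := by
      unfold Measure.real
      rw [hW, measure_toMeasurable]
    rw [← this]
    refine measureReal_mono inter_subset_left ?_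
    rw [hW, measure_toMeasurable]
    exact hWf
  obtain ⟨f, hf⟩ : ∃ f : ℕ → ℂ, f = fun n => if Gd r ((1 / Real.pi + ε) * Real.log r)
    ((1 / Real.pi - ε) * Real.log r) n then 0 else 1 := ⟨_, rfl⟩
  have hx' : x = 5 / 3 * T := by rw [hT]; ring
  have hpalm := palmF (T := T) (M := M) (s := s) (δ := 0) (A := 2 / 3 * x) (B' := x) (by linarith) hM0 hs
    le_rfl (by norm_num) (by rw [← hℓ]; linarith) (by rw [← hℓ]; linarith) (by linarith)
    f (fun n => by rw [hf]; simp only; split_ifs <;> simp) (fun _ => 0) measurable_const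
    (fun t => by simp) W hWm (by
      intro n hn1 hn2 hn3 t ht1 ht2 htW
      have htJ : t ∈ Icc (T + 14) (2 * T - 14) := by
        rw [← hℓ] at ht1
        exact ⟨by linarith, by linarith⟩
      have htJ2 : t ∈ Icc T (2 * T) := ⟨by linarith [htJ.1], by linarith [htJ.2]⟩
      have hW0' : t ∉ W0 := fun h => htW (hWW h)
      rw [hW0] at hW0'
      simp only [mem_union, mem_ofPred_eq, mem_inter_iff, not_or, not_and, not_not, add_zero] at hW0'
      obtain ⟨w1, w2⟩ := hW0'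
      have w3 := w1 htJ2
      have w4 : |YY T M t| < q := by
        by_contra hcon
        push Not at hcon
        exact w2 hcon htJ
      have hG := oneZ (t := t) hε hε1 (by linarith : 100 ≤ T) hM1 n1 n2 n3 (by rw [← hL]; exact l1) hn1
        (by linarith) (by linarith) ht1 ht2 (by rw [← hq]; exact w4) w3
      rw [hf]
      simp only
      rw [if_pos hG]
      simp)
  rw [← hℓ] at hpalm
  have hint : ∫ t in (2 / 3 * x)..x, (fun _ : ℝ => (0 : ℂ)) t = 0 := by
    simp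
  simp only at hint
  rw [intervalIntegral.integral_zero, mul_zero, sub_zero, norm_mul, Complex.norm_real, Real.norm_eq_abs,
    abs_of_pos hℓ0] at hpalm
  have hsum : (S.card : ℝ) ≤ ‖∑ n ∈ Finset.Ioc (NZ (2 / 3 * x)) (NZ x), f n‖ := by
    have e1 : ∑ n ∈ Finset.Ioc (NZ (2 / 3 * x)) (NZ x), f n =
        ((((Finset.Ioc (NZ (2 / 3 * x)) (NZ x)).filter fun n => ¬ Gd r ((1 / Real.pi + ε) * Real.log r)
          ((1 / Real.pi - ε) * Real.log r) n).card : ℝ) : ℂ) := by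
      rw [hf, Finset.card_filter, Nat.cast_sum, Complex.ofReal_sum]
      refine Finset.sum_congr rfl fun n _ => ?_
      beta_reduce
      by_cases h : Gd r ((1 / Real.pi + ε) * Real.log r) ((1 / Real.pi - ε) * Real.log r) n
      · rw [if_pos h, if_neg (not_not.2 h), Nat.cast_zero, Complex.ofReal_zero]
      · rw [if_neg h, if_pos h, Nat.cast_one, Complex.ofReal_one]
    rw [e1, Complex.norm_real, Real.norm_eq_abs, abs_of_nonneg (Nat.cast_nonneg _)]
    have : S ⊆ (Finset.Ioc (NZ (2 / 3 * x)) (NZ x)).filter fun n => ¬ Gd r ((1 / Real.pi + ε) * Real.log r)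
          ((1 / Real.pi - ε) * Real.log r) n := by
      intro n hn
      rw [Finset.mem_filter, Finset.mem_Ioc]
      obtain ⟨c1, c2, c3⟩ := hS n hn
      exact ⟨⟨c1, c2⟩, c3⟩
    exact_mod_cast Finset.card_le_card this
  have hdevs : (s * T + (1 / s) * ∫ t in Icc T (2 * T), dev T M t) / 2 ≤ s * T := by
    have a1 : (1 / s) * ∫ t in Icc T (2 * T), dev T M t ≤ (1 / s) * (T * s ^ 2) := by
      rw [hs2]; gcongr
    have a2 : (1 / s) * (T * s ^ 2) = s * T := by field_simp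
    linarith
  have hE : M * (0 * T + 2 * volume.real (W ∩ Icc T (2 * T)) + 4 * ℓ) +
      (3 + 0) * ((s * T + (1 / s) * ∫ t in Icc T (2 * T), dev T M t) / 2) ≤ M * (η * T) := by
    have a1 : (3 + 0) * ((s * T + (1 / s) * ∫ t in Icc T (2 * T), dev T M t) / 2) ≤ M * (η / 3 * T) := by
      have : s * T ≤ (η / 9 * M) * T := mul_le_mul_of_nonneg_right hM hT'.le
      linarith
    have a3 : 4 * ℓ ≤ η / 12 * T := by
      rw [div_le_iff₀ hη] at t4
      linarith
    have a5 : M * (0 * T + 2 * volume.real (W ∩ Icc T (2 * T)) + 4 * ℓ) ≤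
        M * (η / 3 * T + η / 12 * T) := by
      apply mul_le_mul_of_nonneg_left _ hM0.le
      linarith
    have a6 : 0 ≤ M * (η * T) := by positivity
    nlinarith
  have hp2 : ℓ * S.card ≤ M * (η * T) :=
    (mul_le_mul_of_nonneg_left hsum hℓ0.le).trans (hpalm.trans hE)
  have hfin : (S.card : ℝ) ≤ L / (2 * Real.pi) * (η * T) := by
    have e1 : M * (η * T) = ℓ * (L / (2 * Real.pi) * (η * T)) := by
      rw [hℓ, ← hL]; field_simp
    rw [e1] at hp2
    exact le_of_mul_le_mul_left hp2 hℓ0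
  refine hfin.trans ?_
  have hLx : L ≤ Real.log x := by rw [hL]; exact Real.log_le_log hT' (by linarith)
  have hTx : T ≤ x := by linarith
  have h1 : L / (2 * Real.pi) ≤ Real.log x := by
    refine le_trans ?_ hLx
    apply div_le_self (by linarith)
    linarith
  calc L / (2 * Real.pi) * (η * T) ≤ Real.log x * (η * x) := by
        apply mul_le_mul h1 (mul_le_mul_of_nonneg_left hTx hη.le) (by positivity) (by linarith)
    _ = _ := by ring

end

end Pool.Agent.T6.H5.MX
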