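import Pool.Agent.T6.H5.MX.LK

/-! # The deviations of the sums of gaps: all zeros -/

set_option autoImplicit false

namespace Pool.Agent.T6.H5.MX

open Filter Topology MeasureTheory Set
open SG (ord NZ)
open SP (RHs)
open Pool.Agent.R320.VQ (split23 N_x)

noncomputable section

open Classical in
/-- **the maximum of the deviations of the sums of gaps** -/
theorem allM (hRH : RHs) {ε : ℝ} (hε : 0 < ε) (hε1 : ε ≤ 1 / 2) :
    ∃ r0 : ℕ, ∀ r : ℕ, r0 ≤ r → ∃ N0 : ℕ, ∀ N : ℕ, N0 ≤ N →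
    (((Finset.Icc 1 N).filter fun n =>
      ¬ Gd r ((1 / Real.pi + ε) * Real.log r) ((1 / Real.pi - ε) * Real.log r) n).card : ℝ) ≤ ε * N := by
  obtain ⟨C2, hC2, N1, hN1, hNx⟩ := N_x
  obtain ⟨C3, T3, hC3, hT3, hup⟩ := LG.GapAux.NZ_up
  obtain ⟨η, hη⟩ : ∃ η : ℝ, η = ε / (6 * C2) := ⟨_, rfl⟩
  have hη0 : 0 < η := by rw [hη]; positivity
  obtain ⟨r0, hr0⟩ := blkM hRH hε hε1 hη0
  obtain ⟨K, hK⟩ := exists_pow_lt_of_lt_one (show 0 < ε / (C3 * C2) by positivity) (show (2 / 3 : ℝ) < 1 by norm_num)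
  refine ⟨r0, fun r hr => ?_⟩
  obtain ⟨x0, hx0, hblk⟩ := hr0 r hr
  have hKp : 0 < (2 / 3 : ℝ) ^ K := by positivity
  have ev := SG.ord_tendsto.eventually_ge_atTop (max (x0 / (2 / 3 : ℝ) ^ K) (max (2 * T3 / (2 / 3 : ℝ) ^ K) 10))
  obtain ⟨N2, hN2⟩ := ev.exists_forall_of_atTop
  refine ⟨max N1 N2, fun N hN => ?_⟩
  obtain ⟨hxN, -⟩ := hNx N ((le_max_left _ _).trans hN)
  have hx := hN2 N ((le_max_right _ _).trans hN)
  have hN0 : 1 ≤ N := (hN1.trans (le_max_left _ _)).trans hN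
  have hNr : (0 : ℝ) < N := by exact_mod_cast hN0
  obtain ⟨x, hxd⟩ : ∃ x : ℝ, x = ord N := ⟨_, rfl⟩
  rw [← hxd] at hxN hx
  have h1 : x0 / (2 / 3 : ℝ) ^ K ≤ x := (le_max_left _ _).trans hx
  have h2 : 2 * T3 / (2 / 3 : ℝ) ^ K ≤ x := ((le_max_left _ _).trans (le_max_right _ _)).trans hx
  have h3 : 10 ≤ x := ((le_max_right _ _).trans (le_max_right _ _)).trans hx
  rw [div_le_iff₀ hKp] at h1 h2
  have hlx : 0 < Real.log x := Real.log_pos (by linarith)
  obtain ⟨P, hP⟩ : ∃ P : ℕ → Prop, P = fun n =>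
      ¬ Gd r ((1 / Real.pi + ε) * Real.log r) ((1 / Real.pi - ε) * Real.log r) n := ⟨_, rfl⟩
  have hsub : (((Finset.Icc 1 N).filter fun n =>
      ¬ Gd r ((1 / Real.pi + ε) * Real.log r) ((1 / Real.pi - ε) * Real.log r) n).card : ℝ) ≤
      (((Finset.Icc 1 (NZ x)).filter fun n => 
      ¬ Gd r ((1 / Real.pi + ε) * Real.log r) ((1 / Real.pi - ε) * Real.log r) n).card : ℝ) := by
    have : N ≤ NZ x := by rw [hxd]; exact SG.le_NZ_ord hN0
    exact_mod_cast Finset.card_le_card (Finset.filter_subset_filter _ (Finset.Icc_subset_Icc le_rfl this))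
  have hsp := split23 (fun n => 
      ¬ Gd r ((1 / Real.pi + ε) * Real.log r) ((1 / Real.pi - ε) * Real.log r) n) x K
  refine hsub.trans (hsp.trans ?_)
  have hle : ∀ k : ℕ, k ≤ K → (2 / 3 : ℝ) ^ K ≤ (2 / 3 : ℝ) ^ k := fun k hk =>
    pow_le_pow_of_le_one (by norm_num) (by norm_num) hk
  have hsmall : (((Finset.Icc 1 (NZ ((2 / 3) ^ K * x))).filter fun n => 
      ¬ Gd r ((1 / Real.pi + ε) * Real.log r) ((1 / Real.pi - ε) * Real.log r) n).card : ℝ) ≤ ε / 2 * N := by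
    have a1 : (((Finset.Icc 1 (NZ ((2 / 3) ^ K * x))).filter fun n => 
      ¬ Gd r ((1 / Real.pi + ε) * Real.log r) ((1 / Real.pi - ε) * Real.log r) n).card : ℝ) ≤
        NZ ((2 / 3) ^ K * x) := by
      have := Finset.card_filter_le (Finset.Icc 1 (NZ ((2 / 3) ^ K * x))) (fun n => 
        ¬ Gd r ((1 / Real.pi + ε) * Real.log r) ((1 / Real.pi - ε) * Real.log r) n)
      rw [Nat.card_Icc, Nat.add_sub_cancel] at this
      exact_mod_cast this
    have a2 := hup ((2 / 3) ^ K * x / 2) (by linarith)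
    have e : 2 * ((2 / 3) ^ K * x / 2) = (2 / 3) ^ K * x := by ring
    rw [e] at a2
    have a3 : Real.log ((2 / 3) ^ K * x / 2) ≤ Real.log x := by
      apply Real.log_le_log (by positivity)
      have : (2 / 3 : ℝ) ^ K ≤ 1 := pow_le_one₀ (by norm_num) (by norm_num)
      nlinarith
    calc _ ≤ _ := a1
      _ ≤ _ := a2
      _ ≤ C3 * ((2 / 3) ^ K * x / 2 * Real.log x) := by gcongr
      _ = C3 / 2 * (2 / 3) ^ K * (x * Real.log x) := by ring
      _ ≤ C3 / 2 * (ε / (C3 * C2)) * (C2 * N) := by gcongr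
      _ = _ := by field_simp
  have hsum : ∑ k ∈ Finset.range K,
        (((Finset.Ioc (NZ (2 / 3 * ((2 / 3) ^ k * x))) (NZ ((2 / 3) ^ k * x))).filter fun n => 
      ¬ Gd r ((1 / Real.pi + ε) * Real.log r) ((1 / Real.pi - ε) * Real.log r) n).card : ℝ) ≤ ε / 2 * N := by
    have b1 : ∀ k ∈ Finset.range K,
        (((Finset.Ioc (NZ (2 / 3 * ((2 / 3) ^ k * x))) (NZ ((2 / 3) ^ k * x))).filter fun n => 
      ¬ Gd r ((1 / Real.pi + ε) * Real.log r) ((1 / Real.pi - ε) * Real.log r) n).card : ℝ) ≤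
        η * (x * Real.log x) * (2 / 3) ^ k := by
      intro k hk
      have hk' := hle k (Finset.mem_range.1 hk).le
      have c1 : x0 ≤ (2 / 3) ^ k * x := h1.trans (by rw [mul_comm]; gcongr)
      have c2 := hblk ((2 / 3) ^ k * x) c1 ((Finset.Ioc (NZ (2 / 3 * ((2 / 3) ^ k * x))) (NZ ((2 / 3) ^ k * x))).filter fun n => 
        ¬ Gd r ((1 / Real.pi + ε) * Real.log r) ((1 / Real.pi - ε) * Real.log r) n) (by
          intro n hn
          rw [Finset.mem_filter, Finset.mem_Ioc] at hn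
          exact ⟨hn.1.1, hn.1.2, hn.2⟩)
      refine c2.trans ?_
      have c3 : Real.log ((2 / 3) ^ k * x) ≤ Real.log x := by
        apply Real.log_le_log (by positivity)
        have : (2 / 3 : ℝ) ^ k ≤ 1 := pow_le_one₀ (by norm_num) (by norm_num)
        nlinarith
      calc η * ((2 / 3) ^ k * x * Real.log ((2 / 3) ^ k * x)) ≤ η * ((2 / 3) ^ k * x * Real.log x) := by gcongr
        _ = _ := by ring
    refine (Finset.sum_le_sum b1).trans ?_
    rw [← Finset.mul_sum]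
    have b2 : ∑ k ∈ Finset.range K, (2 / 3 : ℝ) ^ k ≤ 3 := by
      rw [geom_sum_eq (by norm_num)]
      have : 0 < (2 / 3 : ℝ) ^ K := hKp
      have e : ((2 / 3 : ℝ) ^ K - 1) / (2 / 3 - 1) = 3 * (1 - (2 / 3 : ℝ) ^ K) := by ring
      rw [e]
      linarith
    calc η * (x * Real.log x) * ∑ k ∈ Finset.range K, (2 / 3 : ℝ) ^ k ≤ η * (C2 * N) * 3 := by gcongr
      _ = _ := by rw [hη]; field_simp; norm_num
  linarith

end

end Pool.Agent.T6.H5.MX
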