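import Pool.Agent.H305R2.MertensM

/-! # Sums over primes in logarithmic scale -/

set_option autoImplicit false

namespace Pool.Agent.T6.H5.MX

open Filter Topology MeasureTheory Set

noncomputable section

/-- the primes between `T ^ a` and `T ^ b` -/
def Pm (T a b : ℝ) : Finset ℕ := (Finset.Ioc ⌊T ^ a⌋₊ ⌊T ^ b⌋₊).filter Nat.Prime

lemma mem_Pm {T a b : ℝ} (hT : 1 < T) {p : ℕ} (hp : p ∈ Pm T a b) :
    p.Prime ∧ a < Real.log p / Real.log T ∧ Real.log p / Real.log T ≤ b ∧ T ^ a < p ∧ (p : ℝ) ≤ T ^ b := by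
  unfold Pm at hp
  rw [Finset.mem_filter, Finset.mem_Ioc] at hp
  obtain ⟨⟨h1, h2⟩, h3⟩ := hp
  have hT0 : 0 < T := by linarith
  have hL : 0 < Real.log T := Real.log_pos hT
  have hp0 : (0 : ℝ) < p := by exact_mod_cast h3.pos
  have h4 : T ^ a < p := by
    have := Nat.lt_of_floor_lt h1
    exact this
  have h5 : (p : ℝ) ≤ T ^ b := (Nat.cast_le.2 h2).trans (Nat.floor_le (by positivity))
  refine ⟨h3, ?_, ?_, h4, h5⟩
  · rw [lt_div_iff₀ hL, ← Real.log_rpow hT0]
    exact Real.log_lt_log (by positivity) h4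
  · rw [div_le_iff₀ hL, ← Real.log_rpow hT0]
    exact Real.log_le_log hp0 h5

lemma log_floor {y : ℝ} (hy : 0 < y) :
    Tendsto (fun T : ℝ => Real.log (⌊T ^ y⌋₊ : ℝ) / Real.log T) atTop (𝓝 y) := by
  have hlog := Real.tendsto_log_atTop
  have h1 : Tendsto (fun T : ℝ => y - Real.log 2 / Real.log T) atTop (𝓝 (y - 0)) :=
    tendsto_const_nhds.sub (hlog.const_div_atTop _)
  rw [sub_zero] at h1
  refine tendsto_of_tendsto_of_tendsto_of_le_of_le' h1 tendsto_const_nhds ?_ ?_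
  · filter_upwards [eventually_gt_atTop 1, (tendsto_rpow_atTop hy).eventually_ge_atTop 2] with T hT hT2
    have hT0 : 0 < T := by linarith
    have hL : 0 < Real.log T := Real.log_pos hT
    have h2 : T ^ y / 2 ≤ (⌊T ^ y⌋₊ : ℝ) := by
      have := Nat.lt_floor_add_one (T ^ y)
      linarith
    have h3 := Real.log_le_log (by positivity) h2
    rw [Real.log_div (by positivity) (by norm_num), Real.log_rpow hT0] at h3
    rw [le_div_iff₀ hL]
    have : (y - Real.log 2 / Real.log T) * Real.log T = y * Real.log T - Real.log 2 := by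
      field_simp
    rw [this]
    exact h3
  · filter_upwards [eventually_gt_atTop 1, (tendsto_rpow_atTop hy).eventually_ge_atTop 2] with T hT hT2
    have hT0 : 0 < T := by linarith
    have hL : 0 < Real.log T := Real.log_pos hT
    have h2 : (0 : ℝ) < (⌊T ^ y⌋₊ : ℝ) := by
      have := Nat.lt_floor_add_one (T ^ y)
      linarith
    rw [div_le_iff₀ hL, ← Real.log_rpow hT0]
    exact Real.log_le_log h2 (Nat.floor_le (by positivity))

lemma floor_top {y : ℝ} (hy : 0 < y) : Tendsto (fun T : ℝ => ⌊T ^ y⌋₊) atTop atTop :=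
  tendsto_nat_floor_atTop.comp (tendsto_rpow_atTop hy)

lemma sum_one {x y : ℝ} (hx : 0 < x) (hxy : x ≤ y) :
    Tendsto (fun T : ℝ => ∑ p ∈ Pm T x y, (1 : ℝ) / p) atTop (𝓝 (Real.log y - Real.log x)) := by
  obtain ⟨M, hM⟩ := Pool.Agent.H305R2.mertens_inv_tendsto
  have hy : 0 < y := by linarith
  have h1 := hM.comp (floor_top hy)
  have h2 := hM.comp (floor_top hx)
  have h3 := h1.sub h2
  rw [sub_self] at h3
  have hll : ∀ z : ℝ, 0 < z → Tendsto (fun T : ℝ => Real.log (Real.log (⌊T ^ z⌋₊ : ℝ)) -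
      Real.log (Real.log T)) atTop (𝓝 (Real.log z)) := by
    intro z hz
    have h4 := (Real.continuousAt_log hz.ne').tendsto.comp (log_floor hz)
    refine h4.congr' ?_
    filter_upwards [eventually_gt_atTop 1, (floor_top hz).eventually_ge_atTop 2] with T hT hT2
    have hL : 0 < Real.log T := Real.log_pos hT
    have h5 : 0 < Real.log (⌊T ^ z⌋₊ : ℝ) := Real.log_pos (by exact_mod_cast (by omega : 1 < ⌊T ^ z⌋₊))
    simp only [Function.comp_apply]
    rw [Real.log_div h5.ne' hL.ne']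
  have h4 := h3.add ((hll y hy).sub (hll x hx))
  rw [zero_add] at h4
  refine h4.congr' ?_
  filter_upwards [eventually_gt_atTop 1] with T hT
  have hle : ⌊T ^ x⌋₊ ≤ ⌊T ^ y⌋₊ :=
    Nat.floor_le_floor (Real.rpow_le_rpow_of_exponent_le hT.le hxy)
  have h5 : ∑ p ∈ (Finset.Icc 1 ⌊T ^ y⌋₊).filter Nat.Prime, (1 : ℝ) / p =
      ∑ p ∈ (Finset.Icc 1 ⌊T ^ x⌋₊).filter Nat.Prime, (1 : ℝ) / p + ∑ p ∈ Pm T x y, (1 : ℝ) / p := by
    unfold Pm
    rw [← Finset.sum_union]
    · congr 1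
      ext p
      simp only [Finset.mem_filter, Finset.mem_union, Finset.mem_Icc, Finset.mem_Ioc]
      constructor
      · rintro ⟨⟨a1, a2⟩, a3⟩
        by_cases h : p ≤ ⌊T ^ x⌋₊
        · exact Or.inl ⟨⟨a1, h⟩, a3⟩
        · exact Or.inr ⟨⟨by omega, a2⟩, a3⟩
      · rintro (⟨⟨a1, a2⟩, a3⟩ | ⟨⟨a1, a2⟩, a3⟩)
        · exact ⟨⟨a1, by omega⟩, a3⟩
        · exact ⟨⟨by omega, a2⟩, a3⟩
    · rw [Finset.disjoint_left]
      intro p hp hq
      rw [Finset.mem_filter, Finset.mem_Icc] at hp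
      rw [Finset.mem_filter, Finset.mem_Ioc] at hq
      omega
  simp only [Function.comp_apply]
  rw [h5]
  ring

lemma int_one_div {x y : ℝ} (hx : 0 < x) (hxy : x ≤ y) :
    ∫ u in x..y, (1 : ℝ) / u = Real.log y - Real.log x := by
  rw [integral_one_div_of_pos hx (by linarith), Real.log_div (by linarith) hx.ne']

/-- one cell -/
lemma cell {T a b : ℝ} (hT : 1 < T) (F : ℝ → ℝ) (c e : ℝ)
    (h : ∀ u, a ≤ u → u ≤ b → |F u - c| ≤ e) :
    |∑ p ∈ Pm T a b, F (Real.log p / Real.log T) / p - c * ∑ p ∈ Pm T a b, (1 : ℝ) / p| ≤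
      e * ∑ p ∈ Pm T a b, (1 : ℝ) / p := by
  rw [Finset.mul_sum, Finset.mul_sum, ← Finset.sum_sub_distrib]
  refine (Finset.abs_sum_le_sum_abs _ _).trans (Finset.sum_le_sum fun p hp => ?_)
  obtain ⟨h1, h2, h3, -, -⟩ := mem_Pm hT hp
  have hp0 : (0 : ℝ) < p := by exact_mod_cast h1.pos
  have e1 : F (Real.log p / Real.log T) / p - c * (1 / p) = (F (Real.log p / Real.log T) - c) * (1 / p) := by
    ring
  rw [e1, abs_mul, abs_of_pos (by positivity : (0 : ℝ) < 1 / p)]
  exact mul_le_mul_of_nonneg_right (h _ h2.le h3) (by positivity)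

lemma Pm_split {T a b c : ℝ} (hT : 1 ≤ T) (hab : a ≤ b) (hbc : b ≤ c) (f : ℕ → ℝ) :
    ∑ p ∈ Pm T a c, f p = ∑ p ∈ Pm T a b, f p + ∑ p ∈ Pm T b c, f p := by
  have h1 : ⌊T ^ a⌋₊ ≤ ⌊T ^ b⌋₊ := Nat.floor_le_floor (Real.rpow_le_rpow_of_exponent_le hT hab)
  have h2 : ⌊T ^ b⌋₊ ≤ ⌊T ^ c⌋₊ := Nat.floor_le_floor (Real.rpow_le_rpow_of_exponent_le hT hbc)
  unfold Pm
  rw [Finset.sum_filter, Finset.sum_filter, Finset.sum_filter, Finset.sum_Ioc_consecutive _ h1 h2]

/-- **sums over primes in logarithmic scale** -/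
theorem prime_int {x y : ℝ} (hx : 0 < x) (hxy : x ≤ y) (F : ℝ → ℝ) (hF : ContinuousOn F (Icc x y)) :
    Tendsto (fun T : ℝ => ∑ p ∈ Pm T x y, F (Real.log p / Real.log T) / p) atTop
      (𝓝 (∫ u in x..y, F u / u)) := by
  rw [Metric.tendsto_atTop]
  intro ε hε
  obtain ⟨Λ, hΛ⟩ : ∃ Λ : ℝ, Λ = Real.log y - Real.log x := ⟨_, rfl⟩
  have hΛ0 : 0 ≤ Λ := by rw [hΛ]; have := Real.log_le_log hx hxy; linarith
  obtain ⟨e, he⟩ : ∃ e : ℝ, e = ε / (4 * (Λ + 1)) := ⟨_, rfl⟩
  have he0 : 0 < e := by rw [he]; positivity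
  have huc := isCompact_Icc.uniformContinuousOn_of_continuous hF
  rw [Metric.uniformContinuousOn_iff] at huc
  obtain ⟨d, hd, hu⟩ := huc e he0
  obtain ⟨m, hm⟩ := exists_nat_gt ((y - x) / d)
  have hm0 : 0 < m := by
    rcases Nat.eq_zero_or_pos m with h | h
    · subst h
      have : 0 ≤ (y - x) / d := div_nonneg (by linarith) hd.le
      simp at hm
      linarith
    · exact h
  have hmr : (0 : ℝ) < m := by exact_mod_cast hm0
  obtain ⟨w, hw⟩ : ∃ w : ℝ, w = (y - x) / m := ⟨_, rfl⟩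
  have hw0 : 0 ≤ w := by rw [hw]; exact div_nonneg (by linarith) hmr.le
  have hwd : w < d := by
    rw [hw, div_lt_iff₀ hmr]
    rw [div_lt_iff₀ hd] at hm
    linarith
  obtain ⟨a, ha⟩ : ∃ a : ℕ → ℝ, ∀ i, a i = x + i * w := ⟨_, fun i => rfl⟩
  have ha0 : a 0 = x := by rw [ha]; simp
  have ham : a m = y := by rw [ha, hw]; field_simp; ring
  have hmono : ∀ i, a i ≤ a (i + 1) := by
    intro i; rw [ha, ha]; push_cast; linarith
  have hax : ∀ i, x ≤ a i := by
    intro i; rw [ha]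
    have : (0 : ℝ) ≤ i * w := by positivity
    linarith
  have hay : ∀ i, i ≤ m → a i ≤ y := by
    intro i hi
    rw [← ham, ha, ha]
    have : (i : ℝ) ≤ m := by exact_mod_cast hi
    nlinarith
  have hcell : ∀ i, i < m → ∀ u, a i ≤ u → u ≤ a (i + 1) → |F u - F (a i)| ≤ e := by
    intro i hi u h1 h2
    have h3 := hu u ⟨(hax i).trans h1, h2.trans (hay _ hi)⟩ (a i) ⟨hax i, hay i hi.le⟩ (by
      rw [Real.dist_eq, abs_of_nonneg (by linarith)]
      have : a (i + 1) - a i = w := by rw [ha, ha]; push_cast; ring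
      linarith)
    rw [Real.dist_eq] at h3
    exact h3.le
  -- sums and integrals over the first cells
  have hsum : ∀ (f : ℕ → ℝ) (T : ℝ), 1 ≤ T → ∀ k : ℕ, k ≤ m →
      ∑ p ∈ Pm T x (a k), f p = ∑ i ∈ Finset.range k, ∑ p ∈ Pm T (a i) (a (i + 1)), f p := by
    intro f T hT k
    induction k with
    | zero =>
      intro _
      rw [ha0]
      unfold Pm
      simp
    | succ k ih =>
      intro hk
      rw [Finset.sum_range_succ, ← ih (by omega)]
      exact Pm_split hT (hax k) (hmono k) f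
  have hFi : ∀ u v : ℝ, x ≤ u → u ≤ v → v ≤ y → IntervalIntegrable (fun t => F t / t) volume u v := by
    intro u v h1 h2 h3
    apply ContinuousOn.intervalIntegrable
    rw [uIcc_of_le h2]
    refine (hF.mono (Icc_subset_Icc h1 h3)).div continuousOn_id fun t ht => ?_
    have h5 : 0 < t := lt_of_lt_of_le hx (h1.trans ht.1)
    exact h5.ne'
  have hintk : ∀ k : ℕ, k ≤ m → ∫ u in x..(a k), F u / u =
      ∑ i ∈ Finset.range k, ∫ u in (a i)..(a (i + 1)), F u / u := by
    intro k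
    induction k with
    | zero => intro _; rw [ha0]; simp
    | succ k ih =>
      intro hk
      rw [Finset.sum_range_succ, ← ih (by omega)]
      exact (intervalIntegral.integral_add_adjacent_intervals (hFi _ _ le_rfl (hax k) (hay k (by omega)))
        (hFi _ _ (hax k) (hmono k) (hay _ hk))).symm
  have hintc : ∀ i, i < m → |(∫ u in (a i)..(a (i + 1)), F u / u) -
      F (a i) * (Real.log (a (i + 1)) - Real.log (a i))| ≤
      e * (Real.log (a (i + 1)) - Real.log (a i)) := by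
    intro i hi
    have hai : 0 < a i := lt_of_lt_of_le hx (hax i)
    have h1i : IntervalIntegrable (fun t : ℝ => (1 : ℝ) / t) volume (a i) (a (i + 1)) := by
      apply ContinuousOn.intervalIntegrable
      rw [uIcc_of_le (hmono i)]
      refine continuousOn_const.div continuousOn_id fun t ht => ?_
      have h5 : 0 < t := lt_of_lt_of_le hai ht.1
      exact h5.ne'
    rw [← int_one_div hai (hmono i), ← intervalIntegral.integral_const_mul,
      ← intervalIntegral.integral_const_mul,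
      ← intervalIntegral.integral_sub (hFi _ _ (hax i) (hmono i) (hay _ hi)) (h1i.const_mul _)]
    refine (intervalIntegral.abs_integral_le_integral_abs (hmono i)).trans ?_
    refine intervalIntegral.integral_mono_on (hmono i) ?_ (h1i.const_mul _) fun u hu => ?_
    · exact ((hFi _ _ (hax i) (hmono i) (hay _ hi)).sub (h1i.const_mul _)).abs
    · have hu0 : 0 < u := lt_of_lt_of_le hai hu.1
      have e1 : F u / u - F (a i) * (1 / u) = (F u - F (a i)) * (1 / u) := by ring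
      rw [e1, abs_mul, abs_of_pos (by positivity : 0 < 1 / u)]
      exact mul_le_mul_of_nonneg_right (hcell i hi u hu.1 hu.2) (by positivity)
  -- the limit
  obtain ⟨B, hB⟩ : ∃ B : ℝ, B = 1 + ∑ i ∈ Finset.range m, |F (a i)| := ⟨_, rfl⟩
  have hB1 : 1 ≤ B := by
    rw [hB]
    have : 0 ≤ ∑ i ∈ Finset.range m, |F (a i)| := Finset.sum_nonneg fun _ _ => abs_nonneg _
    linarith
  have hlim : ∀ i ∈ Finset.range m, ∀ᶠ T : ℝ in atTop, |∑ p ∈ Pm T (a i) (a (i + 1)), (1 : ℝ) / p -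
      (Real.log (a (i + 1)) - Real.log (a i))| < ε / (4 * B) := by
    intro i _
    have h1 := sum_one (lt_of_lt_of_le hx (hax i)) (hmono i)
    rw [Metric.tendsto_nhds] at h1
    exact h1 (ε / (4 * B)) (by positivity)
  have hall : ∀ᶠ T : ℝ in atTop, ∀ i ∈ Finset.range m,
      |∑ p ∈ Pm T (a i) (a (i + 1)), (1 : ℝ) / p -
      (Real.log (a (i + 1)) - Real.log (a i))| < ε / (4 * B) :=
    (Filter.eventually_all_finset _).2 hlim
  have htot := sum_one hx hxy
  rw [Metric.tendsto_nhds] at htot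
  obtain ⟨T0, hT0⟩ := ((hall.and (htot 1 one_pos)).and (eventually_gt_atTop 1)).exists_forall_of_atTop
  refine ⟨T0, fun T hT => ?_⟩
  obtain ⟨⟨h1, h2⟩, hT1⟩ := hT0 T hT
  rw [Real.dist_eq] at h2 ⊢
  rw [← hΛ] at h2
  have e1 := hsum (fun p => F (Real.log p / Real.log T) / p) T hT1.le m le_rfl
  have e2 := hsum (fun p => (1 : ℝ) / p) T hT1.le m le_rfl
  have e3 := hintk m le_rfl
  rw [ham] at e1 e2 e3
  have e4 : ∑ i ∈ Finset.range m, (Real.log (a (i + 1)) - Real.log (a i)) = Λ := by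
    rw [Finset.sum_range_sub (fun i => Real.log (a i)), ham, ha0, hΛ]
  rw [e1, e3, ← Finset.sum_sub_distrib]
  refine lt_of_le_of_lt (Finset.abs_sum_le_sum_abs _ _) ?_
  have hpt : ∀ i ∈ Finset.range m, |∑ p ∈ Pm T (a i) (a (i + 1)), F (Real.log p / Real.log T) / p -
      ∫ u in (a i)..(a (i + 1)), F u / u| ≤ e * ∑ p ∈ Pm T (a i) (a (i + 1)), (1 : ℝ) / p +
      |F (a i)| * (ε / (4 * B)) + e * (Real.log (a (i + 1)) - Real.log (a i)) := by
    intro i hi
    have hi' := Finset.mem_range.1 hi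
    have k1 := cell hT1 F (F (a i)) e (hcell i hi')
    have k2 := hintc i hi'
    have k3 := (h1 i hi).le
    have e5 : ∑ p ∈ Pm T (a i) (a (i + 1)), F (Real.log p / Real.log T) / p -
        ∫ u in (a i)..(a (i + 1)), F u / u =
        (∑ p ∈ Pm T (a i) (a (i + 1)), F (Real.log p / Real.log T) / p -
          F (a i) * ∑ p ∈ Pm T (a i) (a (i + 1)), (1 : ℝ) / p) +
        F (a i) * (∑ p ∈ Pm T (a i) (a (i + 1)), (1 : ℝ) / p - (Real.log (a (i + 1)) - Real.log (a i))) -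
        ((∫ u in (a i)..(a (i + 1)), F u / u) - F (a i) * (Real.log (a (i + 1)) - Real.log (a i))) := by
      ring
    rw [e5]
    refine (abs_sub _ _).trans (add_le_add ((abs_add_le _ _).trans (add_le_add k1 ?_)) k2)
    rw [abs_mul]
    exact mul_le_mul_of_nonneg_left k3 (abs_nonneg _)
  refine lt_of_le_of_lt (Finset.sum_le_sum hpt) ?_
  rw [Finset.sum_add_distrib, Finset.sum_add_distrib, ← Finset.mul_sum, ← Finset.sum_mul,
    ← Finset.mul_sum, e4, ← e2]
  have h3 : ∑ p ∈ Pm T x y, (1 : ℝ) / p ≤ Λ + 1 := by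
    have := (abs_lt.1 h2).2
    linarith
  have h4 : e * ∑ p ∈ Pm T x y, (1 : ℝ) / p ≤ ε / 4 := by
    calc e * ∑ p ∈ Pm T x y, (1 : ℝ) / p ≤ e * (Λ + 1) := mul_le_mul_of_nonneg_left h3 he0.le
      _ = ε / 4 := by rw [he]; field_simp
  have h5 : e * Λ ≤ ε / 4 := by
    calc e * Λ ≤ e * (Λ + 1) := mul_le_mul_of_nonneg_left (by linarith) he0.le
      _ = ε / 4 := by rw [he]; field_simp
  have h6 : (∑ i ∈ Finset.range m, |F (a i)|) * (ε / (4 * B)) ≤ ε / 4 := by
    calc (∑ i ∈ Finset.range m, |F (a i)|) * (ε / (4 * B)) ≤ B * (ε / (4 * B)) := by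
          apply mul_le_mul_of_nonneg_right _ (by positivity)
          rw [hB]; linarith
      _ = ε / 4 := by field_simp
  linarith

end

end Pool.Agent.T6.H5.MX
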