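import Pool.Agent.R320.VQ.Db
import Pool.Agent.R320.JL.Ze
import Pool.Agent.T6.H5.MX.PI
import Pool.Agent.Helper601.Mertens

/-! # Prime polynomials over ranges of primes -/

set_option autoImplicit false

namespace Pool.Agent.T6.H5.MX

open Complex Filter Topology MeasureTheory Set
open Pool.Agent.TH850.UV (Db XT ggo ggo_nonneg ggo_le ggo_low)
open Pool.Agent.Y743.CL (VS VS_nonneg SS SS_le Pr mem_Pr XK rc Db_G G G_cont)
open Pool.Agent.R320.JL
open Pool.Agent.R320.VQ (Gq far_sum)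
open Pool.Agent.R320.VR (pp3_sum VS2_bd split_pp kap_norm decSq)
open ArithmeticFunction (vonMangoldt)

attribute [local instance] Pool.Agent.R320.VR.decSq

noncomputable section

/-- high moments of a prime polynomial -/
lemma PPq (m : ℕ) (z : ℕ → ℂ) (X : ℕ) (hX : 1 ≤ X) (T A B : ℝ) (hT : 1 ≤ T) (hAB : A ≤ B)
    (hXT : ((X ^ (m + m) : ℕ) : ℝ) ≤ Real.sqrt T) :
    ∫ t in A..B, ‖PP z X t‖ ^ (2 * m) ≤ ((B - A) + 16 * T) * (m.factorial * VS (nz z) X ^ m) := by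
  have h1 := Pool.Agent.R320.JL.mom_bd z X hX T A B hT hAB m m hXT
  rw [if_pos rfl] at h1
  have e1 : ∀ t : ℝ, PP z X t ^ m * (starRingEnd ℂ) (PP z X t) ^ m = ((‖PP z X t‖ ^ (2 * m) : ℝ) : ℂ) := by
    intro t
    rw [← mul_pow, Complex.mul_conj, Complex.normSq_eq_norm_sq, pow_mul]
    push_cast
    ring
  simp_rw [e1] at h1
  rw [intervalIntegral.integral_ofReal, ← Complex.ofReal_mul, ← Complex.ofReal_sub, Complex.norm_real,
    Real.norm_eq_abs] at h1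
  have h2 := (abs_le.1 h1).2
  have hV := VS_nonneg (nz z) X
  have h3 := SS_le (nz z) X m
  have hm0 : (0 : ℝ) ≤ m.factorial * VS (nz z) X ^ m := by positivity
  rw [Real.mul_self_sqrt hm0] at h2
  have h4 : Real.sqrt T * (1 + Real.log T) ≤ 2 * T := by
    have hs : Real.sqrt T * Real.sqrt T = T := Real.mul_self_sqrt (by linarith)
    have hs0 : 0 < Real.sqrt T := Real.sqrt_pos.2 (by linarith)
    have h5 : Real.log T = 2 * Real.log (Real.sqrt T) := by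
      rw [Real.log_sqrt (by linarith)]; ring
    have h6 : Real.log (Real.sqrt T) ≤ Real.sqrt T - 1 := Real.log_le_sub_one_of_pos hs0
    nlinarith
  have h5 : (B - A) * SS (nz z) X m ≤ (B - A) * (m.factorial * VS (nz z) X ^ m) :=
    mul_le_mul_of_nonneg_left h3 (by linarith)
  have h6 : 8 * (Real.sqrt T * (1 + Real.log T)) * (m.factorial * VS (nz z) X ^ m) ≤
      8 * (2 * T) * (m.factorial * VS (nz z) X ^ m) := by
    gcongr
  calc ∫ t in A..B, ‖PP z X t‖ ^ (2 * m) ≤ (B - A) * (m.factorial * VS (nz z) X ^ m) +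
        8 * (2 * T) * (m.factorial * VS (nz z) X ^ m) := by
        linarith
    _ = _ := by ring

/-! ### the weights -/

/-- the normalised weight -/
def th (l : ℝ) (p : ℕ) : ℝ := l * ggo l p / Real.sqrt (2 * Real.pi)

lemma be_th {l : ℝ} {p : ℕ} (hp : p.Prime) : be l p = 1 / Real.pi * (Real.sqrt p)⁻¹ * th l p := by
  have hpi := Real.pi_pos
  have hlog : 0 < Real.log p := Real.log_pos (by exact_mod_cast hp.one_lt)
  unfold be th
  rw [ArithmeticFunction.vonMangoldt_apply_prime hp]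
  field_simp

lemma th_nonneg {l : ℝ} (hl : 0 < l) (p : ℕ) : 0 ≤ th l p := by
  unfold th
  have := ggo_nonneg l p
  positivity

lemma th_le_one {l : ℝ} (hl : 0 < l) (p : ℕ) : th l p ≤ 1 := by
  unfold th
  have h1 := ggo_le hl p
  have hs : 0 < Real.sqrt (2 * Real.pi) := Real.sqrt_pos.2 (by positivity)
  rw [div_le_one hs]
  calc l * ggo l p ≤ l * (Real.sqrt (2 * Real.pi) / l) := mul_le_mul_of_nonneg_left h1 hl.le
    _ = _ := by field_simp

lemma th_ge {l : ℝ} (hl : 1 ≤ l) {p : ℕ} (hp : p.Prime) (hpl : Real.log p ≤ l / 2) :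
    1 - 16 * ((1 + Real.log p) / l + 1 / p) ≤ th l p := by
  unfold th
  have h1 := ggo_low hl p hp.one_lt.le hpl
  have hs : 0 < Real.sqrt (2 * Real.pi) := Real.sqrt_pos.2 (by positivity)
  have hs2 : 5 / 2 ≤ Real.sqrt (2 * Real.pi) := by
    apply Real.le_sqrt_of_sq_le
    have := Real.pi_gt_d2
    norm_num at this ⊢
    linarith
  rw [le_div_iff₀ hs]
  have h2 : 0 ≤ (1 + Real.log p) / l + 1 / (p : ℝ) := by
    have : 0 ≤ Real.log p := Real.log_nonneg (by exact_mod_cast hp.one_lt.le)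
    positivity
  nlinarith

lemma be_sq {l : ℝ} {p : ℕ} (hp : p.Prime) : be l p ^ 2 = 1 / Real.pi ^ 2 * (1 / p) * th l p ^ 2 := by
  rw [be_th hp, mul_pow, mul_pow, inv_pow, Real.sq_sqrt (Nat.cast_nonneg _), div_pow, one_pow, one_div (p : ℝ)]

lemma be_sq_le {l : ℝ} (hl : 0 < l) {p : ℕ} (hp : p.Prime) : be l p ^ 2 ≤ 1 / Real.pi ^ 2 * (1 / p) := by
  rw [be_sq hp]
  have h1 : th l p ^ 2 ≤ 1 := pow_le_one₀ (th_nonneg hl p) (th_le_one hl p)
  have h2 : 0 ≤ 1 / Real.pi ^ 2 * (1 / (p : ℝ)) := by positivity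
  nlinarith

lemma be_sq_near {l : ℝ} (hl : 1 ≤ l) {p : ℕ} (hp : p.Prime) (hpl : Real.log p ≤ l / 2) :
    |be l p ^ 2 - 1 / Real.pi ^ 2 * (1 / p)| ≤ 1 / Real.pi ^ 2 * (1 / p) * (32 * ((1 + Real.log p) / l + 1 / p)) := by
  rw [be_sq hp]
  have h0 := th_nonneg (by linarith : 0 < l) p
  have h1 := th_le_one (by linarith : 0 < l) p
  have h2 := th_ge hl hp hpl
  have h3 : 0 ≤ 1 / Real.pi ^ 2 * (1 / (p : ℝ)) := by positivity
  have e : 1 / Real.pi ^ 2 * (1 / (p : ℝ)) * th l p ^ 2 - 1 / Real.pi ^ 2 * (1 / p) =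
      -(1 / Real.pi ^ 2 * (1 / (p : ℝ)) * (1 - th l p ^ 2)) := by ring
  have h4 : 0 ≤ 1 - th l p ^ 2 := by nlinarith
  rw [e, abs_neg, abs_of_nonneg (mul_nonneg h3 h4)]
  apply mul_le_mul_of_nonneg_left _ h3
  nlinarith

/-! ### the ranges -/

/-- the polynomial of a range of primes -/
def BB (l T x y t : ℝ) : ℂ := ∑ p ∈ Pm T x y, (be l p : ℂ) * (p : ℂ) ^ (-(t : ℂ) * I)

/-- the coefficients of a range -/
def bz (l T x : ℝ) (p : ℕ) : ℂ := if ⌊T ^ x⌋₊ < p then (be l p : ℂ) else 0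

lemma Pm_Pr (T x y : ℝ) : Pm T x y = (Pr (XK y T)).filter (fun p => ⌊T ^ x⌋₊ < p) := by
  ext p
  unfold Pm XK
  rw [Finset.mem_filter, Finset.mem_filter, mem_Pr, Finset.mem_Ioc]
  tauto

lemma BB_PP (l T x y t : ℝ) : BB l T x y t = PP (bz l T x) (XK y T) t := by
  unfold BB PP
  rw [Pm_Pr, Finset.sum_filter (s := Pr (XK y T))]
  refine Finset.sum_congr rfl fun p _ => ?_
  unfold bz
  split_ifs <;> simp

lemma VS_bz (l T x y : ℝ) : VS (nz (bz l T x)) (XK y T) = ∑ p ∈ Pm T x y, be l p ^ 2 := by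
  unfold VS
  rw [Pm_Pr, Finset.sum_filter (s := Pr (XK y T))]
  refine Finset.sum_congr rfl fun p _ => ?_
  unfold nz bz
  split_ifs
  · rw [Complex.norm_real, Real.norm_eq_abs, sq_abs]
  · simp

lemma BB_cont (l T x y : ℝ) : Continuous (BB l T x y) := by
  have h : BB l T x y = PP (bz l T x) (XK y T) := by
    funext t
    exact BB_PP l T x y t
  rw [h]
  exact PP_cont _ _

lemma BB_split {l T x y w : ℝ} (hT : 1 ≤ T) (hxy : x ≤ y) (hyw : y ≤ w) (t : ℝ) :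
    BB l T x w t = BB l T x y t + BB l T y w t := by
  have h1 : ⌊T ^ x⌋₊ ≤ ⌊T ^ y⌋₊ := Nat.floor_le_floor (Real.rpow_le_rpow_of_exponent_le hT hxy)
  have h2 : ⌊T ^ y⌋₊ ≤ ⌊T ^ w⌋₊ := Nat.floor_le_floor (Real.rpow_le_rpow_of_exponent_le hT hyw)
  unfold BB Pm
  rw [← Finset.sum_union]
  · congr 1
    ext p
    simp only [Finset.mem_filter, Finset.mem_union, Finset.mem_Ioc]
    constructor
    · rintro ⟨⟨a1, a2⟩, a3⟩
      by_cases h : p ≤ ⌊T ^ y⌋₊
      · exact Or.inl ⟨⟨a1, h⟩, a3⟩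
      · exact Or.inr ⟨⟨by omega, a2⟩, a3⟩
    · rintro (⟨⟨a1, a2⟩, a3⟩ | ⟨⟨a1, a2⟩, a3⟩)
      · exact ⟨⟨a1, by omega⟩, a3⟩
      · exact ⟨⟨by omega, a2⟩, a3⟩
  · rw [Finset.disjoint_left]
    intro p hp hq
    rw [Finset.mem_filter, Finset.mem_Ioc] at hp hq
    omega

/-- the window polynomial: the low part and the high part -/
lemma PP_ze {l T x y h : ℝ} (hT : 1 ≤ T) (hxy : x ≤ y) (t : ℝ) :
    PP (ze l h) (XK y T) t = PP (ze l h) (XK x T) t - I * (BB l T x y t - BB l T x y (t + h)) := by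
  have h1 : ⌊T ^ x⌋₊ ≤ ⌊T ^ y⌋₊ := Nat.floor_le_floor (Real.rpow_le_rpow_of_exponent_le hT hxy)
  have h2 : Pr (XK y T) = Pr (XK x T) ∪ Pm T x y := by
    ext p
    rw [Pm_Pr, Finset.mem_union, Finset.mem_filter (s := Pr (XK y T)), mem_Pr, mem_Pr]
    unfold XK
    constructor
    · rintro ⟨a1, a2⟩
      by_cases h : p ≤ ⌊T ^ x⌋₊
      · exact Or.inl ⟨a1, h⟩
      · exact Or.inr ⟨⟨a1, a2⟩, by omega⟩
    · rintro (⟨a1, a2⟩ | ⟨⟨a1, a2⟩, a3⟩)
      · exact ⟨a1, by omega⟩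
      · exact ⟨a1, a2⟩
  have h3 : Disjoint (Pr (XK x T)) (Pm T x y) := by
    rw [Finset.disjoint_left]
    intro p hp hq
    rw [mem_Pr] at hp
    rw [Pm_Pr, Finset.mem_filter] at hq
    unfold XK at hp
    omega
  unfold PP BB
  rw [h2, Finset.sum_union h3, sub_eq_add_neg]
  congr 1
  rw [← Finset.sum_sub_distrib, Finset.mul_sum, ← Finset.sum_neg_distrib]
  refine Finset.sum_congr rfl fun p hp => ?_
  rw [Pm_Pr, Finset.mem_filter, mem_Pr] at hp
  have hp0 := hp.1.1.ne_zero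
  rw [cpow_ex hp0, cpow_ex hp0]
  unfold ze
  have e1 : Complex.exp (-(I * ((t + h) * Real.log p : ℝ))) =
      Complex.exp (-(I * (t * Real.log p : ℝ))) * Complex.exp (-(I * (h * Real.log p : ℝ))) := by
    rw [← Complex.exp_add]; congr 1; push_cast; ring
  rw [e1]
  ring

/-- the low part has bounded variance -/
lemma VS_low : ∃ C : ℝ, 0 < C ∧ ∀ l h T x : ℝ, 0 < l → 10 ≤ T → 0 ≤ x → 1 ≤ x * Real.log T →
    VS (nz (ze l h)) (XK x T) ≤ C * (h * (x * Real.log T)) ^ 2 := by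
  obtain ⟨C1, hC1⟩ := Pool.Agent.Helper601.Mertens.mertens_log
  have hpi := Real.pi_pos
  have hC0 : 0 ≤ C1 := (abs_nonneg _).trans (hC1 1 le_rfl)
  refine ⟨1 + C1, by positivity, fun l h T x hl hT hx hxL => ?_⟩
  have hT0 : 0 < T := by linarith
  have hX1 : 1 ≤ XK x T := by
    unfold XK
    apply Nat.le_floor
    rw [Nat.cast_one]
    exact Real.one_le_rpow (by linarith) hx
  have hXr : (1 : ℝ) ≤ XK x T := by exact_mod_cast hX1
  obtain ⟨Λ, hΛ⟩ : ∃ z : ℝ, z = x * Real.log T := ⟨_, rfl⟩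
  rw [← hΛ] at hxL ⊢
  have hlX : Real.log (XK x T) ≤ Λ := by
    rw [hΛ, ← Real.log_rpow hT0]
    exact Real.log_le_log (by linarith) (Nat.floor_le (by positivity))
  unfold VS
  have h1 : ∀ p ∈ Pr (XK x T), nz (ze l h) p ^ 2 ≤ h ^ 2 * Λ * (Real.log p / p) := by
    intro p hp
    have hp' := mem_Pr.1 hp
    have hp0 : (0 : ℝ) < p := by exact_mod_cast hp'.1.pos
    have hlp : 0 ≤ Real.log p := Real.log_nonneg (by exact_mod_cast hp'.1.one_lt.le)
    have hlpX : Real.log p ≤ Λ :=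
      (Real.log_le_log hp0 (by exact_mod_cast hp'.2)).trans hlX
    unfold nz
    rw [ze_norm, sq_abs, rc_be, mul_pow]
    have h2 := be_sq_le hl hp'.1
    have h3 : (2 * Real.sin (h / 2 * Real.log p)) ^ 2 ≤ h ^ 2 * Real.log p ^ 2 := by
      have h4 : |Real.sin (h / 2 * Real.log p)| ≤ |h / 2 * Real.log p| := Real.abs_sin_le_abs
      have h5 : Real.sin (h / 2 * Real.log p) ^ 2 ≤ (h / 2 * Real.log p) ^ 2 := sq_le_sq.2 h4
      nlinarith
    have h6 : 1 / Real.pi ^ 2 ≤ 1 := by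
      rw [div_le_one (by positivity)]
      nlinarith [Real.pi_gt_three]
    calc be l p ^ 2 * (2 * Real.sin (h / 2 * Real.log p)) ^ 2 ≤
        (1 / Real.pi ^ 2 * (1 / p)) * (h ^ 2 * Real.log p ^ 2) :=
          mul_le_mul h2 h3 (sq_nonneg _) (by positivity)
      _ ≤ (1 * (1 / p)) * (h ^ 2 * Real.log p ^ 2) := by gcongr
      _ = h ^ 2 * Real.log p * (Real.log p / p) := by ring
      _ ≤ h ^ 2 * Λ * (Real.log p / p) := by gcongr
  refine (Finset.sum_le_sum h1).trans ?_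
  rw [← Finset.mul_sum]
  have h7 := (abs_le.1 (hC1 (XK x T) hX1)).2
  have h8 : ∑ p ∈ Pr (XK x T), Real.log p / p ≤ (1 + C1) * Λ := by
    have h9 : ∑ p ∈ Pr (XK x T), Real.log p / p =
        ∑ p ∈ (Finset.Icc 1 (XK x T)).filter Nat.Prime, Real.log p / p := rfl
    rw [h9]
    nlinarith
  calc h ^ 2 * Λ * ∑ p ∈ Pr (XK x T), Real.log p / p ≤ h ^ 2 * Λ * ((1 + C1) * Λ) := by
        apply mul_le_mul_of_nonneg_left h8
        have : 0 ≤ Λ := by linarith
        positivity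
    _ = _ := by ring

/-- **the prime sum: the primes and the rest** -/
theorem Db_rest : ∃ C3 C4 : ℝ, 0 ≤ C3 ∧ 0 ≤ C4 ∧ ∀ m : ℕ, 1 ≤ m → ∀ lam : ℝ, 8 * (m : ℝ) ≤ lam →
    ∃ T0 : ℝ, 10 ≤ T0 ∧ ∀ T : ℝ, T0 ≤ T → ∀ h : ℝ, ∃ P : ℝ → ℝ, Continuous P ∧ (∀ t, 0 ≤ P t) ∧
    (∀ t, |Db (Real.log T / lam) h (XT T) t - (PP (ze (Real.log T / lam) h) (XK (1 / (8 * m)) T) t).re| ≤
      P t + (C3 + 1)) ∧
    ∀ A' B' : ℝ, A' ≤ B' → B' - A' ≤ T → ∫ t in A'..B', P t ^ (2 * m) ≤ 18 * T * (m.factorial * C4 ^ m) := by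
  obtain ⟨C3, hC3, hpp⟩ := pp3_sum
  obtain ⟨C4, hC4, hV2⟩ := VS2_bd
  refine ⟨C3, C4, hC3, hC4, fun m hm lam hlm => ?_⟩
  have hmr : (1 : ℝ) ≤ m := by exact_mod_cast hm
  obtain ⟨κ, hκd⟩ : ∃ κ : ℝ, κ = 1 / (8 * m) := ⟨_, rfl⟩
  have hκ : 0 < κ := by rw [hκd]; positivity
  have hκ8 : κ ≤ 1 / 8 := by
    rw [hκd]
    apply one_div_le_one_div_of_le (by norm_num)
    linarith
  have hκlam : 1 / κ ≤ lam := by rw [hκd, one_div_one_div]; exact hlm
  obtain ⟨T5, hT5, hfar⟩ := far_sum κ lam hκ hκlam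
  have hlam0 : 0 < lam := by linarith
  refine ⟨T5, hT5, fun T hT h => ?_⟩
  have hT10 : 10 ≤ T := hT5.trans hT
  have hT0 : 0 < T := by linarith
  have hT1 : 1 ≤ T := by linarith
  have hfarT := hfar T hT
  rw [← hκd]
  obtain ⟨L, hL⟩ : ∃ L : ℝ, L = Real.log T := ⟨_, rfl⟩
  have hL0 : 0 < L := by rw [hL]; exact Real.log_pos (by linarith)
  obtain ⟨l, hl⟩ : ∃ l : ℝ, l = L / lam := ⟨_, rfl⟩
  have hl0 : 0 < l := by rw [hl]; positivity
  rw [← hL] at hfarT ⊢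
  rw [← hl] at hfarT ⊢
  obtain ⟨X, hX⟩ : ∃ X : ℕ, X = XK κ T := ⟨_, rfl⟩
  rw [← hX] at hfarT ⊢
  have hX1 : 1 ≤ X := by
    rw [hX]
    unfold XK
    apply Nat.le_floor
    rw [Nat.cast_one]
    exact Real.one_le_rpow hT1 hκ.le
  have hXle : X ≤ XT T := by
    rw [hX]
    unfold XK XT
    exact Nat.floor_le_floor (Real.rpow_le_rpow_of_exponent_le hT1 hκ8)
  have hX4 : ((X ^ (m + m) : ℕ) : ℝ) ≤ Real.sqrt T := by
    have h1 : (X : ℝ) ≤ T ^ κ := by rw [hX]; exact Nat.floor_le (by positivity)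
    push_cast
    calc (X : ℝ) ^ (m + m) ≤ (T ^ κ) ^ (m + m) := pow_le_pow_left₀ (Nat.cast_nonneg _) h1 _
      _ = T ^ (1 / 4 : ℝ) := by
          rw [← Real.rpow_natCast, ← Real.rpow_mul hT0.le]
          congr 1
          rw [hκd]
          push_cast
          field_simp
          norm_num
      _ ≤ T ^ (1 / 2 : ℝ) := Real.rpow_le_rpow_of_exponent_le hT1 (by norm_num)
      _ = Real.sqrt T := by rw [Real.sqrt_eq_rpow]
  have hs1 : 1 ≤ Nat.sqrt X := Nat.sqrt_pos.2 (by omega)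
  have hs4 : (((Nat.sqrt X) ^ (m + m) : ℕ) : ℝ) ≤ Real.sqrt T := by
    refine le_trans ?_ hX4
    exact_mod_cast Nat.pow_le_pow_left (Nat.sqrt_le_self X) _
  obtain ⟨P2, hP2⟩ : ∃ P2 : ℝ → ℂ, P2 = fun t => G (fun p => rc l h (p ^ 2)) (Nat.sqrt X) (2 * t + h) :=
    ⟨_, rfl⟩
  have hP2c : Continuous P2 := by
    rw [hP2]
    exact (G_cont _ _).comp (by fun_prop)
  refine ⟨fun t => ‖P2 t‖, hP2c.norm, fun t => norm_nonneg _, fun t => ?_, fun A' B' hAB hABT => ?_⟩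
  · have h1 := Db_G κ T l h hκ8 hT1 t
    rw [← hX] at h1
    obtain ⟨P4, hP4⟩ : ∃ P4 : ℂ, P4 = ∑ n ∈ Finset.Ioc X (XT T), Pool.Agent.TH850.UV.kap l h n *
      (n : ℂ) ^ (-(t : ℂ) * I) := ⟨_, rfl⟩
    have hsplit : ∑ n ∈ Finset.Icc 2 (XT T), (if n.Prime ∧ n ≤ X then 0 else
        Pool.Agent.TH850.UV.kap l h n) * (n : ℂ) ^ (-(t : ℂ) * I) =
        (∑ n ∈ Finset.Icc 2 X, (if n.Prime ∧ n ≤ X then 0 else Pool.Agent.TH850.UV.kap l h n) *
        (n : ℂ) ^ (-(t : ℂ) * I)) + P4 := by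
      rcases Nat.lt_or_ge X 2 with hX2 | hX2
      · have hXe : X = 1 := by omega
        have e1 : Finset.Icc 2 X = ∅ := Finset.Icc_eq_empty (by omega)
        rw [e1, Finset.sum_empty, zero_add, hP4]
        have e2 : Finset.Icc 2 (XT T) = Finset.Ioc X (XT T) := by
          ext n
          rw [Finset.mem_Icc, Finset.mem_Ioc]
          omega
        rw [e2]
        refine Finset.sum_congr rfl fun n hn => ?_
        rw [if_neg]
        intro hh
        have := (Finset.mem_Ioc.1 hn).1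
        omega
      · have e2 : Finset.Icc 2 (XT T) = Finset.Icc 2 X ∪ Finset.Ioc X (XT T) := by
          ext n
          rw [Finset.mem_union, Finset.mem_Icc, Finset.mem_Icc, Finset.mem_Ioc]
          omega
        rw [e2, Finset.sum_union]
        · congr 1
          rw [hP4]
          refine Finset.sum_congr rfl fun n hn => ?_
          rw [if_neg]
          intro hh
          have := (Finset.mem_Ioc.1 hn).1
          omega
        · rw [Finset.disjoint_left]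
          intro n hn hn2
          rw [Finset.mem_Icc] at hn
          rw [Finset.mem_Ioc] at hn2
          omega
    rw [hsplit, split_pp] at h1
    obtain ⟨P3, hP3⟩ : ∃ P3 : ℂ, P3 = ∑ n ∈ (Finset.Icc 2 X).filter
        (fun n => ¬ n.Prime ∧ ¬ ∃ p : ℕ, p.Prime ∧ n = p ^ 2),
        Pool.Agent.TH850.UV.kap l h n * (n : ℂ) ^ (-(t : ℂ) * I) := ⟨_, rfl⟩
    rw [← hP3] at h1
    have h3 : ‖P3‖ ≤ C3 := by
      refine le_trans ?_ (hpp X)
      rw [hP3]
      refine (norm_sum_le _ _).trans ?_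
      rw [Finset.sum_filter, Finset.sum_filter]
      refine Finset.sum_le_sum fun n hn => ?_
      have hn2 := (Finset.mem_Icc.1 hn).1
      have hk := kap_norm hl0 h n hn2
      have hc : ‖(n : ℂ) ^ (-(t : ℂ) * I)‖ = 1 := by
        have hn0 : (0 : ℝ) < n := by exact_mod_cast (by omega : 0 < n)
        have : ((n : ℕ) : ℂ) = ((n : ℝ) : ℂ) := by push_cast; rfl
        rw [this, Complex.norm_cpow_eq_rpow_re_of_pos hn0]
        simp
      by_cases hc1 : ¬ n.Prime ∧ ¬ ∃ p : ℕ, p.Prime ∧ n = p ^ 2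
      · rw [if_pos hc1, norm_mul, hc, mul_one]
        by_cases hc2 : IsPrimePow n
        · rw [if_pos ⟨hc2, hc1⟩]
          rw [if_pos hc2] at hk
          exact hk
        · rw [if_neg (fun hh => hc2 hh.1)]
          rw [if_neg hc2] at hk
          exact hk
      · rw [if_neg hc1, if_neg (fun hh => hc1 hh.2)]
    have h3' : ‖P4‖ ≤ 1 := by rw [hP4]; exact hfarT h t
    rw [G_PP] at h1
    rw [h1]
    have e5 : (PP (ze l h) X t).re + (G (fun p => rc l h (p ^ 2)) (Nat.sqrt X) (2 * t + h) + P3 + P4).re -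
        (PP (ze l h) X t).re = (P2 t + P3 + P4).re := by rw [hP2]; ring
    rw [e5]
    refine (Complex.abs_re_le_norm _).trans ?_
    refine (norm_add_le _ _).trans ?_
    have := norm_add_le (P2 t) P3
    show _ ≤ ‖P2 t‖ + (C3 + 1)
    linarith
  · have e1 : ∫ t in A'..B', ‖P2 t‖ ^ (2 * m) = (2 : ℝ)⁻¹ * ∫ t in (2 * A' + h)..(2 * B' + h),
        ‖G (fun p => rc l h (p ^ 2)) (Nat.sqrt X) t‖ ^ (2 * m) := by
      have := intervalIntegral.integral_comp_mul_add (a := A') (b := B')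
        (fun t => ‖G (fun p => rc l h (p ^ 2)) (Nat.sqrt X) t‖ ^ (2 * m)) (c := 2) (by norm_num) h
      rw [smul_eq_mul] at this
      rw [hP2]
      exact this
    show ∫ t in A'..B', ‖P2 t‖ ^ (2 * m) ≤ _
    rw [e1]
    have h2 := Gq m (fun p => rc l h (p ^ 2)) (Nat.sqrt X) hs1 T (2 * A' + h) (2 * B' + h) hT1
      (by linarith) hs4
    have h3 : VS (fun p => rc l h (p ^ 2)) (Nat.sqrt X) ^ m ≤ C4 ^ m :=
      pow_le_pow_left₀ (VS_nonneg _ _) (hV2 l h hl0 _) m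
    have h4 : ((2 * B' + h - (2 * A' + h)) + 16 * T) *
        (m.factorial * VS (fun p => rc l h (p ^ 2)) (Nat.sqrt X) ^ m) ≤
        (36 * T) * (m.factorial * C4 ^ m) := by
      apply mul_le_mul _ (mul_le_mul_of_nonneg_left h3 (by positivity)) (by
        have := VS_nonneg (fun p => rc l h (p ^ 2)) (Nat.sqrt X)
        positivity) (by positivity)
      linarith
    linarith

end

end Pool.Agent.T6.H5.MX
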