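import Pool.Agent.R320.VQ.Apx
import Pool.Agent.Y743.LR.NT3

/-! # The number of ordinates in a window and the prime sum: pointwise, on RH -/

set_option autoImplicit false

namespace Pool.Agent.T6.H5.MX

open Complex Filter Topology MeasureTheory Set
open Pool.Agent.TH850.UR (ew)
open Pool.Agent.TH850.UV
open H370 (zz Zf mult mem_Zf good_zeta NN NN_eq zz_re zz_im)
open H370.A2 (lamC)
open SP (RHs Mk mu)
open SG (NZ)

lemma sum_un {f : ℂ → ℝ} (hf : ∀ s, 0 ≤ f s) (A B : Finset ℂ) [DecidableEq ℂ] :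
    ∑ s ∈ A ∪ B, f s ≤ ∑ s ∈ A, f s + ∑ s ∈ B, f s := by
  have h1 := Finset.sum_union_inter (s₁ := A) (s₂ := B) (f := f)
  have h2 : 0 ≤ ∑ s ∈ A ∩ B, f s := Finset.sum_nonneg fun s _ => hf s
  linarith

/-- the zeros at distance at least `1` -/
lemma far_zeros : ∃ C : ℝ, 0 < C ∧ ∀ T : ℝ, 10 ≤ T → ∀ t : ℝ,
    ∑ s ∈ (Zf riemannZeta T (2 * T)).filter (fun s => 1 < |s.im - t|),
      (mult riemannZeta s : ℝ) / (s.im - t) ^ 2 ≤ C * Real.log T := by
  classical
  obtain ⟨C2, hC2, hw⟩ := wcount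
  have hsm : Summable (fun n : ℕ => 1 / (n : ℝ) ^ 2) := Real.summable_one_div_nat_pow.2 (by norm_num)
  refine ⟨2 * C2 * (1 + ∑' n : ℕ, 1 / (n : ℝ) ^ 2), by
    have : 0 ≤ ∑' n : ℕ, 1 / (n : ℝ) ^ 2 := tsum_nonneg fun n => by positivity
    positivity, fun T hT t => ?_⟩
  have hL : 0 < Real.log T := Real.log_pos (by linarith)
  obtain ⟨S, hS⟩ : ∃ S : Finset ℂ, S = (Zf riemannZeta T (2 * T)).filter (fun s => 1 < |s.im - t|) :=
    ⟨_, rfl⟩
  rw [← hS]
  obtain ⟨g, hg⟩ : ∃ g : ℂ → ℕ, ∀ s, g s = ⌊|s.im - t|⌋₊ := ⟨_, fun s => rfl⟩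
  have hpt : ∀ s ∈ S, (mult riemannZeta s : ℝ) / (s.im - t) ^ 2 ≤
      (mult riemannZeta s : ℝ) * (1 / (g s : ℝ) ^ 2) := by
    intro s hs
    rw [hS, Finset.mem_filter] at hs
    have h1 : (1 : ℝ) ≤ g s := by
      rw [hg]
      exact_mod_cast (Nat.one_le_floor_iff _).2 hs.2.le
    have h2 : (g s : ℝ) ≤ |s.im - t| := by rw [hg]; exact Nat.floor_le (abs_nonneg _)
    rw [mul_one_div]
    apply div_le_div_of_nonneg_left (Nat.cast_nonneg _) (by positivity)
    rw [← sq_abs (s.im - t)]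
    exact pow_le_pow_left₀ (by linarith) h2 2
  refine (Finset.sum_le_sum hpt).trans ?_
  have h3 : ∑ s ∈ S, (mult riemannZeta s : ℝ) * (1 / (g s : ℝ) ^ 2) =
      ∑ n ∈ S.image g, (1 / (n : ℝ) ^ 2) * ∑ s ∈ S.filter (fun s => g s = n), (mult riemannZeta s : ℝ) := by
    rw [← Finset.sum_fiberwise_of_maps_to (g := g) (t := S.image g)
      (fun s hs => Finset.mem_image_of_mem g hs)]
    refine Finset.sum_congr rfl fun n _ => ?_
    rw [Finset.mul_sum]
    refine Finset.sum_congr rfl fun s hs => ?_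
    rw [Finset.mem_filter] at hs
    rw [hs.2, mul_comm]
  rw [h3]
  have h4 : ∀ n : ℕ, ∑ s ∈ S.filter (fun s => g s = n), (mult riemannZeta s : ℝ) ≤
      2 * (C2 * Real.log T) := by
    intro n
    have hsub : S.filter (fun s => g s = n) ⊆
        (Zf riemannZeta T (2 * T)).filter (fun s => |s.im - (t + (n + 1 / 2))| ≤ 1 / 2) ∪
        (Zf riemannZeta T (2 * T)).filter (fun s => |s.im - (t - (n + 1 / 2))| ≤ 1 / 2) := by
      intro s hs
      rw [Finset.mem_filter, hS, Finset.mem_filter] at hs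
      obtain ⟨⟨a1, a2⟩, a3⟩ := hs
      rw [hg] at a3
      have b1 : (n : ℝ) ≤ |s.im - t| := by rw [← a3]; exact Nat.floor_le (abs_nonneg _)
      have b2 : |s.im - t| < n + 1 := by rw [← a3]; exact Nat.lt_floor_add_one _
      rw [Finset.mem_union, Finset.mem_filter, Finset.mem_filter]
      rcases le_total 0 (s.im - t) with h | h
      · rw [abs_of_nonneg h] at b1 b2
        left
        refine ⟨a1, ?_⟩
        rw [abs_le]
        constructor <;> linarith
      · rw [abs_of_nonpos h] at b1 b2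
        right
        refine ⟨a1, ?_⟩
        rw [abs_le]
        constructor <;> linarith
    calc _ ≤ ∑ s ∈ (Zf riemannZeta T (2 * T)).filter (fun s => |s.im - (t + (n + 1 / 2))| ≤ 1 / 2) ∪
        (Zf riemannZeta T (2 * T)).filter (fun s => |s.im - (t - (n + 1 / 2))| ≤ 1 / 2),
          (mult riemannZeta s : ℝ) :=
          Finset.sum_le_sum_of_subset_of_nonneg hsub fun _ _ _ => Nat.cast_nonneg _
      _ ≤ _ := by
        refine (sum_un (fun _ => Nat.cast_nonneg _) _ _).trans ?_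
        have c1 := hw T hT (t + (n + 1 / 2)) (1 / 2) le_rfl
        have c2 := hw T hT (t - (n + 1 / 2)) (1 / 2) le_rfl
        linarith
  calc _ ≤ ∑ n ∈ S.image g, (1 / (n : ℝ) ^ 2) * (2 * (C2 * Real.log T)) :=
        Finset.sum_le_sum fun n _ => mul_le_mul_of_nonneg_left (h4 n) (by positivity)
    _ = (∑ n ∈ S.image g, (1 / (n : ℝ) ^ 2)) * (2 * (C2 * Real.log T)) := by rw [Finset.sum_mul]
    _ ≤ (1 + ∑' n : ℕ, 1 / (n : ℝ) ^ 2) * (2 * (C2 * Real.log T)) := by
        apply mul_le_mul_of_nonneg_right _ (by positivity)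
        have := hsm.sum_le_tsum (S.image g) fun n _ => by positivity
        linarith
    _ = _ := by ring

/-- the majorant, pointwise -/
lemma VV_pt (hRH : RHs) : ∃ C : ℝ, 0 < C ∧ ∀ T : ℝ, 10 ≤ T → ∀ lam t : ℝ,
    VV lam T t ≤ C * Real.log T := by
  classical
  obtain ⟨C2, hC2, hw⟩ := wcount
  obtain ⟨C3, hC3, hf⟩ := far_zeros
  refine ⟨2 * C2 + C3, by positivity, fun T hT lam t => ?_⟩
  have hL1 : 1 ≤ Real.log T := by
    rw [Real.le_log_iff_exp_le (by linarith)]
    linarith [Real.exp_one_lt_d9]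
  have hew : ∀ s ∈ Zf riemannZeta T (2 * T), ew (1 / (2 * lam)) (Real.log T) s = 1 := by
    intro s hs
    rw [mem_Zf good_zeta (by linarith)] at hs
    have hre : s.re = 1 / 2 := hRH s hs.1 hs.2.1 hs.2.2.2.2
    unfold Pool.Agent.TH850.UR.ew
    rw [hre]
    simp
  unfold VV
  rw [← Finset.sum_filter_add_sum_filter_not (Zf riemannZeta T (2 * T)) (fun s => 1 < |s.im - t|)]
  have h1 : ∑ s ∈ (Zf riemannZeta T (2 * T)).filter (fun s => 1 < |s.im - t|),
      ((mult riemannZeta s : ℝ) * ew (1 / (2 * lam)) (Real.log T) s) /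
        (1 + ((s.im - t) * Real.log T) ^ 2) ≤ C3 * Real.log T := by
    refine le_trans (Finset.sum_le_sum fun s hs => ?_) (hf T hT t)
    rw [Finset.mem_filter] at hs
    rw [hew s hs.1, mul_one]
    have h2 : 0 < (s.im - t) ^ 2 := by
      rw [← sq_abs]
      have := hs.2
      positivity
    apply div_le_div_of_nonneg_left (Nat.cast_nonneg _) h2
    rw [mul_pow]
    have h3 : (1 : ℝ) ≤ Real.log T ^ 2 := one_le_pow₀ hL1
    nlinarith
  have h4 : ∑ s ∈ (Zf riemannZeta T (2 * T)).filter (fun s => ¬ 1 < |s.im - t|),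
      ((mult riemannZeta s : ℝ) * ew (1 / (2 * lam)) (Real.log T) s) /
        (1 + ((s.im - t) * Real.log T) ^ 2) ≤ 2 * C2 * Real.log T := by
    have hsub : (Zf riemannZeta T (2 * T)).filter (fun s => ¬ 1 < |s.im - t|) ⊆
        (Zf riemannZeta T (2 * T)).filter (fun s => |s.im - (t + 1 / 2)| ≤ 1 / 2) ∪
        (Zf riemannZeta T (2 * T)).filter (fun s => |s.im - (t - 1 / 2)| ≤ 1 / 2) := by
      intro s hs
      rw [Finset.mem_filter] at hs
      obtain ⟨a1, a3⟩ := hs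
      rw [not_lt, abs_le] at a3
      rw [Finset.mem_union, Finset.mem_filter, Finset.mem_filter]
      rcases le_total 0 (s.im - t) with h | h
      · left
        refine ⟨a1, ?_⟩
        rw [abs_le]
        constructor <;> linarith
      · right
        refine ⟨a1, ?_⟩
        rw [abs_le]
        constructor <;> linarith
    calc _ ≤ ∑ s ∈ (Zf riemannZeta T (2 * T)).filter (fun s => ¬ 1 < |s.im - t|),
          (mult riemannZeta s : ℝ) := by
          refine Finset.sum_le_sum fun s hs => ?_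
          rw [Finset.mem_filter] at hs
          rw [hew s hs.1, mul_one]
          apply div_le_self (Nat.cast_nonneg _)
          nlinarith [sq_nonneg ((s.im - t) * Real.log T)]
      _ ≤ ∑ s ∈ (Zf riemannZeta T (2 * T)).filter (fun s => |s.im - (t + 1 / 2)| ≤ 1 / 2) ∪
        (Zf riemannZeta T (2 * T)).filter (fun s => |s.im - (t - 1 / 2)| ≤ 1 / 2),
          (mult riemannZeta s : ℝ) :=
          Finset.sum_le_sum_of_subset_of_nonneg hsub fun _ _ _ => Nat.cast_nonneg _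
      _ ≤ _ := by
        refine (sum_un (fun _ => Nat.cast_nonneg _) _ _).trans ?_
        have c1 := hw T hT (t + 1 / 2) (1 / 2) le_rfl
        have c2 := hw T hT (t - 1 / 2) (1 / 2) le_rfl
        linarith
  calc _ ≤ C3 * Real.log T + 2 * C2 * Real.log T := add_le_add h1 h4
    _ = _ := by ring

/-- the jump statistic in terms of the local count -/
lemma GJ_pt (hRH : RHs) : ∃ C : ℝ, 0 < C ∧ ∀ lam : ℝ, 1 ≤ lam → ∀ T : ℝ, 10 ≤ T →
    ∀ S : Finset ℂ, S ⊆ Zf riemannZeta T (2 * T) → ∀ k : ℕ, 2 * Real.pi * lam ≤ k → ∀ t : ℝ,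
    |GS Jk S (Real.log T / lam) t| ≤ C * (Mk T k t + lam ^ 2 / Real.log T) := by
  classical
  obtain ⟨CJ, hCJ, hJ⟩ := Jk_le
  obtain ⟨C3, hC3, hf⟩ := far_zeros
  have hpi := Real.pi_pos
  refine ⟨CJ * (2 + 4 * Real.pi ^ 2 * C3), by positivity, fun lam hlam T hT S hS k hk t => ?_⟩
  have hL1 : 1 ≤ Real.log T := by
    rw [Real.le_log_iff_exp_le (by linarith)]
    linarith [Real.exp_one_lt_d9]
  obtain ⟨L, hL⟩ : ∃ L : ℝ, L = Real.log T := ⟨_, rfl⟩
  rw [← hL] at hL1 ⊢
  have hL0 : 0 < L := by linarith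
  have hlam0 : 0 < lam := by linarith
  have hk0 : (0 : ℝ) < k := by
    have : 0 < 2 * Real.pi * lam := by positivity
    linarith
  obtain ⟨Z, hZ⟩ : ∃ Z : Finset ℂ, Z = Zf riemannZeta T (2 * T) := ⟨_, rfl⟩
  have hMk : Mk T k t = ∑ s ∈ Z, (mu s : ℝ) * Real.exp (-(s.im - t) ^ 2 / 2) /
      (1 + (L * (s.im - t) / k) ^ 2) := by
    unfold SP.Mk
    rw [hZ, hL]
    exact H370.finsum_Zf good_zeta (by linarith) _
  have hre : ∀ s ∈ Z, s.re = 1 / 2 := by
    intro s hs
    rw [hZ, mem_Zf good_zeta (by linarith)] at hs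
    exact hRH s hs.1 hs.2.1 hs.2.2.2.2
  -- the terms
  obtain ⟨g, hg⟩ : ∃ g : ℂ → ℝ, ∀ s, g s = CJ * ((mult riemannZeta s : ℝ) / (1 + xS (L / lam) t s ^ 2)) :=
    ⟨_, fun s => rfl⟩
  have hg0 : ∀ s, 0 ≤ g s := fun s => by rw [hg]; positivity
  have h1 : |GS Jk S (L / lam) t| ≤ ∑ s ∈ Z, g s := by
    unfold GS
    refine (Finset.abs_sum_le_sum_abs _ _).trans ?_
    refine le_trans (Finset.sum_le_sum fun s hs => ?_)
      (Finset.sum_le_sum_of_subset_of_nonneg (hZ ▸ hS) fun s _ _ => hg0 s)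
    have hs' : s ∈ Z := hZ ▸ hS hs
    rw [abs_mul, abs_of_nonneg (mS_nonneg s), hg]
    have h2 := hJ (yS (L / lam) s) (xS (L / lam) t s)
    have h3 : yS (L / lam) s = 0 := by
      unfold yS
      rw [hre s hs']
      ring
    rw [h3] at h2 ⊢
    rw [abs_zero, mul_zero, Real.exp_zero, mul_one] at h2
    have h4 := mul_le_mul_of_nonneg_left h2 (mS_nonneg s)
    refine h4.trans (le_of_eq ?_)
    unfold mS
    ring
  refine h1.trans ?_
  rw [← Finset.sum_filter_add_sum_filter_not Z (fun s => 1 < |s.im - t|)]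
  have hW : ∀ s, xS (L / lam) t s = (s.im - t) * (L / (2 * Real.pi * lam)) := by
    intro s
    unfold xS
    field_simp
  have hfar : ∑ s ∈ Z.filter (fun s => 1 < |s.im - t|), g s ≤
      CJ * (4 * Real.pi ^ 2 * C3) * (lam ^ 2 / L) := by
    have h5 := hf T hT t
    rw [← hZ, ← hL] at h5
    have h6 : ∀ s ∈ Z.filter (fun s => 1 < |s.im - t|), g s ≤
        CJ * (4 * Real.pi ^ 2 * lam ^ 2 / L ^ 2) * ((mult riemannZeta s : ℝ) / (s.im - t) ^ 2) := by
      intro s hs
      rw [Finset.mem_filter] at hs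
      have h2 : 0 < (s.im - t) ^ 2 := by
        rw [← sq_abs]
        have := hs.2
        positivity
      rw [hg, mul_assoc]
      apply mul_le_mul_of_nonneg_left _ hCJ.le
      rw [hW, mul_pow]
      have h7 : (mult riemannZeta s : ℝ) / (1 + (s.im - t) ^ 2 * (L / (2 * Real.pi * lam)) ^ 2) ≤
          (mult riemannZeta s : ℝ) / ((s.im - t) ^ 2 * (L / (2 * Real.pi * lam)) ^ 2) := by
        apply div_le_div_of_nonneg_left (Nat.cast_nonneg _) (by positivity)
        linarith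
      refine h7.trans (le_of_eq ?_)
      field_simp
      ring
    calc _ ≤ ∑ s ∈ Z.filter (fun s => 1 < |s.im - t|),
          CJ * (4 * Real.pi ^ 2 * lam ^ 2 / L ^ 2) * ((mult riemannZeta s : ℝ) / (s.im - t) ^ 2) :=
          Finset.sum_le_sum h6
      _ = CJ * (4 * Real.pi ^ 2 * lam ^ 2 / L ^ 2) * ∑ s ∈ Z.filter (fun s => 1 < |s.im - t|),
          ((mult riemannZeta s : ℝ) / (s.im - t) ^ 2) := by rw [Finset.mul_sum]
      _ ≤ CJ * (4 * Real.pi ^ 2 * lam ^ 2 / L ^ 2) * (C3 * L) := by gcongr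
      _ = _ := by field_simp
  have hnear : ∑ s ∈ Z.filter (fun s => ¬ 1 < |s.im - t|), g s ≤ CJ * 2 * Mk T k t := by
    rw [hMk]
    calc _ ≤ ∑ s ∈ Z.filter (fun s => ¬ 1 < |s.im - t|), CJ * 2 *
          ((mu s : ℝ) * Real.exp (-(s.im - t) ^ 2 / 2) / (1 + (L * (s.im - t) / k) ^ 2)) := by
          refine Finset.sum_le_sum fun s hs => ?_
          rw [Finset.mem_filter, not_lt] at hs
          have hx : (s.im - t) ^ 2 ≤ 1 := by
            rw [sq_le_one_iff_abs_le_one]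
            exact hs.2
          have hexp : 1 / 2 ≤ Real.exp (-(s.im - t) ^ 2 / 2) := by
            have := Real.add_one_le_exp (-(s.im - t) ^ 2 / 2)
            linarith
          have e3 : (mult riemannZeta s : ℝ) = (mu s : ℝ) := rfl
          rw [hg, hW, e3, mul_assoc CJ 2]
          apply mul_le_mul_of_nonneg_left _ hCJ.le
          have hd : 1 + (L * (s.im - t) / k) ^ 2 ≤ 1 + ((s.im - t) * (L / (2 * Real.pi * lam))) ^ 2 := by
            have e4 : (L * (s.im - t) / k) ^ 2 = (s.im - t) ^ 2 * (L / k) ^ 2 := by ring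
            rw [e4, mul_pow]
            have h8 : L / k ≤ L / (2 * Real.pi * lam) :=
              div_le_div_of_nonneg_left hL0.le (by positivity) hk
            have h9 : (L / k) ^ 2 ≤ (L / (2 * Real.pi * lam)) ^ 2 :=
              pow_le_pow_left₀ (by positivity) h8 2
            have := mul_le_mul_of_nonneg_left h9 (sq_nonneg (s.im - t))
            linarith
          calc (mu s : ℝ) / (1 + ((s.im - t) * (L / (2 * Real.pi * lam))) ^ 2) ≤
              (mu s : ℝ) / (1 + (L * (s.im - t) / k) ^ 2) :=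
                div_le_div_of_nonneg_left (Nat.cast_nonneg _) (by positivity) hd
            _ ≤ 2 * ((mu s : ℝ) * Real.exp (-(s.im - t) ^ 2 / 2) / (1 + (L * (s.im - t) / k) ^ 2)) := by
                rw [← mul_div_assoc]
                apply div_le_div_of_nonneg_right _ (by positivity)
                have : (0 : ℝ) ≤ mu s := Nat.cast_nonneg _
                nlinarith
      _ ≤ ∑ s ∈ Z, CJ * 2 *
          ((mu s : ℝ) * Real.exp (-(s.im - t) ^ 2 / 2) / (1 + (L * (s.im - t) / k) ^ 2)) :=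
          Finset.sum_le_sum_of_subset_of_nonneg (Finset.filter_subset _ _) fun s _ _ => by positivity
      _ = _ := by rw [Finset.mul_sum]
  have hMk0 : 0 ≤ Mk T k t := by
    rw [hMk]
    exact Finset.sum_nonneg fun s _ => by positivity
  have hl0 : 0 ≤ lam ^ 2 / L := by positivity
  calc _ ≤ CJ * (4 * Real.pi ^ 2 * C3) * (lam ^ 2 / L) + CJ * 2 * Mk T k t := add_le_add hfar hnear
    _ ≤ _ := by
      have h1 : 0 ≤ CJ * (4 * Real.pi ^ 2 * C3) * Mk T k t := by positivity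
      have h2 : 0 ≤ CJ * 2 * (lam ^ 2 / L) := by positivity
      nlinarith

/-- **the number of ordinates in a short window and the prime sum, pointwise** -/
theorem pw (hRH : RHs) : ∃ CJ : ℝ, 0 < CJ ∧ ∀ lam : ℝ, 16 ≤ lam → ∀ A0 : ℝ, 0 < A0 →
    ∃ T0 : ℝ, 10 ≤ T0 ∧ ∀ T : ℝ, T0 ≤ T → ∀ a : ℝ, 0 ≤ a → a ≤ A0 → ∀ k : ℕ, 2 * Real.pi * lam ≤ k →
    ∀ t : ℝ, T + Real.log T ≤ t → t ≤ 2 * T - Real.log T - 8 →
    |((NZ (t + 2 * Real.pi * a / Real.log T) : ℝ) - NZ t) - a +
      Db (Real.log T / lam) (2 * Real.pi * a / Real.log T) (XT T) t| ≤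
      1 + CJ * (Mk T k t + Mk T k (t + 2 * Real.pi * a / Real.log T)) := by
  obtain ⟨CJ, hCJ, hGJ⟩ := GJ_pt hRH
  obtain ⟨CV, hCV, hVp⟩ := VV_pt hRH
  obtain ⟨CA, hCA, hA⟩ := An_Ac
  have hpi := Real.pi_pos
  refine ⟨CJ, hCJ, fun lam hlam A0 hA0 => ?_⟩
  obtain ⟨CE, T2, hCE, hT2, hAc⟩ := Ac_est hlam
  have hlam0 : 0 < lam := by linarith
  obtain ⟨Λ, hΛ⟩ : ∃ Λ : ℝ, Λ = (2 * Real.pi * lam) ^ 2 := ⟨_, rfl⟩
  have hΛ0 : 0 < Λ := by rw [hΛ]; positivity
  -- the total remainder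
  obtain ⟨C5, hC5⟩ : ∃ C5 : ℝ, C5 = CE * A0 + CA * Λ * (2 * Real.pi * lam) * (2 * Real.pi * A0) * CV +
    2 * CJ * lam ^ 2 := ⟨_, rfl⟩
  have hC50 : 0 < C5 := by rw [hC5]; positivity
  obtain ⟨T4, hT4⟩ := (Real.tendsto_log_atTop.eventually_ge_atTop
    (max (max C5 (2 * Real.pi * A0)) 1)).exists_forall_of_atTop
  refine ⟨max T2 T4, hT2.trans (le_max_left _ _), fun T hT a ha haA k hk t ht1 ht2 => ?_⟩
  have hTT2 : T2 ≤ T := (le_max_left _ _).trans hT
  have g4 := hT4 T ((le_max_right _ _).trans hT)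
  have hT10 : 10 ≤ T := hT2.trans hTT2
  obtain ⟨L, hL⟩ : ∃ L : ℝ, L = Real.log T := ⟨_, rfl⟩
  obtain ⟨U1, U2, hU1, hU1', hU2', hU2, hAct⟩ := hAc T hTT2
  have hAt := hA lam T (by linarith) hT10 U1 U2 hU1 hU2
  have hVt := hVp T hT10 lam
  have hGt := hGJ lam (by linarith) T hT10
  rw [← hL] at g4 ht1 ht2 hAct hAt hVt hGt ⊢
  have g1 : C5 ≤ L := (le_max_left _ _).trans ((le_max_left _ _).trans g4)
  have g2 : 2 * Real.pi * A0 ≤ L := (le_max_right _ _).trans ((le_max_left _ _).trans g4)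
  have hL1 : 1 ≤ L := (le_max_right _ _).trans g4
  have hL0 : 0 < L := by linarith
  have hU : 1 ≤ U1 := by linarith
  obtain ⟨S, hS⟩ : ∃ S : Finset ℂ, S = Zf riemannZeta U1 U2 := ⟨_, rfl⟩
  have hsub : S ⊆ Zf riemannZeta T (2 * T) := by
    intro s hs
    rw [hS, mem_Zf good_zeta hU] at hs
    rw [mem_Zf good_zeta (by linarith)]
    exact ⟨hs.1, hs.2.1, by linarith [hs.2.2.1], by linarith [hs.2.2.2.1], hs.2.2.2.2⟩
  rw [← hS] at hAt
  obtain ⟨l, hl⟩ : ∃ l : ℝ, l = L / lam := ⟨_, rfl⟩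
  have hl0 : 0 < l := by rw [hl]; positivity
  obtain ⟨W, hW⟩ : ∃ W : ℝ, W = l / (2 * Real.pi) := ⟨_, rfl⟩
  have hW0 : 0 < W := by rw [hW]; positivity
  obtain ⟨h, hh⟩ : ∃ h : ℝ, h = 2 * Real.pi * a / L := ⟨_, rfl⟩
  have hh0 : 0 ≤ h := by rw [hh]; positivity
  have hh1 : h ≤ 1 := by
    rw [hh, div_le_one hL0]
    have : 2 * Real.pi * a ≤ 2 * Real.pi * A0 := by gcongr
    linarith
  have hWh : W * lam * h = a := by
    rw [hW, hl, hh]; field_simp
  rw [← hl] at hAct hAt hGt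
  rw [← hh, ← hl]
  -- the pieces
  have hNZ : ((NZ (t + h) : ℝ) - NZ t) = NS S h t := by
    rw [← Pool.Agent.Y743.LR.cnt_NZ (by linarith) hh0, hS]
    exact cnt_eq (by linarith) (by linarith) (by linarith)
  rw [hNZ, NS_eq S hl0 hh0 t]
  have hqc := GSq_cont S l
  have hDPc : Continuous fun τ => 2 * (1 / Real.sqrt (2 * Real.pi)) * (DDo lamC l (XT T) τ).re := by
    have := DDo_cont lamC l (XT T)
    exact continuous_const.mul (Complex.continuous_re.comp this)
  obtain ⟨DP, hDP⟩ : ∃ DP : ℝ → ℝ, DP = fun τ => 2 * (1 / Real.sqrt (2 * Real.pi)) *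
    (DDo lamC l (XT T) τ).re := ⟨_, rfl⟩
  rw [← hDP] at hDPc
  obtain ⟨R, hR⟩ : ∃ R : ℝ, R = GS Qk S l t - GS Qk S l (t + h) - a + Db l h (XT T) t := ⟨_, rfl⟩
  have hRint : R = ∫ τ in t..(t + h), W * (GS qk S l τ - lam + DP τ) := by
    rw [hR, BS_eq S l h t, Db_eq l h (XT T) t]
    have e1 : ∀ τ, W * (GS qk S l τ - lam + DP τ) = W * GS qk S l τ - W * lam + W * DP τ :=
      fun τ => by ring
    simp_rw [e1]
    rw [intervalIntegral.integral_add (Continuous.intervalIntegrable (by fun_prop) _ _)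
      (Continuous.intervalIntegrable (by fun_prop) _ _),
      intervalIntegral.integral_sub (Continuous.intervalIntegrable (by fun_prop) _ _)
      (Continuous.intervalIntegrable (by fun_prop) _ _), intervalIntegral.integral_const,
      smul_eq_mul]
    have e2 : (t + h - t) * (W * lam) = a := by rw [← hWh]; ring
    rw [e2, hDP, hW]
  have hRb : |R| ≤ (CE * A0 + CA * Λ * (2 * Real.pi * lam) * (2 * Real.pi * A0) * CV) / L := by
    rw [hRint]
    refine (intervalIntegral.abs_integral_le_integral_abs (by linarith only [hh0])).trans ?_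
    have h1 : ∫ τ in t..(t + h), |W * (GS qk S l τ - lam + DP τ)| ≤
        ∫ τ in t..(t + h), (W * (CE / L) + CA * Λ / W * (CV * L)) := by
      refine intervalIntegral.integral_mono_on (by linarith only [hh0])
        (Continuous.intervalIntegrable (by fun_prop) _ _)
        (Continuous.intervalIntegrable (by fun_prop) _ _) fun τ hτ => ?_
      rw [abs_mul, abs_of_pos hW0]
      have h2 := hAct τ (by linarith only [ht1, hτ.1]) (by linarith only [ht2, hτ.2, hh1])
      have h3 := hAt τ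
      rw [← hW, ← hΛ] at h3
      have h3' : CA / W ^ 2 * Λ * VV lam T τ ≤ CA / W ^ 2 * Λ * (CV * L) :=
        mul_le_mul_of_nonneg_left (hVt τ) (by positivity)
      have h4 : |GS qk S l τ - lam + DP τ| ≤ CA / W ^ 2 * Λ * (CV * L) + CE / L := by
        have e3 : GS qk S l τ - lam + DP τ = (GS qk S l τ - 2 * (HTo l U1 U2 τ).re) +
            (2 * (HTo l U1 U2 τ).re - (lam - DP τ)) := by ring
        rw [e3]
        refine (abs_add_le _ _).trans (add_le_add (h3.trans h3') ?_)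
        rw [hDP]
        exact h2
      calc W * |GS qk S l τ - lam + DP τ| ≤ W * (CA / W ^ 2 * Λ * (CV * L) + CE / L) :=
            mul_le_mul_of_nonneg_left h4 hW0.le
        _ = _ := by field_simp; ring
    refine h1.trans ?_
    rw [intervalIntegral.integral_const, smul_eq_mul]
    have e5 : (t + h - t) * (W * (CE / L) + CA * Λ / W * (CV * L)) =
        (CE * a / lam + CA * Λ * (2 * Real.pi * lam) * (2 * Real.pi * a) * CV) / L := by
      have e6 : W * h = a / lam := by rw [eq_div_iff hlam0.ne', ← hWh]; ring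
      have e7 : h / W = (2 * Real.pi * lam) * (2 * Real.pi * a) / L ^ 2 := by
        rw [hW, hl, hh]; field_simp
      have e8 : (t + h - t) * (W * (CE / L) + CA * Λ / W * (CV * L)) =
          (W * h) * (CE / L) + CA * Λ * (h / W) * (CV * L) := by field_simp; ring
      rw [e8, e6, e7]
      field_simp
    rw [e5]
    have e9 : CE * a / lam ≤ CE * A0 := by
      calc CE * a / lam ≤ CE * a := div_le_self (by positivity) (by linarith)
        _ ≤ CE * A0 := by gcongr
    gcongr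
  have hJ1 := hGt S hsub k hk t
  have hJ2 := hGt S hsub k hk (t + h)
  have e10 : GS Qk S l t - GS Qk S l (t + h) - (GS Jk S l t - GS Jk S l (t + h)) - a + Db l h (XT T) t =
      R - GS Jk S l t + GS Jk S l (t + h) := by rw [hR]; ring
  rw [e10]
  have h11 : |R - GS Jk S l t + GS Jk S l (t + h)| ≤ |R| + |GS Jk S l t| + |GS Jk S l (t + h)| := by
    refine (abs_add_le _ _).trans ?_
    have := abs_sub R (GS Jk S l t)
    linarith
  have h12 : (CE * A0 + CA * Λ * (2 * Real.pi * lam) * (2 * Real.pi * A0) * CV) / L +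
      2 * (CJ * (lam ^ 2 / L)) ≤ 1 := by
    have e11 : (CE * A0 + CA * Λ * (2 * Real.pi * lam) * (2 * Real.pi * A0) * CV) / L +
      2 * (CJ * (lam ^ 2 / L)) = C5 / L := by rw [hC5]; field_simp
    rw [e11, div_le_one hL0]
    exact g1
  refine h11.trans ?_
  calc _ ≤ (CE * A0 + CA * Λ * (2 * Real.pi * lam) * (2 * Real.pi * A0) * CV) / L +
        CJ * (Mk T k t + lam ^ 2 / L) + CJ * (Mk T k (t + h) + lam ^ 2 / L) := by gcongr
    _ = ((CE * A0 + CA * Λ * (2 * Real.pi * lam) * (2 * Real.pi * A0) * CV) / L +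
        2 * (CJ * (lam ^ 2 / L))) + CJ * (Mk T k t + Mk T k (t + h)) := by ring
    _ ≤ _ := by linarith

end Pool.Agent.T6.H5.MX
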