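import Pool.Agent.T6.H5.MX.LE
import Pool.Agent.T6.H5.MX.PW

/-! # Tails of the prime polynomials -/

set_option autoImplicit false

namespace Pool.Agent.T6.H5.MX

open Filter Topology MeasureTheory Set
open Pool.Agent.Y743.CL (VS VS_nonneg XK)
open Pool.Agent.R320.JL (PP PP_cont nz ze)

noncomputable section

/-- Markov's inequality -/
lemma mkv {P : ℝ → ℝ} (hc : Continuous P) (h0 : ∀ t, 0 ≤ P t) {A B V I : ℝ} (hAB : A ≤ B) (hV : 0 < V)
    (q : ℕ) (hI : ∫ t in A..B, P t ^ q ≤ I) :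
    volume.real {t | t ∈ Icc A B ∧ V < P t} ≤ I / V ^ q := by
  obtain ⟨S, hS⟩ : ∃ S : Set ℝ, S = {t | t ∈ Icc A B ∧ V < P t} := ⟨_, rfl⟩
  rw [← hS]
  have hSm : MeasurableSet S := by
    rw [hS]
    exact measurableSet_Icc.inter (measurableSet_lt measurable_const hc.measurable)
  have hSs : S ⊆ Icc A B := by rw [hS]; exact fun t ht => ht.1
  rw [le_div_iff₀ (by positivity)]
  refine le_trans ?_ hI
  have hii : IntegrableOn (fun t => P t ^ q) (Icc A B) := Continuous.integrableOn_Icc (by fun_prop)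
  rw [intervalIntegral.integral_of_le hAB, ← integral_Icc_eq_integral_Ioc]
  have h10 : ∫ t in S, P t ^ q ≤ ∫ t in Icc A B, P t ^ q :=
    setIntegral_mono_set hii (Filter.Eventually.of_forall fun t => by
      have := h0 t
      show 0 ≤ P t ^ q
      positivity) (Filter.Eventually.of_forall hSs)
  have h11 : ∫ _t in S, V ^ q ≤ ∫ t in S, P t ^ q := by
    refine setIntegral_mono_on (integrableOn_const (by
      exact ne_top_of_le_ne_top (by simp [Real.volume_Icc]) (measure_mono hSs)))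
      (hii.mono_set hSs) hSm fun t ht => ?_
    rw [hS] at ht
    exact pow_le_pow_left₀ hV.le ht.2.le q
  rw [setIntegral_const, smul_eq_mul] at h11
  exact h11.trans h10

/-- the tail of a prime polynomial -/
lemma tl_PP {T : ℝ} (hT : 1 ≤ T) {y : ℝ} (hy : 0 ≤ y) (z : ℕ → ℂ) (m : ℕ) (hm : 4 * (m : ℝ) * y ≤ 1)
    {W : ℝ} (hW : VS (nz z) (XK y T) ≤ W) (s : ℝ) {V : ℝ} (hV : 0 < V) :
    volume.real {t | t ∈ Icc T (2 * T) ∧ V < ‖PP z (XK y T) (t + s)‖} ≤
      T * (17 * (m.factorial * W ^ m / V ^ (2 * m))) := by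
  have hT0 : 0 < T := by linarith
  have hc := PP_cont z (XK y T)
  have hX1 : 1 ≤ XK y T := by
    unfold XK
    apply Nat.le_floor
    rw [Nat.cast_one]
    exact Real.one_le_rpow hT hy
  have hXT : ((XK y T ^ (m + m) : ℕ) : ℝ) ≤ Real.sqrt T := by
    have h1 : (XK y T : ℝ) ≤ T ^ y := Nat.floor_le (by positivity)
    push_cast
    calc (XK y T : ℝ) ^ (m + m) ≤ (T ^ y) ^ (m + m) := pow_le_pow_left₀ (Nat.cast_nonneg _) h1 _
      _ = T ^ (2 * (m : ℝ) * y) := by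
          rw [← Real.rpow_natCast, ← Real.rpow_mul hT0.le]
          congr 1
          push_cast
          ring
      _ ≤ T ^ (1 / 2 : ℝ) := Real.rpow_le_rpow_of_exponent_le hT (by linarith)
      _ = Real.sqrt T := by rw [Real.sqrt_eq_rpow]
  have h1 : ∫ t in T..(2 * T), ‖PP z (XK y T) (t + s)‖ ^ (2 * m) ≤ 17 * T * (m.factorial * W ^ m) := by
    have e1 : ∫ t in T..(2 * T), ‖PP z (XK y T) (t + s)‖ ^ (2 * m) =
        ∫ t in (T + s)..(2 * T + s), ‖PP z (XK y T) t‖ ^ (2 * m) :=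
      intervalIntegral.integral_comp_add_right (fun t => ‖PP z (XK y T) t‖ ^ (2 * m)) s
    rw [e1]
    refine (PPq m z (XK y T) hX1 T _ _ hT (by linarith) hXT).trans ?_
    have h2 : VS (nz z) (XK y T) ^ m ≤ W ^ m := pow_le_pow_left₀ (VS_nonneg _ _) hW m
    have e2 : 2 * T + s - (T + s) + 16 * T = 17 * T := by ring
    rw [e2]
    gcongr
  have h2 := mkv (P := fun t => ‖PP z (XK y T) (t + s)‖) (by fun_prop) (fun t => norm_nonneg _)
    (by linarith : T ≤ 2 * T) hV (2 * m) h1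
  refine h2.trans (le_of_eq ?_)
  ring

/-- the tail of the polynomial of a range -/
lemma tl_BB {T : ℝ} (hT : 1 ≤ T) {x y lam : ℝ} (hy : 0 ≤ y) (m : ℕ) (hm : 4 * (m : ℝ) * y ≤ 1)
    {W : ℝ} (hW : cv lam T x y 0 ≤ W) (s : ℝ) {V : ℝ} (hV : 0 < V) :
    volume.real {t | t ∈ Icc T (2 * T) ∧ V < ‖BB (Real.log T / lam) T x y (t + s)‖} ≤
      T * (17 * (m.factorial * W ^ m / V ^ (2 * m))) := by
  have h1 := tl_PP hT hy (bz (Real.log T / lam) T x) m hm (W := W) (by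
    rw [VS_bz, ← cv_zero]
    exact hW) s hV
  simp_rw [← BB_PP] at h1
  exact h1

lemma fm_le (m : ℕ) {W V : ℝ} (hW : 0 ≤ W) (hV : 0 < V) :
    m.factorial * W ^ m / V ^ (2 * m) ≤ (m * W / V ^ 2) ^ m := by
  have h1 : (m.factorial : ℝ) ≤ (m : ℝ) ^ m := by exact_mod_cast Nat.factorial_le_pow m
  rw [div_pow, mul_pow, ← pow_mul]
  gcongr

/-- Stirling's upper bound -/
lemma fact_up {m : ℕ} (hm : 1 ≤ m) : (m.factorial : ℝ) ≤ Real.exp 1 * m * ((m : ℝ) ^ m * Real.exp (-m)) := by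
  induction m, hm using Nat.le_induction with
  | base =>
    rw [Nat.factorial_one, Nat.cast_one, pow_one, one_mul, mul_one, ← Real.exp_add]
    simp
  | succ m hm ih =>
    have hm0 : (0 : ℝ) < m := by exact_mod_cast hm
    rw [Nat.factorial_succ]
    push_cast
    -- e m^(m+1) ≤ (m+1)^(m+1)
    have h1 : Real.exp 1 * (m : ℝ) ^ (m + 1) ≤ ((m : ℝ) + 1) ^ (m + 1) := by
      have h2 : 1 / ((m : ℝ) + 1) ≤ Real.log (((m : ℝ) + 1) / m) := by
        have h3 := Real.one_sub_inv_le_log_of_pos (show 0 < ((m : ℝ) + 1) / m by positivity)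
        have e : 1 - (((m : ℝ) + 1) / m)⁻¹ = 1 / ((m : ℝ) + 1) := by field_simp; ring
        rw [e] at h3
        exact h3
      have h4 : Real.exp 1 ≤ (((m : ℝ) + 1) / m) ^ (m + 1) := by
        have h5 : (((m : ℝ) + 1) / m) ^ (m + 1) = Real.exp ((m + 1 : ℕ) * Real.log (((m : ℝ) + 1) / m)) := by
          rw [Real.exp_nat_mul, Real.exp_log (by positivity)]
        rw [h5]
        apply Real.exp_le_exp.2
        push_cast
        have := mul_le_mul_of_nonneg_left h2 (by positivity : 0 ≤ (m : ℝ) + 1)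
        have e : ((m : ℝ) + 1) * (1 / ((m : ℝ) + 1)) = 1 := by field_simp
        linarith
      rw [div_pow, le_div_iff₀ (by positivity)] at h4
      exact h4
    have e1 : Real.exp (-((m : ℝ) + 1)) = Real.exp (-(m : ℝ)) * Real.exp (-1) := by
      rw [← Real.exp_add]; congr 1; ring
    have e2 : Real.exp 1 * Real.exp (-1) = 1 := by rw [← Real.exp_add]; simp
    calc ((m : ℝ) + 1) * m.factorial ≤ ((m : ℝ) + 1) * (Real.exp 1 * m * ((m : ℝ) ^ m * Real.exp (-m))) := by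
          gcongr
      _ = ((m : ℝ) + 1) * Real.exp (-m) * (Real.exp 1 * (m : ℝ) ^ (m + 1)) := by ring
      _ ≤ ((m : ℝ) + 1) * Real.exp (-m) * ((m : ℝ) + 1) ^ (m + 1) := by gcongr
      _ = (Real.exp 1 * Real.exp (-1)) * (((m : ℝ) + 1) * Real.exp (-m) * ((m : ℝ) + 1) ^ (m + 1)) := by
          rw [e2, one_mul]
      _ = _ := by rw [e1]; ring

/-- the sharp tail -/
lemma fm_sharp {m : ℕ} (hm : 1 ≤ m) {W V : ℝ} (hW : 0 ≤ W) (hV : 0 < V) (h : m * W ≤ V ^ 2) :
    m.factorial * W ^ m / V ^ (2 * m) ≤ Real.exp 1 * m * Real.exp (-m) := by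
  rw [div_le_iff₀ (by positivity), pow_mul]
  have h1 : ((m : ℝ) * W) ^ m ≤ (V ^ 2) ^ m := pow_le_pow_left₀ (by positivity) h m
  calc (m.factorial : ℝ) * W ^ m ≤ (Real.exp 1 * m * ((m : ℝ) ^ m * Real.exp (-m))) * W ^ m := by
        gcongr
        exact fact_up hm
    _ = (Real.exp 1 * m * Real.exp (-m)) * ((m : ℝ) * W) ^ m := by rw [mul_pow]; ring
    _ ≤ _ := by gcongr

lemma tlR {a ε2 R : ℝ} {m : ℕ} (hε2 : 0 < ε2) (ha0 : 0 ≤ a) (ha : a ≤ Real.exp (-(6 / ε2)))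
    (hm : ε2 * R / 2 ≤ m) : a ^ m ≤ Real.exp (-(3 * R)) := by
  calc a ^ m ≤ Real.exp (-(6 / ε2)) ^ m := pow_le_pow_left₀ ha0 ha m
    _ = Real.exp (m * (-(6 / ε2))) := by rw [← Real.exp_nat_mul]
    _ ≤ _ := by
      apply Real.exp_le_exp.2
      have h1 : (ε2 * R / 2) * (6 / ε2) ≤ m * (6 / ε2) := mul_le_mul_of_nonneg_right hm (by positivity)
      have e : (ε2 * R / 2) * (6 / ε2) = 3 * R := by field_simp; ring
      linarith

end

end Pool.Agent.T6.H5.MX
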